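import Mathlib
import Pool.Agent.H75.Four.Piv

set_option autoImplicit false
open Finset

/-!
# Planar duality for an abstract disc of labels

`Disc B n v f` : `B` is a finite set of labels (edges) whose boundary is the cyclic list
`.. f s, v s, f (s+1), v (s+1), ..` (period `n`) of boundary vertices `v s` and boundary faces `f s` (`f s`
lies between `v (s-1)` and `v s`).

* `Disc.ed` : an open connection `v i, v j` and a dual connection `f k, f l` of `B` cannot coexist if
  `f k`, `f l` separate `v i` from `v j` on the boundary;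
* `Disc.hd` : if `v i`, `v j` are not connected then two boundary faces which separate them are joined
  by a dual path of `B`.
-/

namespace Pool.Agent.H41.W

open Pool.Agent.H75.Perc Pool.Agent.H75.TwoArm Pool.Agent.H75.Four Pool.Agent.H75.Four.PivAux

/-- coboundary of a function of the faces, at a label -/
def dl (S : ℤ × ℤ → ZMod 2) (l : ℤ × ℤ) : ZMod 2 :=
  if l.1 % 2 = 1 then S ((l.1 + 1) / 2, l.2 / 2) + S ((l.1 + 1) / 2, l.2 / 2 + 1)
  else S (l.1 / 2, (l.2 + 1) / 2) + S (l.1 / 2 + 1, (l.2 + 1) / 2)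

lemma dl_adj (S : ℤ × ℤ → ZMod 2) {f g : ℤ × ℤ} (h : IsUnit4 (g - f)) :
    dl S (f + g - (1, 1)) = S f + S g := by
  obtain ⟨a, b⟩ := f
  obtain ⟨c, d⟩ := g
  have hu := unit_cases h
  simp only at hu
  unfold dl
  simp only [Prod.mk_add_mk, Prod.mk_sub_mk]
  rcases hu with ⟨rfl, rfl⟩ | ⟨rfl, rfl⟩ | ⟨rfl, rfl⟩ | ⟨rfl, rfl⟩
  · rw [if_neg (by omega), show (a + (a + 1) - 1) / 2 = a by omega,
      show (d + d - 1 + 1) / 2 = d by omega]
  · rw [if_pos (by omega), show (c + c - 1 + 1) / 2 = c by omega,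
      show (b + (b + 1) - 1) / 2 = b by omega]
  · rw [if_neg (by omega), show (a + (a - 1) - 1) / 2 = a - 1 by omega,
      show (d + d - 1 + 1) / 2 = d by omega, show a - 1 + 1 = a by ring, add_comm]
  · rw [if_pos (by omega), show (c + c - 1 + 1) / 2 = c by omega,
      show (b + (b - 1) - 1) / 2 = b - 1 by omega, show b - 1 + 1 = b by ring, add_comm]

lemma dg_dl (S : ℤ × ℤ → ZMod 2) (w : ℤ × ℤ) : dg (dl S) w = 0 := by
  obtain ⟨x, y⟩ := w
  unfold dg dl
  simp only
  rw [if_pos (by omega), if_pos (by omega), if_neg (by omega), if_neg (by omega)]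
  rw [show (2 * x + 1 + 1) / 2 = x + 1 by omega, show (2 * y) / 2 = y by omega,
    show (2 * x - 1 + 1) / 2 = x by omega, show (2 * x) / 2 = x by omega,
    show (2 * y + 1 + 1) / 2 = y + 1 by omega, show (2 * y - 1 + 1) / 2 = y by omega]
  generalize S (x + 1, y) = a
  generalize S (x + 1, y + 1) = b
  generalize S (x, y) = c
  generalize S (x, y + 1) = d
  revert a b c d
  decide

lemma dg_split (n : ℤ × ℤ → ZMod 2) (B : Finset (ℤ × ℤ)) (w : ℤ × ℤ) :
    dg n w = dg (fun l => if l ∈ B then n l else 0) w + dg (fun l => if l ∈ B then 0 else n l) w := by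
  rw [← dg_add]
  congr 1
  funext l
  by_cases h : l ∈ B <;> simp [h]

lemma dg_congr {n m : ℤ × ℤ → ZMod 2} (h : ∀ l : ℤ × ℤ, (l.1 + l.2) % 2 = 1 → n l = m l) (w : ℤ × ℤ) :
    dg n w = dg m w := by
  unfold dg
  rw [h _ (by simp only; omega), h _ (by simp only; omega), h _ (by simp only; omega),
    h _ (by simp only; omega)]

/-- `p` is an end of a label of `A` -/
def Tc (A : Finset (ℤ × ℤ)) (p : ℤ × ℤ) : Prop := ∃ q, IsUnit4 (q - p) ∧ p + q ∈ A

/-- `p` is an end of a label outside `A` -/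
def Ni (A : Finset (ℤ × ℤ)) (p : ℤ × ℤ) : Prop := ∃ q, IsUnit4 (q - p) ∧ p + q ∉ A

/-- **An abstract disc.** -/
structure Disc (B : Finset (ℤ × ℤ)) (n : ℤ) (v f : ℤ → ℤ × ℤ) : Prop where
  pos : 0 < n
  odd : ∀ l ∈ B, (l.1 + l.2) % 2 = 1
  vper : ∀ s, v (s + n) = v s
  fper : ∀ s, f (s + n) = f s
  vinj : ∀ s t, v s = v t → n ∣ s - t
  out : ∀ (S : ℤ × ℤ → ZMod 2) (s : ℤ),
    dg (fun l => if l ∈ B then 0 else dl S l) (v s) = S (f s) + S (f (s + 1))
  bd : ∀ w, Tc B w → Ni B w → ∃ s, v s = w
  ext : ∃ R : Finset (ℤ × ℤ), Disjoint R B ∧ ∀ s t, Co R (v s) (v t)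

/-- a chain of open labels with exactly two odd vertices joins them -/
theorem chain_co {κ : Finset (ℤ × ℤ)} {n : ℤ × ℤ → ZMod 2} {a b : ℤ × ℤ}
    (hn : ∀ l : ℤ × ℤ, (l.1 + l.2) % 2 = 1 → n l ≠ 0 → l ∈ κ)
    (hd : ∀ w, dg n w = id1 a w + id1 b w) : Co κ a b := by
  classical
  by_cases hab : a = b
  · rw [hab]; exact Co.refl _ _
  -- the cluster of `a`, a finite set
  set V : Finset (ℤ × ℤ) := insert a (κ.biUnion fun l => {eu l, ev l}) with hV
  set F := V.filter (fun w => Co κ a w) with hF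
  have hmem : ∀ w, w ∈ F ↔ Co κ a w := by
    intro w
    rw [hF, mem_filter]
    refine ⟨fun h => h.2, fun h => ⟨?_, h⟩⟩
    rcases Relation.ReflTransGen.cases_tail h with h1 | ⟨c, hc, hcw⟩
    · rw [h1]; exact mem_insert_self _ _
    · refine mem_insert_of_mem (mem_biUnion.2 ⟨c + w, hcw.2, ?_⟩)
      rw [mem_insert, mem_singleton]
      obtain ⟨x, y⟩ := c
      obtain ⟨x', y'⟩ := w
      have hu := unit_cases hcw.1
      simp only at hu
      unfold eu ev
      simp only [Prod.mk_add_mk, Prod.mk.injEq]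
      omega
  have key : ∀ d : ℤ × ℤ, IsUnit4 d →
      ∑ w ∈ F, n (w + (w + d)) = ∑ w ∈ F, n (w + (w - d)) := by
    intro d hd4
    refine Finset.sum_bij_ne_zero (fun w _ _ => w + d) ?_ ?_ ?_ ?_
    · intro w hw hne
      have h1 : w + (w + d) ∈ κ := hn _ (by
        rcases hd4 with rfl | rfl | rfl | rfl <;> simp only [Prod.fst_add, Prod.snd_add] <;> omega) hne
      rw [hmem] at hw ⊢
      exact hw.tail ⟨by rwa [add_sub_cancel_left], h1⟩
    · intro w _ _ w' _ _ h
      exact add_right_cancel h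
    · intro w hw hne
      have h1 : w + (w - d) ∈ κ := hn _ (by
        rcases hd4 with rfl | rfl | rfl | rfl <;> simp only [Prod.fst_add, Prod.snd_add,
          Prod.fst_sub, Prod.snd_sub] <;> omega) hne
      have h2 : Co κ a (w - d) := by
        rw [hmem] at hw
        refine hw.tail ⟨?_, h1⟩
        rw [sub_sub_cancel_left]
        exact isUnit4_neg hd4
      refine ⟨w - d, (hmem _).2 h2, ?_, ?_⟩
      · rw [show w - d + (w - d + d) = w + (w - d) by ring]; exact hne
      · ring
    · intro w _ _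
      rw [show w + d + (w + d - d) = w + (w + d) by ring]
  have hsum : ∑ w ∈ F, dg n w = 0 := by
    have h1 := key (1, 0) (Or.inl rfl)
    have h2 := key (0, 1) (Or.inr (Or.inl rfl))
    have e : ∀ w : ℤ × ℤ, dg n w = n (w + (w + (1, 0))) + n (w + (w - (1, 0))) +
        n (w + (w + (0, 1))) + n (w + (w - (0, 1))) := by
      intro w
      obtain ⟨x, y⟩ := w
      unfold dg
      simp only [Prod.mk_add_mk, Prod.mk_sub_mk]
      ring_nf
    rw [sum_congr rfl fun w _ => e w, sum_add_distrib, sum_add_distrib, sum_add_distrib, h1, h2]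
    generalize (∑ w ∈ F, n (w + (w - (1, 0)))) = p
    generalize (∑ w ∈ F, n (w + (w - (0, 1)))) = q
    revert p q
    decide
  rw [sum_congr rfl fun w _ => hd w, sum_add_distrib] at hsum
  unfold id1 at hsum
  rw [sum_ite_eq' F a, sum_ite_eq' F b, if_pos ((hmem a).2 (Co.refl _ _))] at hsum
  by_contra h
  rw [if_neg (fun h1 => h ((hmem b).1 h1))] at hsum
  simp at hsum

lemma colour_du {B κ : Finset (ℤ × ℤ)} {S : ℤ × ℤ → ZMod 2}
    (hS : ∀ l ∈ B, l ∉ κ → dl S l = 0) {g g' : ℤ × ℤ} (h : Co (du B κ) g g') : S g = S g' := by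
  have hz : ∀ x y : ZMod 2, x + y = 0 → x = y := by decide
  induction h with
  | refl => rfl
  | @tail x y _ hxy ih =>
    rw [ih]
    apply hz
    rw [← dl_adj S hxy.1]
    have h4 := hxy.2
    unfold du at h4
    rw [mem_map] at h4
    obtain ⟨l, hl, hlxy⟩ := h4
    have h5 : x + y - (1, 1) = l := by
      rw [← hlxy]
      refine Prod.ext ?_ ?_ <;> simp [sh1]
    rw [h5]
    rw [mem_sdiff] at hl
    exact hS l hl.1 hl.2

lemma const_on {α : Type*} (g : ℤ → α) {a b : ℤ} (h : ∀ i, a < i → i < b → g i = g (i + 1)) :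
    ∀ i j, a < i → i ≤ b → a < j → j ≤ b → g i = g j := by
  have key : ∀ (m : ℕ) (i : ℤ), a < i → i + m ≤ b → g i = g (i + m) := by
    intro m
    induction m with
    | zero => intro i _ _; simp
    | succ m ih =>
      intro i h1 h2
      push_cast at h2
      rw [h i h1 (by omega), ih (i + 1) (by omega) (by omega)]
      congr 1; push_cast; ring
  intro i j h1 h2 h3 h4
  rcases le_total i j with h5 | h5
  · have := key (j - i).toNat i h1 (by omega)
    rw [Int.toNat_of_nonneg (by omega)] at this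
    rwa [show i + (j - i) = j by ring] at this
  · have := key (i - j).toNat j h3 (by omega)
    rw [Int.toNat_of_nonneg (by omega)] at this
    rw [show j + (i - j) = i by ring] at this
    exact this.symm

namespace Disc

variable {B κ κ' : Finset (ℤ × ℤ)} {n : ℤ} {v f : ℤ → ℤ × ℤ} {i j k l : ℤ}

lemma ne_of_lt (D : Disc B n v f) (h : i < j) (h' : j < i + n) : v i ≠ v j := by
  intro he
  obtain ⟨c, hc⟩ := D.vinj j i he.symm
  have hp := D.pos
  rcases le_or_gt c 0 with h1 | h1
  · nlinarith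
  · nlinarith

lemma inn (D : Disc B n v f) (S : ℤ × ℤ → ZMod 2) (w : ℤ × ℤ) (hw : ∀ s, v s ≠ w) :
    dg (fun l => if l ∈ B then 0 else dl S l) w = 0 := by
  have hn : ¬ (Tc B w ∧ Ni B w) := fun h => by
    obtain ⟨s, hs⟩ := D.bd w h.1 h.2
    exact hw s hs
  have hlab : ∀ l : ℤ × ℤ, l = (2 * w.1 + 1, 2 * w.2) ∨ l = (2 * w.1 - 1, 2 * w.2) ∨
      l = (2 * w.1, 2 * w.2 + 1) ∨ l = (2 * w.1, 2 * w.2 - 1) → ∃ q, IsUnit4 (q - w) ∧ w + q = l := by
    intro l hl
    refine ⟨l - w, ?_, by ring⟩
    unfold IsUnit4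
    simp only [Prod.ext_iff, Prod.fst_sub, Prod.snd_sub]
    rcases hl with rfl | rfl | rfl | rfl <;> simp only <;> omega
  by_cases hT : Tc B w
  · have hN : ¬ Ni B w := fun h => hn ⟨hT, h⟩
    have hin : ∀ l, (∃ q, IsUnit4 (q - w) ∧ w + q = l) → l ∈ B := by
      rintro l ⟨q, hq, rfl⟩
      by_contra h
      exact hN ⟨q, hq, h⟩
    unfold dg
    simp only
    rw [if_pos (hin _ (hlab _ (Or.inl rfl))), if_pos (hin _ (hlab _ (Or.inr (Or.inl rfl)))),
      if_pos (hin _ (hlab _ (Or.inr (Or.inr (Or.inl rfl))))),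
      if_pos (hin _ (hlab _ (Or.inr (Or.inr (Or.inr rfl)))))]
    simp
  · have hout : ∀ l, (∃ q, IsUnit4 (q - w) ∧ w + q = l) → l ∉ B := by
      rintro l ⟨q, hq, rfl⟩ h
      exact hT ⟨q, hq, h⟩
    rw [← dg_dl S w]
    unfold dg
    simp only
    rw [if_neg (hout _ (hlab _ (Or.inl rfl))), if_neg (hout _ (hlab _ (Or.inr (Or.inl rfl)))),
      if_neg (hout _ (hlab _ (Or.inr (Or.inr (Or.inl rfl))))),
      if_neg (hout _ (hlab _ (Or.inr (Or.inr (Or.inr rfl)))))]

/-- a face colouring adapted to an open path -/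
lemma colour (D : Disc B n v f) (hκ : κ ⊆ B) (h : Co κ (v i) (v j)) :
    ∃ S : ℤ × ℤ → ZMod 2, (∀ l ∈ B, l ∉ κ → dl S l = 0) ∧
      ∀ s, S (f s) + S (f (s + 1)) = id1 (v i) (v s) + id1 (v j) (v s) := by
  obtain ⟨c, hc1, hc2⟩ := co_cycle h
  obtain ⟨R, hR, hRc⟩ := D.ext
  obtain ⟨m, hm1, hm2⟩ := co_cycle (hRc i j)
  have hfin : {l : ℤ × ℤ | c l + m l ≠ 0}.Finite := by
    refine (κ ∪ R).finite_toSet.subset fun l hl => ?_
    rw [Set.mem_ofPred_eq] at hl
    rw [coe_union, Set.mem_union]
    by_cases h0 : c l = 0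
    · right
      rw [h0, zero_add] at hl
      exact hm1 l hl
    · left
      exact hc1 l h0
  have hdeg : ∀ w, dg (fun l => c l + m l) w = 0 := by
    intro w
    rw [dg_add, hc2, hm2]
    exact zmod2_add_self _
  obtain ⟨S, hS⟩ := even_faces (fun l => c l + m l) hfin hdeg
  have hdl : ∀ l : ℤ × ℤ, (l.1 + l.2) % 2 = 1 → dl S l = c l + m l := by
    intro l hl
    have h1 := Pool.Agent.H75.Four.PivAux.fi_zu_zv hl
    rw [← h1.2, dl_adj S h1.1, hS _ _ h1.1]
  have hmB : ∀ l ∈ B, m l = 0 := by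
    intro l hl
    by_contra h0
    exact (disjoint_left.1 hR (hm1 l h0)) hl
  have hcB : ∀ l, l ∉ B → c l = 0 := by
    intro l hl
    by_contra h0
    exact hl (hκ (hc1 l h0))
  refine ⟨S, fun l hl hlκ => ?_, fun s => ?_⟩
  · rw [hdl l (D.odd l hl), hmB l hl, add_zero]
    by_contra h0
    exact hlκ (hc1 l h0)
  · rw [← D.out S s, ← hm2 (v s)]
    refine dg_congr (fun l hl => ?_) _
    by_cases hlB : l ∈ B
    · rw [if_pos hlB, hmB l hlB]
    · rw [if_neg hlB, hdl l hl, hcB l hlB, zero_add]

/-- **Easy duality**: an open and a dual connection do not cross. -/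
theorem ed (D : Disc B n v f) (hκ : κ ⊆ B) (h : Co κ (v i) (v j)) (hd : Co (du B κ) (f k) (f l))
    (h1 : i < k) (h2 : k ≤ j) (h3 : j < l) (h4 : l ≤ i + n) : False := by
  obtain ⟨S, hS1, hS2⟩ := D.colour hκ h
  have e1 : S (f k) = S (f l) := colour_du hS1 hd
  have hz : ∀ x y : ZMod 2, x + y = 0 → x = y := by decide
  have hne : ∀ s, i < s → s < i + n → s ≠ j → id1 (v i) (v s) + id1 (v j) (v s) = 0 := by
    intro s a b c
    unfold id1
    rw [if_neg (fun h => D.ne_of_lt a b h.symm), if_neg, add_zero]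
    intro h
    rcases lt_or_gt_of_ne c with c | c
    · exact D.ne_of_lt c (by omega) h
    · exact D.ne_of_lt c (by omega) h.symm
  have c1 : S (f k) = S (f j) := by
    refine const_on (fun s => S (f s)) (a := i) (b := j) (fun s a b => ?_) k j h1 h2 (by omega)
      le_rfl
    apply hz
    rw [hS2, hne s a (by omega) (by omega)]
  have c2 : S (f (j + 1)) = S (f l) := by
    refine const_on (fun s => S (f s)) (a := j) (b := i + n) (fun s a b => ?_) (j + 1) l (by omega)
      (by omega) h3 h4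
    apply hz
    rw [hS2, hne s (by omega) (by omega) (by omega)]
  have c3 := hS2 j
  have c4 : id1 (v i) (v j) = 0 := by
    unfold id1
    rw [if_neg (fun h => D.ne_of_lt (show i < j by omega) (by omega) h.symm)]
  have c5 : id1 (v j) (v j) = 1 := by unfold id1; rw [if_pos rfl]
  rw [c4, c5, zero_add, ← c1, c2, ← e1] at c3
  revert c3
  generalize S (f k) = a
  revert a
  decide

/-- **Hard duality**: if two boundary vertices are not connected, a dual path separates them. -/
theorem hd (D : Disc B n v f) (h1 : i < j) (h2 : j < i + n) (h : ¬ Co κ (v i) (v j)) :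
    ∃ k l, i < k ∧ k ≤ j ∧ j < l ∧ l ≤ i + n ∧ Co (du B κ) (f k) (f l) := by
  classical
  by_contra hcon
  push Not at hcon
  apply h
  set S : ℤ × ℤ → ZMod 2 := fun g => if ∃ k, i < k ∧ k ≤ j ∧ Co (du B κ) (f k) g then 1 else 0 with hS
  have s1 : ∀ k, i < k → k ≤ j → S (f k) = 1 := by
    intro k a b
    rw [hS]
    simp only
    rw [if_pos ⟨k, a, b, Co.refl _ _⟩]
  have s0 : ∀ k, j < k → k ≤ i + n → S (f k) = 0 := by
    intro k a b
    rw [hS]
    simp only
    rw [if_neg]
    rintro ⟨k', a', b', h'⟩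
    exact hcon k' k a' b' a b h'
  have hstep : ∀ g g', IsUnit4 (g' - g) → g + g' - (1, 1) ∈ B → g + g' - (1, 1) ∉ κ → S g = S g' := by
    intro g g' hu hB hk
    have had : Ad (du B κ) g g' := by
      refine ⟨hu, ?_⟩
      unfold du
      rw [mem_map]
      refine ⟨g + g' - (1, 1), mem_sdiff.2 ⟨hB, hk⟩, ?_⟩
      unfold sh1
      simp only [Function.Embedding.coeFn_mk]
      refine Prod.ext ?_ ?_ <;> simp
    have hit : (∃ k, i < k ∧ k ≤ j ∧ Co (du B κ) (f k) g) ↔
        (∃ k, i < k ∧ k ≤ j ∧ Co (du B κ) (f k) g') := by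
      constructor
      · rintro ⟨k, a, b, c⟩
        exact ⟨k, a, b, c.tail had⟩
      · rintro ⟨k, a, b, c⟩
        refine ⟨k, a, b, c.trans ?_⟩
        exact (Co.symm (Relation.ReflTransGen.single had))
    rw [hS]
    simp only [hit]
  have hdl : ∀ l ∈ B, l ∉ κ → dl S l = 0 := by
    intro l hl hk
    have a := Pool.Agent.H75.Four.PivAux.fi_zu_zv (D.odd l hl)
    rw [← a.2, dl_adj S a.1, hstep _ _ a.1 (by rw [a.2]; exact hl) (by rw [a.2]; exact hk)]
    exact zmod2_add_self _
  refine chain_co (n := fun l => if l ∈ B then dl S l else 0) (fun l _ hne => ?_) (fun w => ?_)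
  · by_contra hk
    apply hne
    by_cases hB : l ∈ B
    · simp only [if_pos hB]
      exact hdl l hB hk
    · simp only [if_neg hB]
  · have a := dg_split (dl S) B w
    rw [dg_dl] at a
    have hz : ∀ x y : ZMod 2, 0 = x + y → x = y := by decide
    rw [hz _ _ a]
    by_cases hw : ∃ s, v s = w
    · obtain ⟨s, rfl⟩ := hw
      -- a representative in `(i, i + n]`
      obtain ⟨t, ht1, ht2, hvt, hft⟩ : ∃ t, i ≤ t ∧ t < i + n ∧ v t = v s ∧
          S (f t) + S (f (t + 1)) = S (f s) + S (f (s + 1)) := by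
        have hp := D.pos
        refine ⟨i + (s - i) % n, ?_, ?_, ?_, ?_⟩
        · have := Int.emod_nonneg (s - i) hp.ne'; omega
        · have := Int.emod_lt_of_pos (s - i) hp; omega
        · have hper : ∀ (m : ℕ) (t : ℤ), v (t + m * n) = v t := by
            intro m
            induction m with
            | zero => intro t; simp
            | succ m ih => intro t; rw [← ih t, ← D.vper (t + m * n)]; congr 1; push_cast; ring
          have e := Int.emod_add_mul_ediv (s - i) n
          rcases le_total 0 ((s - i) / n) with h0 | h0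
          · rw [← hper ((s - i) / n).toNat (i + (s - i) % n), Int.toNat_of_nonneg h0]
            congr 1
            linarith
          · rw [← hper (-((s - i) / n)).toNat s, Int.toNat_of_nonneg (by omega)]
            congr 1
            linarith
        · rw [← D.out, ← D.out]
          congr 1
          have hper : ∀ (m : ℕ) (t : ℤ), v (t + m * n) = v t := by
            intro m
            induction m with
            | zero => intro t; simp
            | succ m ih => intro t; rw [← ih t, ← D.vper (t + m * n)]; congr 1; push_cast; ring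
          have e := Int.emod_add_mul_ediv (s - i) n
          rcases le_total 0 ((s - i) / n) with h0 | h0
          · rw [← hper ((s - i) / n).toNat (i + (s - i) % n), Int.toNat_of_nonneg h0]
            congr 1
            linarith
          · rw [← hper (-((s - i) / n)).toNat s, Int.toNat_of_nonneg (by omega)]
            congr 1
            linarith
      rw [D.out, ← hft, ← hvt]
      have hvi : v (i + n) = v i := D.vper i
      have hfi : f (i + n) = f i := D.fper i
      rcases eq_or_lt_of_le ht1 with rfl | h3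
      · rw [← hfi, s0 (i + n) (by omega) le_rfl, s1 (i + 1) (by omega) (by omega)]
        unfold id1
        rw [if_pos rfl, if_neg (D.ne_of_lt h1 h2)]
        decide
      · rcases lt_trichotomy t j with h4 | rfl | h4
        · rw [s1 t h3 h4.le, s1 (t + 1) (by omega) (by omega)]
          unfold id1
          rw [if_neg (fun h => D.ne_of_lt h3 ht2 h.symm), if_neg (D.ne_of_lt h4 (by omega))]
          decide
        · rw [s1 t h3 le_rfl, s0 (t + 1) (by omega) (by omega)]
          unfold id1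
          rw [if_neg (fun h => D.ne_of_lt h3 ht2 h.symm), if_pos rfl]
          decide
        · rw [s0 t h4 ht2.le, s0 (t + 1) (by omega) (by omega)]
          unfold id1
          rw [if_neg (fun h => D.ne_of_lt h3 ht2 h.symm),
            if_neg (fun h => D.ne_of_lt h4 (by omega) h.symm)]
    · push Not at hw
      rw [D.inn S w hw]
      unfold id1
      rw [if_neg (fun h => hw i h.symm), if_neg (fun h => hw j h.symm), add_zero]

end Disc

end Pool.Agent.H41.W
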