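import Mathlib
import Pool.Agent.H41.W.Disc

set_option autoImplicit false
open Finset

/-!
# Four clusters between a pivotal block and the boundary of a disc

Positions on the boundary of a disc: the vertex `v s` has position `2 s`, the face `f s` has position
`2 s - 1`, period `2 n`. If opening / closing the block `P` changes the partition of the boundary
vertices into clusters, then there are two open clusters (of `ω \ P`) and two dual clusters (of the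
complement of `ω ∪ P`) which touch `P`, and their traces on the boundary lie in disjoint consecutive
intervals `[a i, b i]`. Given disjoint arcs `[lo k, hi k]` of the boundary, either `P` is pivotal for all
marks in four of them, or one of the clusters meets the boundary only in some `[lo k, hi (k+1)]`.
-/

namespace Pool.Agent.H41.W

open Pool.Agent.H75.Perc Pool.Agent.H75.TwoArm Pool.Agent.H75.Four Pool.Agent.H75.Four.PivAux

lemma touch {κ P : Finset (ℤ × ℤ)} {x y : ℤ × ℤ} (h : Co (κ ∪ P) x y) :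
    Co κ x y ∨ ∃ p, Tc P p ∧ Co κ x p := by
  induction h with
  | refl => exact Or.inl (Co.refl _ _)
  | @tail b c _ hbc ih =>
    rcases ih with ih | ih
    · rcases mem_union.1 hbc.2 with h1 | h1
      · exact Or.inl (ih.tail ⟨hbc.1, h1⟩)
      · exact Or.inr ⟨b, ⟨c, hbc.1, h1⟩, ih⟩
    · exact Or.inr ih

lemma du_sdiff {B P ω : Finset (ℤ × ℤ)} (hP : P ⊆ B) :
    du B (ω \ P) = du B (ω ∪ P) ∪ P.map sh1 := by
  unfold du
  rw [← map_union]
  congr 1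
  ext l
  simp only [mem_sdiff, mem_union]
  constructor
  · rintro ⟨h1, h2⟩
    by_cases h3 : l ∈ P
    · exact Or.inr h3
    · left
      refine ⟨h1, ?_⟩
      rintro (h4 | h4)
      · exact h2 ⟨h4, h3⟩
      · exact h3 h4
  · rintro (⟨h1, h2⟩ | h1)
    · exact ⟨h1, fun h3 => h2 (Or.inl h3.1)⟩
    · exact ⟨hP h1, fun h3 => h3.2 h1⟩

lemma sdiff_union_self' {P ω : Finset (ℤ × ℤ)} : ω \ P ∪ P = ω ∪ P := sdiff_union_self_eq_union

/-- an open cluster of `κ` touching `P` with trace in `[a, b]`, first position `a` -/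
def AO (κ P : Finset (ℤ × ℤ)) (n : ℤ) (v : ℤ → ℤ × ℤ) (a b : ℤ) : Prop :=
  ∃ s : ℤ, a = 2 * s ∧ (∃ p, Tc P p ∧ Co κ (v s) p) ∧
    ∀ t, Co κ (v s) (v t) → ∃ m : ℤ, a ≤ 2 * (t + m * n) ∧ 2 * (t + m * n) ≤ b

/-- a dual cluster touching `P` with trace in `[a, b]`, first position `a` -/
def AD (κ P : Finset (ℤ × ℤ)) (n : ℤ) (f : ℤ → ℤ × ℤ) (a b : ℤ) : Prop :=
  ∃ s : ℤ, a = 2 * s - 1 ∧ (∃ p, Tc (P.map sh1) p ∧ Co κ (f s) p) ∧
    ∀ t, Co κ (f s) (f t) → ∃ m : ℤ, a ≤ 2 * (t + m * n) - 1 ∧ 2 * (t + m * n) - 1 ≤ b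

lemma minmax {Q : ℤ → Prop} {lo hi x : ℤ} (h1 : lo ≤ x) (h2 : x ≤ hi) (hx : Q x) :
    ∃ a b, lo ≤ a ∧ a ≤ x ∧ x ≤ b ∧ b ≤ hi ∧ Q a ∧ Q b ∧
      ∀ y, lo ≤ y → y ≤ hi → Q y → a ≤ y ∧ y ≤ b := by
  classical
  set F := (Icc lo hi).filter Q with hF
  have hmem : ∀ y, y ∈ F ↔ (lo ≤ y ∧ y ≤ hi) ∧ Q y := by
    intro y; rw [hF, mem_filter, mem_Icc]
  have hne : F.Nonempty := ⟨x, (hmem x).2 ⟨⟨h1, h2⟩, hx⟩⟩
  have e1 := (hmem _).1 (F.min'_mem hne)
  have e2 := (hmem _).1 (F.max'_mem hne)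
  refine ⟨F.min' hne, F.max' hne, e1.1.1, ?_, ?_, e2.1.2, e1.2, e2.2, fun y a b c => ?_⟩
  · exact F.min'_le _ ((hmem x).2 ⟨⟨h1, h2⟩, hx⟩)
  · exact F.le_max' _ ((hmem x).2 ⟨⟨h1, h2⟩, hx⟩)
  · have := (hmem y).2 ⟨⟨a, b⟩, c⟩
    exact ⟨F.min'_le _ this, F.le_max' _ this⟩

namespace Disc

variable {B κ κ' P ω : Finset (ℤ × ℤ)} {n : ℤ} {v f : ℤ → ℤ × ℤ} {i j k l : ℤ}

lemma vper' (D : Disc B n v f) (m s : ℤ) : v (s + m * n) = v s := by
  have hper : ∀ (m : ℕ) (t : ℤ), v (t + m * n) = v t := by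
    intro m
    induction m with
    | zero => intro t; simp
    | succ m ih => intro t; rw [← ih t, ← D.vper (t + m * n)]; congr 1; push_cast; ring
  rcases le_total 0 m with h | h
  · have := hper m.toNat s
    rwa [Int.toNat_of_nonneg h] at this
  · have := hper (-m).toNat (s + m * n)
    rw [Int.toNat_of_nonneg (by omega)] at this
    rw [← this]
    congr 1
    ring

lemma fper' (D : Disc B n v f) (m s : ℤ) : f (s + m * n) = f s := by
  have hper : ∀ (m : ℕ) (t : ℤ), f (t + m * n) = f t := by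
    intro m
    induction m with
    | zero => intro t; simp
    | succ m ih => intro t; rw [← ih t, ← D.fper (t + m * n)]; congr 1; push_cast; ring
  rcases le_total 0 m with h | h
  · have := hper m.toNat s
    rwa [Int.toNat_of_nonneg h] at this
  · have := hper (-m).toNat (s + m * n)
    rw [Int.toNat_of_nonneg (by omega)] at this
    rw [← this]
    congr 1
    ring

lemma rep (D : Disc B n v f) (c t : ℤ) : ∃ m : ℤ, c ≤ t + m * n ∧ t + m * n < c + n := by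
  have hp := D.pos
  refine ⟨-((t - c) / n), ?_, ?_⟩
  · have := Int.emod_nonneg (t - c) hp.ne'
    have e := Int.emod_add_mul_ediv (t - c) n
    nlinarith
  · have := Int.emod_lt_of_pos (t - c) hp
    have e := Int.emod_add_mul_ediv (t - c) n
    nlinarith

/-- **Four clusters.** -/
theorem four (D : Disc B n v f) (hP : P ⊆ B) (hω : ω ⊆ B) {x y : ℤ}
    (h1 : Co (ω ∪ P) (v x) (v y)) (h2 : ¬ Co (ω \ P) (v x) (v y)) :
    ∃ a0 b0 a1 b1 a2 b2 a3 b3 : ℤ, (a0 ≤ b0 ∧ b0 < a1) ∧ (a1 ≤ b1 ∧ b1 < a2) ∧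
      (a2 ≤ b2 ∧ b2 < a3) ∧ (a3 ≤ b3 ∧ b3 < a0 + 2 * n) ∧
      AO (ω \ P) P n v a0 b0 ∧ AD (du B (ω ∪ P)) P n f a1 b1 ∧
      AO (ω \ P) P n v a2 b2 ∧ AD (du B (ω ∪ P)) P n f a3 b3 := by
  have hκ : ω \ P ⊆ B := sdiff_subset.trans hω
  have hκ' : ω ∪ P ⊆ B := union_subset hω hP
  have hsub : ω \ P ⊆ ω ∪ P := sdiff_subset.trans subset_union_left
  have hdu : du B (ω ∪ P) ⊆ du B (ω \ P) := by rw [du_sdiff hP]; exact subset_union_left
  -- representatives `i < j < i + n`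
  obtain ⟨i, j, hij, hjn, H1, H2⟩ : ∃ i j : ℤ, i < j ∧ j < i + n ∧ Co (ω ∪ P) (v i) (v j) ∧
      ¬ Co (ω \ P) (v i) (v j) := by
    obtain ⟨m, hm1, hm2⟩ := D.rep x y
    refine ⟨x, y + m * n, ?_, hm2, by rw [D.vper']; exact h1, by rw [D.vper']; exact h2⟩
    rcases lt_or_eq_of_le hm1 with h | h
    · exact h
    · exfalso
      apply h2
      rw [show v x = v y by rw [← D.vper' m y, ← h]]
      exact Co.refl _ _
  obtain ⟨k, l, hik, hkj, hjl, hln, hkl⟩ := D.hd hij hjn H2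
  -- the four arms
  have t1 : ∃ p, Tc P p ∧ Co (ω \ P) (v i) p := by
    rcases touch (κ := ω \ P) (P := P) (by rw [sdiff_union_self']; exact H1) with h | h
    · exact absurd h H2
    · exact h
  have t3 : ∃ p, Tc P p ∧ Co (ω \ P) (v j) p := by
    rcases touch (κ := ω \ P) (P := P) (by rw [sdiff_union_self']; exact H1.symm) with h | h
    · exact absurd h.symm H2
    · exact h
  have hnd : ¬ Co (du B (ω ∪ P)) (f k) (f l) := fun h => D.ed hκ' H1 h hik hkj hjl hln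
  have t2 : ∃ p, Tc (P.map sh1) p ∧ Co (du B (ω ∪ P)) (f k) p := by
    rcases touch (κ := du B (ω ∪ P)) (P := P.map sh1) (by rw [← du_sdiff hP]; exact hkl) with h | h
    · exact absurd h hnd
    · exact h
  have t4 : ∃ p, Tc (P.map sh1) p ∧ Co (du B (ω ∪ P)) (f l) p := by
    rcases touch (κ := du B (ω ∪ P)) (P := P.map sh1)
      (by rw [← du_sdiff hP]; exact hkl.symm) with h | h
    · exact absurd h.symm hnd
    · exact h
  -- windows
  have w1 : ∀ s, k ≤ s → s < l → ¬ Co (ω \ P) (v i) (v s) := fun s a b h =>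
    D.ed hκ h hkl hik a b hln
  have w3 : ∀ s, l - n ≤ s → s < k → ¬ Co (ω \ P) (v j) (v s) := fun s a b h =>
    D.ed hκ h.symm hkl b hkj hjl (by omega)
  have w2 : ∀ s, j < s → s ≤ i + n → ¬ Co (du B (ω ∪ P)) (f k) (f s) := fun s a b h =>
    D.ed hκ' H1 h hik hkj a b
  have w4 : ∀ s, i < s → s ≤ j → ¬ Co (du B (ω ∪ P)) (f l) (f s) := fun s a b h =>
    D.ed hκ' H1 h.symm a b hjl hln
  -- order
  have o12 : ∀ s t, s < k → Co (ω \ P) (v i) (v s) → i < t → Co (du B (ω ∪ P)) (f k) (f t) →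
      s < t := by
    intro s t a b c d
    by_contra h
    exact D.ed hκ b (d.symm.mono hdu) c (by omega) a (by omega)
  have o23 : ∀ s t, k ≤ s → Co (ω \ P) (v j) (v s) → t ≤ j → Co (du B (ω ∪ P)) (f k) (f t) →
      t ≤ s := by
    intro s t a b c d
    by_contra h
    have e : f (k + n) = f k := D.fper k
    exact D.ed (i := s) (j := j) (k := t) (l := k + n) hκ b.symm (by rw [e]; exact d.symm.mono hdu)
      (by omega) c (by omega) (by omega)
  have o34 : ∀ s t, s < l → Co (ω \ P) (v j) (v s) → j < t → Co (du B (ω ∪ P)) (f l) (f t) →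
      s < t := by
    intro s t a b c d
    by_contra h
    exact D.ed (i := j) (j := s) (k := t) (l := l) hκ b (d.symm.mono hdu) c (by omega) a (by omega)
  have o41 : ∀ s t, l - n ≤ s → Co (ω \ P) (v i) (v s) → t ≤ i + n →
      Co (du B (ω ∪ P)) (f l) (f t) → t ≤ s + n := by
    intro s t a b c d
    by_contra h
    have e1 : v (s + n) = v s := D.vper s
    have e2 : v (i + n) = v i := D.vper i
    have e3 : f (l + n) = f l := D.fper l
    exact D.ed (i := s + n) (j := i + n) (k := t) (l := l + n) hκ (by rw [e1, e2]; exact b.symm)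
      (by rw [e3]; exact d.symm.mono hdu) (by omega) c (by omega) (by omega)
  -- extreme positions
  obtain ⟨p1, q1, u1, u2, u3, u4, u5, u6, u7⟩ := minmax (Q := fun s => Co (ω \ P) (v i) (v s))
    (lo := l - n) (hi := k - 1) (x := i) (by omega) (by omega) (Co.refl _ _)
  obtain ⟨p2, q2, x1, x2, x3, x4, x5, x6, x7⟩ := minmax
    (Q := fun s => Co (du B (ω ∪ P)) (f k) (f s)) (lo := i + 1) (hi := j) (x := k) (by omega)
    (by omega) (Co.refl _ _)
  obtain ⟨p3, q3, y1, y2, y3, y4, y5, y6, y7⟩ := minmax (Q := fun s => Co (ω \ P) (v j) (v s))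
    (lo := k) (hi := l - 1) (x := j) (by omega) (by omega) (Co.refl _ _)
  obtain ⟨p4, q4, z1, z2, z3, z4, z5, z6, z7⟩ := minmax
    (Q := fun s => Co (du B (ω ∪ P)) (f l) (f s)) (lo := j + 1) (hi := i + n) (x := l) (by omega)
    (by omega) (Co.refl _ _)
  have r12 := o12 q1 p2 (by omega) u6 (by omega) x5
  have r23 := o23 p3 q2 (by omega) y5 (by omega) x6
  have r34 := o34 q3 p4 (by omega) y6 (by omega) z5
  have r41 := o41 p1 q4 (by omega) u5 (by omega) z6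
  refine ⟨2 * p1, 2 * q1, 2 * p2 - 1, 2 * q2 - 1, 2 * p3, 2 * q3, 2 * p4 - 1, 2 * q4 - 1,
    ⟨by omega, by omega⟩, ⟨by omega, by omega⟩, ⟨by omega, by omega⟩, ⟨by omega, by omega⟩,
    ⟨p1, rfl, ?_, ?_⟩, ⟨p2, rfl, ?_, ?_⟩, ⟨p3, rfl, ?_, ?_⟩, ⟨p4, rfl, ?_, ?_⟩⟩
  · obtain ⟨p, a, b⟩ := t1
    exact ⟨p, a, u5.symm.trans b⟩
  · intro t ht
    have ht' := u5.trans ht
    obtain ⟨m, hm1, hm2⟩ := D.rep (l - n) t
    have hv : Co (ω \ P) (v i) (v (t + m * n)) := by rw [D.vper']; exact ht'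
    have hk : t + m * n < k := by
      by_contra h
      exact w1 _ (by omega) (by omega) hv
    have := u7 _ hm1 (by omega) hv
    exact ⟨m, by omega, by omega⟩
  · obtain ⟨p, a, b⟩ := t2
    exact ⟨p, a, x5.symm.trans b⟩
  · intro t ht
    have ht' := x5.trans ht
    obtain ⟨m, hm1, hm2⟩ := D.rep (i + 1) t
    have hv : Co (du B (ω ∪ P)) (f k) (f (t + m * n)) := by rw [D.fper']; exact ht'
    have hk : t + m * n ≤ j := by
      by_contra h
      exact w2 _ (by omega) (by omega) hv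
    have := x7 _ hm1 (by omega) hv
    exact ⟨m, by omega, by omega⟩
  · obtain ⟨p, a, b⟩ := t3
    exact ⟨p, a, y5.symm.trans b⟩
  · intro t ht
    have ht' := y5.trans ht
    obtain ⟨m, hm1, hm2⟩ := D.rep (l - n) t
    have hv : Co (ω \ P) (v j) (v (t + m * n)) := by rw [D.vper']; exact ht'
    have hk : k ≤ t + m * n := by
      by_contra h
      exact w3 _ (by omega) (by omega) hv
    have := y7 _ hk (by omega) hv
    exact ⟨m, by omega, by omega⟩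
  · obtain ⟨p, a, b⟩ := t4
    exact ⟨p, a, z5.symm.trans b⟩
  · intro t ht
    have ht' := z5.trans ht
    obtain ⟨m, hm1, hm2⟩ := D.rep (i + 1) t
    have hv : Co (du B (ω ∪ P)) (f l) (f (t + m * n)) := by rw [D.fper']; exact ht'
    have hk : j < t + m * n := by
      by_contra h
      exact w4 _ (by omega) (by omega) hv
    have := z7 _ (by omega) (by omega) hv
    exact ⟨m, by omega, by omega⟩

end Disc

/-! ### Arcs -/

/-- disjoint arcs `[lo k, hi k]`, in order, unbounded in both directions -/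
structure Arcs (lo hi : ℤ → ℤ) : Prop where
  le : ∀ k, lo k ≤ hi k
  lt : ∀ k, hi k < lo (k + 1)

namespace Arcs

variable {lo hi : ℤ → ℤ}

lemma step (A : Arcs lo hi) (k : ℤ) : lo k < lo (k + 1) := (A.le k).trans_lt (A.lt k)

lemma add_nat (A : Arcs lo hi) (k : ℤ) (m : ℕ) : lo k + m ≤ lo (k + m) := by
  induction m with
  | zero => simp
  | succ m ih =>
    have := A.step (k + m)
    push_cast
    rw [show k + ((m : ℤ) + 1) = k + m + 1 by ring]
    omega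

/-- the last arc starting at or before `a` -/
lemma exists_last (A : Arcs lo hi) (a : ℤ) : ∃ k, lo k ≤ a ∧ a < lo (k + 1) := by
  -- a lower index
  obtain ⟨k0, hk0⟩ : ∃ k0, lo k0 ≤ a := by
    rcases le_or_gt (lo 0) a with h | h
    · exact ⟨0, h⟩
    · refine ⟨-((lo 0 - a).toNat : ℤ), ?_⟩
      have := A.add_nat (-((lo 0 - a).toNat : ℤ)) (lo 0 - a).toNat
      rw [show -((lo 0 - a).toNat : ℤ) + ((lo 0 - a).toNat : ℤ) = 0 by ring,
        Int.toNat_of_nonneg (by omega)] at this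
      rw [Int.toNat_of_nonneg (by omega)]
      omega
  by_contra hcon
  push Not at hcon
  have key : ∀ m : ℕ, lo (k0 + m) ≤ a := by
    intro m
    induction m with
    | zero => simpa using hk0
    | succ m ih =>
      have := hcon _ ih
      push_cast
      rwa [← add_assoc]
  have h1 := key ((a - lo k0).toNat + 1)
  have h2 := A.add_nat k0 ((a - lo k0).toNat + 1)
  push_cast at h1 h2
  rw [Int.toNat_of_nonneg (by omega)] at h1 h2
  omega

/-- between `a` and `a'` there is a whole arc, or both lie in the union of two neighbouring arcs and the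
gap between them -/
lemma gap (A : Arcs lo hi) (a a' : ℤ) :
    (∃ k, a < lo k ∧ hi k < a') ∨ (∃ k, lo k ≤ a ∧ a' ≤ hi (k + 1)) := by
  obtain ⟨k, h1, h2⟩ := A.exists_last a
  rcases lt_or_ge (hi (k + 1)) a' with h | h
  · exact Or.inl ⟨k + 1, h2, h⟩
  · exact Or.inr ⟨k, h1, h⟩

end Arcs

/-! ### Pivotality for marks -/

/-- `P` is solid: its vertices are joined by open `P`, its faces by closed `P`. -/
structure Solid (P : Finset (ℤ × ℤ)) : Prop where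
  op : ∀ p p', Tc P p → Tc P p' → Co P p p'
  du : ∀ p p', Tc (P.map sh1) p → Tc (P.map sh1) p' → Co (P.map sh1) p p'

/-- `P` is pivotal for the connection of the boundary arcs `(z3 - 2n, z0)` and `(z1, z2)`: they are
connected in `ω ∪ P`, and not even the closed arcs are connected in `ω \ P`. -/
def PivZ (ω P : Finset (ℤ × ℤ)) (n : ℤ) (v : ℤ → ℤ × ℤ) (z0 z1 z2 z3 : ℤ) : Prop :=
  (∃ s t : ℤ, z3 - 2 * n < 2 * s ∧ 2 * s < z0 ∧ z1 < 2 * t ∧ 2 * t < z2 ∧ Co (ω ∪ P) (v s) (v t)) ∧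
  ∀ s t : ℤ, z3 - 2 * n ≤ 2 * s → 2 * s ≤ z0 → z1 ≤ 2 * t → 2 * t ≤ z2 → ¬ Co (ω \ P) (v s) (v t)

namespace Disc

variable {B κ κ' P ω : Finset (ℤ × ℤ)} {n : ℤ} {v f : ℤ → ℤ × ℤ} {i j k l : ℤ}

/-- marks between the four landing points -/
theorem piv_of_pts (D : Disc B n v f) (hP : P ⊆ B) (hω : ω ⊆ B) (hs : Solid P)
    {s0 s1 s2 s3 : ℤ} {p0 p1 p2 p3 : ℤ × ℤ} (hp0 : Tc P p0) (c0 : Co (ω \ P) (v s0) p0)
    (hp1 : Tc (P.map sh1) p1) (c1 : Co (du B (ω ∪ P)) (f s1) p1)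
    (hp2 : Tc P p2) (c2 : Co (ω \ P) (v s2) p2)
    (hp3 : Tc (P.map sh1) p3) (c3 : Co (du B (ω ∪ P)) (f s3) p3) {z0 z1 z2 z3 : ℤ}
    (h0 : 2 * s0 < z0) (h0' : z0 < 2 * s1 - 1) (h1 : 2 * s1 - 1 < z1) (h1' : z1 < 2 * s2)
    (h2 : 2 * s2 < z2) (h2' : z2 < 2 * s3 - 1) (h3 : 2 * s3 - 1 < z3) (h3' : z3 < 2 * s0 + 2 * n) :
    PivZ ω P n v z0 z1 z2 z3 := by
  have hsub : ω \ P ⊆ ω ∪ P := sdiff_subset.trans subset_union_left
  refine ⟨⟨s0, s2, by omega, by omega, by omega, by omega, ?_⟩, ?_⟩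
  · exact (c0.mono hsub).trans (((hs.op _ _ hp0 hp2).mono subset_union_right).trans
      (c2.mono hsub).symm)
  · intro s t x1 x2 x3 x4 hco
    have hd : Co (du B (ω \ P)) (f s1) (f s3) := by
      rw [du_sdiff hP]
      exact (c1.mono subset_union_left).trans (((hs.du _ _ hp1 hp3).mono subset_union_right).trans
        (c3.mono subset_union_left).symm)
    exact D.ed (i := s) (j := t) (sdiff_subset.trans hω) hco hd (by omega) (by omega) (by omega)
      (by omega)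

/-- marks between the four clusters -/
theorem piv_of_gaps (D : Disc B n v f) (hP : P ⊆ B) (hω : ω ⊆ B) (hs : Solid P)
    {a0 b0 a1 b1 a2 b2 a3 b3 : ℤ} (A0 : AO (ω \ P) P n v a0 b0) (A1 : AD (du B (ω ∪ P)) P n f a1 b1)
    (A2 : AO (ω \ P) P n v a2 b2) (A3 : AD (du B (ω ∪ P)) P n f a3 b3) {z0 z1 z2 z3 : ℤ}
    (h0 : a0 < z0) (h0' : z0 < a1) (h1 : a1 < z1) (h1' : z1 < a2) (h2 : a2 < z2) (h2' : z2 < a3)
    (h3 : a3 < z3) (h3' : z3 < a0 + 2 * n) : PivZ ω P n v z0 z1 z2 z3 := by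
  obtain ⟨s0, e0, ⟨p0, hp0, c0⟩, -⟩ := A0
  obtain ⟨s1, e1, ⟨p1, hp1, c1⟩, -⟩ := A1
  obtain ⟨s2, e2, ⟨p2, hp2, c2⟩, -⟩ := A2
  obtain ⟨s3, e3, ⟨p3, hp3, c3⟩, -⟩ := A3
  exact D.piv_of_pts hP hω hs hp0 c0 hp1 c1 hp2 c2 hp3 c3 (by omega) (by omega) (by omega)
    (by omega) (by omega) (by omega) (by omega) (by omega)

/-- **Landing**, with the four clusters. Either every gap between the first contacts of the four
clusters contains a whole arc, or one of the four clusters meets the boundary only in the union of two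
neighbouring arcs and the gap between them. -/
theorem landing2 (D : Disc B n v f) (hP : P ⊆ B) (hω : ω ⊆ B) {lo hi : ℤ → ℤ}
    (A : Arcs lo hi) {x y : ℤ} (h1 : Co (ω ∪ P) (v x) (v y)) (h2 : ¬ Co (ω \ P) (v x) (v y)) :
    (∃ a0 b0 a1 b1 a2 b2 a3 b3 k0 k1 k2 k3 : ℤ, (a0 < lo k0 ∧ hi k0 < a1) ∧
      (a1 < lo k1 ∧ hi k1 < a2) ∧ (a2 < lo k2 ∧ hi k2 < a3) ∧ (a3 < lo k3 ∧ hi k3 < a0 + 2 * n) ∧
      AO (ω \ P) P n v a0 b0 ∧ AD (du B (ω ∪ P)) P n f a1 b1 ∧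
      AO (ω \ P) P n v a2 b2 ∧ AD (du B (ω ∪ P)) P n f a3 b3) ∨
    (∃ k a b : ℤ, lo k ≤ a ∧ a ≤ b ∧ b < hi (k + 1) ∧
      (AO (ω \ P) P n v a b ∨ AD (du B (ω ∪ P)) P n f a b)) := by
  obtain ⟨a0, b0, a1, b1, a2, b2, a3, b3, ⟨r0, r0'⟩, ⟨r1, r1'⟩, ⟨r2, r2'⟩, ⟨r3, r3'⟩, A0, A1, A2,
    A3⟩ := D.four hP hω h1 h2
  rcases A.gap a0 a1 with ⟨k0, g0, g0'⟩ | ⟨k0, g0, g0'⟩
  swap
  · exact Or.inr ⟨k0, a0, b0, g0, r0, by omega, Or.inl A0⟩
  rcases A.gap a1 a2 with ⟨k1, g1, g1'⟩ | ⟨k1, g1, g1'⟩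
  swap
  · exact Or.inr ⟨k1, a1, b1, g1, r1, by omega, Or.inr A1⟩
  rcases A.gap a2 a3 with ⟨k2, g2, g2'⟩ | ⟨k2, g2, g2'⟩
  swap
  · exact Or.inr ⟨k2, a2, b2, g2, r2, by omega, Or.inl A2⟩
  rcases A.gap a3 (a0 + 2 * n) with ⟨k3, g3, g3'⟩ | ⟨k3, g3, g3'⟩
  swap
  · exact Or.inr ⟨k3, a3, b3, g3, r3, by omega, Or.inr A3⟩
  exact Or.inl ⟨a0, b0, a1, b1, a2, b2, a3, b3, k0, k1, k2, k3, ⟨g0, g0'⟩, ⟨g1, g1'⟩, ⟨g2, g2'⟩,
    ⟨g3, g3'⟩, A0, A1, A2, A3⟩

/-- **Landing.** Either `P` is pivotal for all marks in four arcs, or one of the four clusters meets the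
boundary only in the union of two neighbouring arcs and the gap between them. -/
theorem landing (D : Disc B n v f) (hP : P ⊆ B) (hω : ω ⊆ B) (hs : Solid P) {lo hi : ℤ → ℤ}
    (A : Arcs lo hi) {x y : ℤ} (h1 : Co (ω ∪ P) (v x) (v y)) (h2 : ¬ Co (ω \ P) (v x) (v y)) :
    (∃ k0 k1 k2 k3 : ℤ, hi k0 < lo k1 ∧ hi k1 < lo k2 ∧ hi k2 < lo k3 ∧ hi k3 < lo k0 + 2 * n ∧
      ∀ z0 z1 z2 z3, lo k0 ≤ z0 → z0 ≤ hi k0 → lo k1 ≤ z1 → z1 ≤ hi k1 → lo k2 ≤ z2 → z2 ≤ hi k2 →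
        lo k3 ≤ z3 → z3 ≤ hi k3 → PivZ ω P n v z0 z1 z2 z3) ∨
    (∃ k a b : ℤ, lo k ≤ a ∧ a ≤ b ∧ b < hi (k + 1) ∧
      (AO (ω \ P) P n v a b ∨ AD (du B (ω ∪ P)) P n f a b)) := by
  rcases D.landing2 hP hω A h1 h2 with ⟨a0, b0, a1, b1, a2, b2, a3, b3, k0, k1, k2, k3, ⟨g0, g0'⟩,
    ⟨g1, g1'⟩, ⟨g2, g2'⟩, ⟨g3, g3'⟩, A0, A1, A2, A3⟩ | h
  · refine Or.inl ⟨k0, k1, k2, k3, by omega, by omega, by omega, by omega, ?_⟩
    intro z0 z1 z2 z3 y1 y2 y3 y4 y5 y6 y7 y8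
    exact D.piv_of_gaps hP hω hs A0 A1 A2 A3 (by omega) (by omega) (by omega) (by omega) (by omega)
      (by omega) (by omega) (by omega)
  · exact Or.inr h

end Disc

end Pool.Agent.H41.W
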