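import Mathlib
import Pool.Agent.H41.W.Four

set_option autoImplicit false
open Finset

/-!
# Localisation of pivotality

`A4 B P ω` : opening / closing the block `P` changes the partition of the non-interior vertices of `B`
into open clusters of `ω ∩ B`. If `P` is pivotal for a connection of an arbitrary environment then `A4 B P`
holds for every `B ⊇ P` (which does not contain the two ends in its interior). No topology.
-/

namespace Pool.Agent.H41.W

open Pool.Agent.H75.Perc Pool.Agent.H75.TwoArm Pool.Agent.H75.Four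

/-- replacing the configuration inside `B` by one with a coarser boundary partition -/
theorem loc_aux {B κ₁ κ₂ η : Finset (ℤ × ℤ)} (hη : Disjoint η B)
    (hB : ∀ x y, Ni B x → Ni B y → Co κ₁ x y → Co κ₂ x y) {u w : ℤ × ℤ} (hu : Ni B u)
    (h : Co (κ₁ ∪ η) u w) : ∃ z, Ni B z ∧ Co (κ₂ ∪ η) u z ∧ Co κ₁ z w := by
  induction h with
  | refl => exact ⟨u, hu, Co.refl _ _, Co.refl _ _⟩
  | @tail b c _ hbc ih =>
    obtain ⟨z, hz, h1, h2⟩ := ih
    rcases mem_union.1 hbc.2 with h3 | h3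
    · exact ⟨z, hz, h1, h2.tail ⟨hbc.1, h3⟩⟩
    · have h4 : b + c ∉ B := fun h => (disjoint_left.1 hη h3) h
      have hb : Ni B b := ⟨c, hbc.1, h4⟩
      have hc : Ni B c := by
        refine ⟨b, ?_, by rw [add_comm]; exact h4⟩
        have := isUnit4_neg hbc.1
        rwa [neg_sub] at this
      refine ⟨c, hc, ?_, Co.refl _ _⟩
      exact (h1.trans ((hB z b hz hb h2).mono subset_union_left)).tail
        ⟨hbc.1, mem_union_right _ h3⟩

theorem loc {B κ₁ κ₂ η : Finset (ℤ × ℤ)} (hη : Disjoint η B)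
    (hB : ∀ x y, Ni B x → Ni B y → Co κ₁ x y → Co κ₂ x y) {u w : ℤ × ℤ} (hu : Ni B u) (hw : Ni B w)
    (h : Co (κ₁ ∪ η) u w) : Co (κ₂ ∪ η) u w := by
  obtain ⟨z, hz, h1, h2⟩ := loc_aux hη hB hu h
  exact h1.trans ((hB z w hz hw h2).mono subset_union_left)

/-- `P` changes the boundary partition of `B`. -/
def A4 (B P ω : Finset (ℤ × ℤ)) : Prop :=
  ∃ x y, Ni B x ∧ Ni B y ∧ Co (ω ∩ B ∪ P) x y ∧ ¬ Co ((ω ∩ B) \ P) x y

lemma A4_congr {B P ω ω' : Finset (ℤ × ℤ)} (h : ω ∩ B = ω' ∩ B) : A4 B P ω ↔ A4 B P ω' := by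
  unfold A4
  rw [h]

lemma A4_inter {B P ω : Finset (ℤ × ℤ)} : A4 B P (ω ∩ B) ↔ A4 B P ω :=
  A4_congr (by rw [inter_assoc, inter_self])

/-- **localisation of pivotality**, arbitrary fixed open labels `W` outside `B` -/
theorem A4_of_piv {B P ω W : Finset (ℤ × ℤ)} (hP : P ⊆ B) (hW : Disjoint W B) {u w : ℤ × ℤ}
    (hu : Ni B u) (hw : Ni B w) (h1 : Co ((ω ∪ P) ∪ W) u w) (h2 : ¬ Co ((ω \ P) ∪ W) u w) :
    A4 B P ω := by
  by_contra hcon
  apply h2
  have hB : ∀ x y, Ni B x → Ni B y → Co (ω ∩ B ∪ P) x y → Co ((ω ∩ B) \ P) x y := by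
    intro x y hx hy h
    by_contra h3
    exact hcon ⟨x, y, hx, hy, h, h3⟩
  have hη : Disjoint (ω \ B ∪ W) B := by
    rw [disjoint_union_left]
    exact ⟨sdiff_disjoint, hW⟩
  have e1 : (ω ∪ P) ∪ W = (ω ∩ B ∪ P) ∪ (ω \ B ∪ W) := by
    ext l
    simp only [mem_union, mem_inter, mem_sdiff]
    by_cases h : l ∈ B
    · tauto
    · have : l ∉ P := fun h' => h (hP h')
      tauto
  have e2 : ((ω ∩ B) \ P) ∪ (ω \ B ∪ W) ⊆ (ω \ P) ∪ W := by
    intro l
    simp only [mem_union, mem_inter, mem_sdiff]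
    rintro (⟨⟨a, b⟩, c⟩ | ⟨a, b⟩ | a)
    · exact Or.inl ⟨a, c⟩
    · exact Or.inl ⟨a, fun h' => b (hP h')⟩
    · exact Or.inr a
  rw [e1] at h1
  exact (loc hη hB hu hw h1).mono e2

/-- `A4` is inherited by smaller sets `B' ⊇ P`. -/
theorem A4_mono {B B' P ω : Finset (ℤ × ℤ)} (hP : P ⊆ B') (hB : B' ⊆ B) (h : A4 B P ω) :
    A4 B' P ω := by
  obtain ⟨x, y, hx, hy, h1, h2⟩ := h
  have hN : ∀ z, Ni B z → Ni B' z := fun z ⟨q, a, b⟩ => ⟨q, a, fun h => b (hB h)⟩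
  have h3 : A4 B' P (ω ∩ B) := by
    refine A4_of_piv (W := ∅) hP (disjoint_empty_left _) (hN x hx) (hN y hy) ?_ ?_
    · rw [union_empty]; exact h1
    · rw [union_empty]; exact h2
  refine (A4_congr ?_).1 h3
  rw [inter_assoc, inter_eq_right.2 hB]

/-- a vertex of a nontrivial connection touches the labels -/
lemma tc_of_co {κ : Finset (ℤ × ℤ)} {x y : ℤ × ℤ} (h : Co κ x y) (hne : x ≠ y) : Tc κ y := by
  rcases Relation.ReflTransGen.cases_tail h with h1 | ⟨c, _, hc⟩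
  · exact absurd h1.symm hne
  · refine ⟨c, ?_, by rw [add_comm]; exact hc.2⟩
    have := isUnit4_neg hc.1
    rwa [neg_sub] at this

lemma Tc.mono {A A' : Finset (ℤ × ℤ)} {p : ℤ × ℤ} (h : A ⊆ A') (hp : Tc A p) : Tc A' p := by
  obtain ⟨q, a, b⟩ := hp
  exact ⟨q, a, h b⟩

/-- in a disc the two vertices are boundary vertices -/
theorem Disc.of_A4 {B P ω : Finset (ℤ × ℤ)} {n : ℤ} {v f : ℤ → ℤ × ℤ} (D : Disc B n v f)
    (hP : P ⊆ B) (h : A4 B P ω) :
    ∃ x y : ℤ, Co (ω ∩ B ∪ P) (v x) (v y) ∧ ¬ Co ((ω ∩ B) \ P) (v x) (v y) := by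
  obtain ⟨x, y, hx, hy, h1, h2⟩ := h
  have hne : x ≠ y := by
    rintro rfl
    exact h2 (Co.refl _ _)
  have hsub : ω ∩ B ∪ P ⊆ B := union_subset inter_subset_right hP
  obtain ⟨s, rfl⟩ := D.bd x ((tc_of_co h1.symm hne.symm).mono hsub) hx
  obtain ⟨t, rfl⟩ := D.bd y ((tc_of_co h1 hne).mono hsub) hy
  exact ⟨s, t, h1, h2⟩

end Pool.Agent.H41.W
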