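import Mathlib
import Pool.Agent.H72.W.MonoWalk
import Pool.Agent.H41.W.Four

set_option autoImplicit false
open Finset

/-!
# Thresholds on the clockwise walk of a region which widens to the right

`fc x` : position where the ceiling walk reaches the abscissa `x`; `ff x` : position where the floor
walk leaves the abscissa `x`. `Grid R N X` : abscissas `X (-N) = A < ... < X N = B`; `gg i` : the
thresholds, in the order of the walk, period `4 N`.
-/

namespace Pool.Agent.H41.W

open Pool.Agent.H75.Perc hiding dl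
open Pool.Agent.H75.TwoArm Pool.Agent.H75.Four Pool.Agent.H75.Four.PivAux
open Pool.Agent.H72.W

section thr

variable (R : MReg)

/-- the ceiling walk reaches the abscissa `x` -/
def fc (x : ℤ) : ℤ := x + R.hi (x - 1)

/-- the floor walk leaves the abscissa `x` -/
def ff (x : ℤ) : ℤ := R.lo (x - 1) - x - R.fl

variable {R}

lemma cw_ceil {p : ℤ} (h0 : R.s0 ≤ p) (h1 : p ≤ R.s1) : R.cw p = (R.U p, p - R.U p) := by
  have := R.s12
  have := R.s23
  rw [R.cw_eq h0 (by omega), R.c0_1 h1]

lemma cw_wall {p : ℤ} (h1 : R.s1 ≤ p) (h2 : p ≤ R.s2) :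
    R.cw p = (R.B, R.hi (R.B - 1) - (p - R.s1)) := by
  have := R.s01
  have := R.s23
  rw [R.cw_eq (by omega) (by omega), R.c0_2 h1 h2]

lemma cw_floor {p : ℤ} (h1 : R.s2 ≤ p) (h2 : p ≤ R.s0 + 2 * R.n) :
    R.cw p = (R.V (p + R.fl), p + R.fl + R.V (p + R.fl)) := by
  have := R.s01
  have := R.s12
  rw [R.cw_eq (by omega) (by omega), R.c0_3 h1]

/-- ceiling, lower bound for the abscissa -/
lemma le_ceil {p x : ℤ} (h0 : R.s0 ≤ p) (h1 : p ≤ R.s1) (hx : R.A < x) (hx' : x ≤ R.B)
    (h : fc R x ≤ p) : x ≤ (R.cw p).1 := by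
  rw [cw_ceil h0 h1]
  obtain ⟨k1, k2, k3⟩ := R.U_spec p
  unfold fc at h
  have := (k3 (x - 1) (by omega) (by omega)).1 (by omega)
  show x ≤ R.U p
  omega

/-- ceiling, upper bound for the abscissa -/
lemma ceil_le {p x : ℤ} (h0 : R.s0 ≤ p) (h1 : p ≤ R.s1) (hx : R.A < x)
    (h : p ≤ fc R x) : (R.cw p).1 ≤ x := by
  rw [cw_ceil h0 h1]
  obtain ⟨k1, k2, k3⟩ := R.U_spec p
  unfold fc at h
  show R.U p ≤ x
  by_contra hcon
  have h2 := (k3 x (by omega) (by omega)).2 (by omega)
  have h3 := R.hi_mono (x := x - 1) (y := x) (by omega) (by omega) (by omega)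
  omega

/-- floor, upper bound for the abscissa -/
lemma floor_le {p x : ℤ} (h1 : R.s2 ≤ p) (h2 : p ≤ R.s0 + 2 * R.n) (hx : R.A < x)
    (h : ff R x ≤ p) : (R.cw p).1 ≤ x := by
  rw [cw_floor h1 h2]
  obtain ⟨k1, k2, k3⟩ := R.V_spec (p + R.fl)
  unfold ff at h
  show R.V (p + R.fl) ≤ x
  by_contra hcon
  have h3 := R.lo_mono (x := x - 1) (y := x) (by omega) (by omega) (by omega)
  have h4 := (k3 x (by omega) (by omega)).1 (by omega)
  omega

/-- floor, lower bound for the abscissa -/
lemma le_floor {p x : ℤ} (h1 : R.s2 ≤ p) (h2 : p ≤ R.s0 + 2 * R.n) (hx : R.A < x) (hx' : x ≤ R.B)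
    (h : p ≤ ff R x) : x ≤ (R.cw p).1 := by
  rw [cw_floor h1 h2]
  obtain ⟨k1, k2, k3⟩ := R.V_spec (p + R.fl)
  unfold ff at h
  show x ≤ R.V (p + R.fl)
  by_contra hcon
  have h4 := (k3 (x - 1) (by omega) (by omega)).2 (by omega)
  omega

/-- height on the ceiling -/
lemma ceil_height {p : ℤ} (h0 : R.s0 ≤ p) (h1 : p ≤ R.s1) (hx : R.A < (R.cw p).1) :
    R.hi R.A ≤ (R.cw p).2 := by
  rcases lt_or_eq_of_le h1 with h1 | h1
  · rw [cw_ceil h0 h1.le] at hx ⊢
    simp only at hx ⊢
    obtain ⟨k1, k2, k3, k4, k5⟩ := R.part1 h0 h1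
    have := k5 hx
    have := R.hi_mono (x := R.A) (y := R.U p - 1) le_rfl (by omega) (by omega)
    omega
  · rw [cw_ceil h0 h1.le, h1, R.U_s1]
    have := R.basic
    simp only
    unfold MReg.s1
    omega

/-- height on the floor -/
lemma floor_height {p : ℤ} (h1 : R.s2 ≤ p) (h2 : p < R.s0 + 2 * R.n) :
    (R.cw p).2 ≤ R.lo R.A := by
  rw [cw_floor h1 h2.le]
  obtain ⟨k1, k2, k3, k4, k5⟩ := R.part3 h1 h2
  simp only
  have := R.lo_mono (x := R.A) (y := R.V (p + R.fl) - 1) le_rfl (by omega) (by omega)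
  omega

/-- a grid of abscissas -/
structure Grid (R : MReg) (N : ℤ) (X : ℤ → ℤ) : Prop where
  pos : 0 < N
  X0 : X (-N) = R.A
  X1 : X N = R.B
  step : ∀ i, -N ≤ i → i < N → X i + 2 ≤ X (i + 1)

namespace Grid

variable {N : ℤ} {X : ℤ → ℤ}

lemma lt_add (G : Grid R N X) {i : ℤ} (hi : -N ≤ i) (k : ℕ) (hk : i + k ≤ N) :
    X i + 2 * k ≤ X (i + k) := by
  induction k with
  | zero => simp
  | succ k ih =>
    push_cast at hk ⊢
    have h1 := ih (by omega)
    have h2 := G.step (i + k) (by omega) (by omega)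
    rw [← add_assoc]
    omega

lemma lt_of_lt (G : Grid R N X) {i j : ℤ} (hi : -N ≤ i) (hj : j ≤ N) (h : i ≤ j) :
    X i + 2 * (j - i) ≤ X j := by
  have h1 := G.lt_add hi (j - i).toNat (by rw [Int.toNat_of_nonneg (by omega)]; omega)
  rw [Int.toNat_of_nonneg (by omega), show i + (j - i) = j by ring] at h1
  exact h1

lemma A_lt (G : Grid R N X) {i : ℤ} (hi : -N < i) (hi' : i ≤ N) : R.A + 2 ≤ X i := by
  have := G.lt_of_lt (i := -N) (j := i) le_rfl hi' hi.le
  rw [G.X0] at this
  omega

lemma lt_B (G : Grid R N X) {i : ℤ} (hi : -N ≤ i) (hi' : i < N) : X i + 2 ≤ R.B := by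
  have := G.lt_of_lt (i := i) (j := N) hi le_rfl hi'.le
  rw [G.X1] at this
  omega

lemma le_B (G : Grid R N X) {i : ℤ} (hi : -N ≤ i) (hi' : i ≤ N) : X i ≤ R.B := by
  have := G.lt_of_lt (i := i) (j := N) hi le_rfl hi'
  rw [G.X1] at this
  omega

end Grid

variable (R)

/-- thresholds in a period -/
def g0 (N : ℤ) (X : ℤ → ℤ) (i : ℤ) : ℤ :=
  if i = 0 then R.s0 else if i < 2 * N then fc R (X (i - N)) else ff R (X (3 * N - i))

/-- **thresholds** -/
def gg (N : ℤ) (X : ℤ → ℤ) (i : ℤ) : ℤ :=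
  g0 R N X (i % (4 * N)) + i / (4 * N) * (2 * R.n)

variable {R} {N : ℤ} {X : ℤ → ℤ}

lemma g0_step (G : Grid R N X) {i : ℤ} (h0 : 0 ≤ i) (h1 : i + 1 < 4 * N) :
    g0 R N X i + 2 ≤ g0 R N X (i + 1) := by
  have hp := G.pos
  have hb := R.basic
  unfold g0
  rw [if_neg (show ¬ i + 1 = 0 by omega)]
  by_cases e0 : i = 0
  · subst e0
    rw [if_pos rfl, if_pos (by omega)]
    have h2 := G.A_lt (i := 0 + 1 - N) (by omega) (by omega)
    have h3 := G.le_B (i := 0 + 1 - N) (by omega) (by omega)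
    have h4 := R.hi_mono (x := R.A) (y := X (0 + 1 - N) - 1) le_rfl (by omega) (by omega)
    unfold fc MReg.s0
    omega
  · rw [if_neg e0]
    by_cases e1 : i + 1 < 2 * N
    · rw [if_pos (show i < 2 * N by omega), if_pos e1]
      have h2 := G.A_lt (i := i - N) (by omega) (by omega)
      have h3 := G.step (i - N) (by omega) (by omega)
      rw [show i - N + 1 = i + 1 - N by ring] at h3
      have h5 := G.le_B (i := i + 1 - N) (by omega) (by omega)
      have h4 := R.hi_mono (x := X (i - N) - 1) (y := X (i + 1 - N) - 1) (by omega) (by omega)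
        (by omega)
      unfold fc
      omega
    · rw [if_neg e1]
      by_cases e2 : i < 2 * N
      · rw [if_pos e2]
        have e3 : i = 2 * N - 1 := by omega
        subst e3
        rw [show 3 * N - (2 * N - 1 + 1) = N by ring, G.X1]
        have h2 := G.A_lt (i := 2 * N - 1 - N) (by omega) (by omega)
        have h3 := G.lt_B (i := 2 * N - 1 - N) (by omega) (by omega)
        have h4 := R.hi_mono (x := X (2 * N - 1 - N) - 1) (y := R.B - 1) (by omega) (by omega)
          (by omega)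
        unfold fc ff MReg.fl MReg.s2 MReg.s1
        omega
      · rw [if_neg e2]
        have h2 := G.A_lt (i := 3 * N - (i + 1)) (by omega) (by omega)
        have h3 := G.step (3 * N - (i + 1)) (by omega) (by omega)
        rw [show 3 * N - (i + 1) + 1 = 3 * N - i by ring] at h3
        have h5 := G.le_B (i := 3 * N - i) (by omega) (by omega)
        have h4 := R.lo_mono (x := X (3 * N - (i + 1)) - 1) (y := X (3 * N - i) - 1) (by omega)
          (by omega) (by omega)
        unfold ff
        omega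

lemma g0_last (G : Grid R N X) : g0 R N X (4 * N - 1) + 2 ≤ R.s0 + 2 * R.n := by
  have hp := G.pos
  have hb := R.basic
  unfold g0
  rw [if_neg (by omega), if_neg (by omega), show 3 * N - (4 * N - 1) = -N + 1 by ring]
  have h2 := G.A_lt (i := -N + 1) (by omega) (by omega)
  have h5 := G.le_B (i := -N + 1) (by omega) (by omega)
  have h4 := R.lo_mono (x := R.A) (y := X (-N + 1) - 1) le_rfl (by omega) (by omega)
  unfold ff MReg.fl MReg.s2 MReg.s1 MReg.s0 MReg.n
  omega

lemma gg_add (i m : ℤ) (hN : 0 < N) : gg R N X (i + m * (4 * N)) = gg R N X i + m * (2 * R.n) := by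
  unfold gg
  rw [Int.add_mul_emod_self_right, Int.add_mul_ediv_right _ _ (by omega)]
  ring

lemma gg_eq {i : ℤ} (h0 : 0 ≤ i) (h1 : i < 4 * N) : gg R N X i = g0 R N X i := by
  unfold gg
  rw [Int.emod_eq_of_lt h0 h1, Int.ediv_eq_zero_of_lt h0 h1]
  ring

lemma gg_top (hN : 0 < N) : gg R N X (4 * N) = R.s0 + 2 * R.n := by
  have := gg_add (R := R) (X := X) 0 1 hN
  rw [zero_add, one_mul, one_mul, gg_eq le_rfl (by omega)] at this
  rw [this]
  unfold g0
  rw [if_pos rfl]

/-- **consecutive thresholds** -/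
lemma gg_step (G : Grid R N X) (i : ℤ) : gg R N X i + 2 ≤ gg R N X (i + 1) := by
  have hp := G.pos
  have h1 := Int.emod_nonneg i (show 4 * N ≠ 0 by omega)
  have h2 := Int.emod_lt_of_pos i (show 0 < 4 * N by omega)
  have e := Int.emod_add_mul_ediv i (4 * N)
  have ei : i = i % (4 * N) + i / (4 * N) * (4 * N) := by linarith
  set r := i % (4 * N) with hr
  set q := i / (4 * N) with hq
  rw [ei, gg_add _ _ hp, show r + q * (4 * N) + 1 = r + 1 + q * (4 * N) by ring, gg_add _ _ hp]
  rcases lt_or_eq_of_le (show r + 1 ≤ 4 * N by omega) with h | h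
  · rw [gg_eq h1 h2, gg_eq (by omega) h]
    have := g0_step G h1 h
    omega
  · rw [h, gg_top hp, gg_eq h1 h2, show r = 4 * N - 1 by omega]
    have := g0_last G
    omega

/-- the arcs between every second pair of thresholds -/
theorem arcs (G : Grid R N X) :
    Arcs (fun k => gg R N X (2 * k) + 1) (fun k => gg R N X (2 * k + 1) - 1) where
  le := by
    intro k
    have := gg_step G (2 * k)
    show gg R N X (2 * k) + 1 ≤ gg R N X (2 * k + 1) - 1
    omega
  lt := by
    intro k
    have := gg_step G (2 * k + 1)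
    show gg R N X (2 * k + 1) - 1 < gg R N X (2 * (k + 1)) + 1
    rw [show 2 * (k + 1) = 2 * k + 1 + 1 by ring]
    omega

lemma gg_mono (G : Grid R N X) {i j : ℤ} (h : i ≤ j) : gg R N X i ≤ gg R N X j := by
  obtain ⟨m, rfl⟩ : ∃ m : ℕ, j = i + m := ⟨(j - i).toNat, by omega⟩
  clear h
  induction m with
  | zero => simp
  | succ m ih =>
    have := gg_step G (i + m)
    push_cast
    rw [← add_assoc]
    omega

lemma gg_lt (G : Grid R N X) {i j : ℤ} (h : gg R N X i < gg R N X j) : i < j := by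
  by_contra hcon
  have := gg_mono G (Int.not_lt.1 hcon)
  omega

/-- **abscissas between thresholds of the ceiling** -/
lemma ceil_between (G : Grid R N X) {i j p : ℤ} (h0 : 0 ≤ i) (hj0 : 0 < j) (hj : j ≤ 2 * N)
    (h1 : gg R N X i ≤ p) (h2 : p ≤ gg R N X j) (hp : p ≤ R.s1) :
    R.s0 ≤ p ∧ X (i - N) ≤ (R.cw p).1 ∧ (R.cw p).1 ≤ X (j - N) := by
  have hN := G.pos
  have hs0 : R.s0 ≤ p := by
    have := gg_mono G h0
    have e : gg R N X 0 = R.s0 := by
      rw [gg_eq le_rfl (by omega)]; unfold g0; rw [if_pos rfl]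
    omega
  have hij : i < j ∨ (j ≤ i ∧ p = gg R N X i) := by
    rcases lt_or_ge i j with h | h
    · exact Or.inl h
    · have := gg_mono G h
      exact Or.inr ⟨h, by omega⟩
  refine ⟨hs0, ?_, ?_⟩
  · rcases eq_or_lt_of_le h0 with e | e
    · subst e
      rw [show (0 : ℤ) - N = -N by ring, G.X0, cw_ceil hs0 hp]
      exact (R.U_spec p).1
    · rcases lt_or_ge i (2 * N) with h | h
      · refine le_ceil hs0 hp ?_ (G.le_B (by omega) (by omega)) ?_
        · have := G.A_lt (i := i - N) (by omega) (by omega)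
          omega
        · rw [gg_eq h0 (by omega)] at h1
          unfold g0 at h1
          rwa [if_neg (by omega), if_pos h] at h1
      · -- then `p ≥ s2`
        exfalso
        have h5 := gg_mono G h
        rw [gg_eq (i := 2 * N) (by omega) (by omega)] at h5
        unfold g0 at h5
        rw [if_neg (by omega), if_neg (by omega), show 3 * N - 2 * N = N by ring, G.X1] at h5
        have := R.s12
        unfold ff MReg.fl at h5
        omega
  · rcases eq_or_lt_of_le hj with e | e
    · subst e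
      rw [show 2 * N - N = N by ring, G.X1, cw_ceil hs0 hp]
      exact (R.U_spec p).2.1
    · refine ceil_le hs0 hp ?_ ?_
      · have := G.A_lt (i := j - N) (by omega) (by omega)
        omega
      · rw [gg_eq (by omega) (by omega)] at h2
        unfold g0 at h2
        rwa [if_neg (by omega), if_pos e] at h2

/-- **abscissas between thresholds of the floor** -/
lemma floor_between (G : Grid R N X) {i j p : ℤ} (h0 : 2 * N ≤ i) (hi : i < 4 * N) (hj : j ≤ 4 * N)
    (hij : i < j)
    (h1 : gg R N X i ≤ p) (h2 : p ≤ gg R N X j) :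
    (R.s2 ≤ p ∧ p ≤ R.s0 + 2 * R.n) ∧ X (3 * N - j) ≤ (R.cw p).1 ∧ (R.cw p).1 ≤ X (3 * N - i) := by
  have hN := G.pos
  have e2 : gg R N X (2 * N) = R.s2 := by
    rw [gg_eq (i := 2 * N) (by omega) (by omega)]
    unfold g0
    rw [if_neg (by omega), if_neg (by omega), show 3 * N - 2 * N = N by ring, G.X1]
    unfold ff MReg.fl
    ring
  have hs2 : R.s2 ≤ p := by
    have := gg_mono G h0
    omega
  have hs3 : p ≤ R.s0 + 2 * R.n := by
    have := gg_mono G hj
    rw [gg_top hN] at this
    omega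
  refine ⟨⟨hs2, hs3⟩, ?_, ?_⟩
  · rcases eq_or_lt_of_le hj with e | e
    · subst e
      rw [show 3 * N - 4 * N = -N by ring, G.X0, cw_floor hs2 hs3]
      exact (R.V_spec _).1
    · refine le_floor hs2 hs3 ?_ (G.le_B (by omega) (by omega)) ?_
      · have := G.A_lt (i := 3 * N - j) (by omega) (by omega)
        omega
      · rw [gg_eq (by omega) e] at h2
        unfold g0 at h2
        rwa [if_neg (by omega), if_neg (by omega)] at h2
  · refine floor_le hs2 hs3 ?_ ?_
    · have := G.A_lt (i := 3 * N - i) (by omega) (by omega)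
      omega
    · rw [gg_eq (by omega) hi] at h1
      unfold g0 at h1
      rwa [if_neg (by omega), if_neg (by omega)] at h1

end thr

end Pool.Agent.H41.W
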