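import Mathlib
import Pool.Agent.H41.W.Thr

set_option autoImplicit false
open Finset

/-!
# The walk of a part of a region

`R` = the part of `R'` between two vertical lines. `th` maps positions on the walk of `R` to positions
on the walk of `R'`: strictly increasing, compatible with the periods, and it keeps the points which are
not on the two vertical walls of `R`.
-/

namespace Pool.Agent.H41.W

open Pool.Agent.H75.Perc hiding dl
open Pool.Agent.H75.TwoArm Pool.Agent.H75.Four Pool.Agent.H75.Four.PivAux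
open Pool.Agent.H72.W

/-- `R` is the part of `R'` between two vertical lines -/
structure SubReg (R R' : MReg) : Prop where
  hA : R'.A ≤ R.A
  hB : R.B ≤ R'.B
  lo : ∀ x, R.A ≤ x → x < R.B → R.lo x = R'.lo x
  hi : ∀ x, R.A ≤ x → x < R.B → R.hi x = R'.hi x

/-- shift of the floor positions -/
def dF (R R' : MReg) : ℤ := R.fl - R'.fl

/-- positions in a period -/
def th0 (R R' : MReg) (u : ℤ) : ℤ := if u < R.s2 then u else u + dF R R'

/-- **the position map** -/
def th (R R' : MReg) (s : ℤ) : ℤ :=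
  th0 R R' (R.s0 + (s - R.s0) % (2 * R.n)) + (s - R.s0) / (2 * R.n) * (2 * R'.n)

variable {R R' : MReg}

lemma fl_eq (R : MReg) : R.fl = 2 * R.lo (R.B - 1) - 2 * R.B - 2 * R.hi (R.B - 1) := by
  unfold MReg.fl MReg.s2 MReg.s1
  ring

lemma SubReg.dF_bd (S : SubReg R R') : 0 ≤ dF R R' ∧ dF R R' ≤ 2 * R'.n - 2 * R.n ∧
    dF R R' % 2 = 0 := by
  have h1 := S.hA
  have h2 := S.hB
  have h3 := R.basic
  have h4 := S.lo (R.B - 1) (by omega) (by omega)
  have h5 := S.hi (R.B - 1) (by omega) (by omega)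
  have h6 := R'.lo_mono (x := R.B - 1) (y := R'.B - 1) (by omega) (by omega) (by omega)
  have h7 := R'.hi_mono (x := R.B - 1) (y := R'.B - 1) (by omega) (by omega) (by omega)
  unfold dF MReg.n
  rw [fl_eq, fl_eq]
  omega

lemma th_add (s m : ℤ) : th R R' (s + m * (2 * R.n)) = th R R' s + m * (2 * R'.n) := by
  have hn := R.n_pos
  unfold th
  rw [show s + m * (2 * R.n) - R.s0 = s - R.s0 + m * (2 * R.n) by ring,
    Int.add_mul_emod_self_right, Int.add_mul_ediv_right _ _ (by omega)]
  ring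

lemma th_eq {s : ℤ} (h0 : R.s0 ≤ s) (h1 : s < R.s0 + 2 * R.n) : th R R' s = th0 R R' s := by
  unfold th
  rw [Int.emod_eq_of_lt (by omega) (by omega), Int.ediv_eq_zero_of_lt (by omega) (by omega)]
  rw [show R.s0 + (s - R.s0) = s by ring]
  ring

/-- representative in the period -/
lemma rep0 (R : MReg) (s : ℤ) : ∃ u m : ℤ, R.s0 ≤ u ∧ u < R.s0 + 2 * R.n ∧
    s = u + m * (2 * R.n) := by
  have hn := R.n_pos
  have e := Int.emod_add_mul_ediv (s - R.s0) (2 * R.n)
  have h1 := Int.emod_nonneg (s - R.s0) (show (2 * R.n) ≠ 0 by omega)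
  have h2 := Int.emod_lt_of_pos (s - R.s0) (show 0 < 2 * R.n by omega)
  exact ⟨R.s0 + (s - R.s0) % (2 * R.n), (s - R.s0) / (2 * R.n), by omega, by omega, by linarith⟩

lemma SubReg.th_lt (S : SubReg R R') {s t : ℤ} (h : s < t) : th R R' s < th R R' t := by
  obtain ⟨d0, d1, -⟩ := S.dF_bd
  have hn := R.n_pos
  have hn' := R'.n_pos
  obtain ⟨u, m, a1, a2, rfl⟩ := rep0 R s
  obtain ⟨u', m', b1, b2, rfl⟩ := rep0 R t
  rw [th_add, th_add, th_eq a1 a2, th_eq b1 b2]
  have hm : m ≤ m' := by
    by_contra hcon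
    have : (m' + 1) * (2 * R.n) ≤ m * (2 * R.n) := mul_le_mul_of_nonneg_right (by omega) (by omega)
    linarith
  rcases eq_or_lt_of_le hm with e | e
  · subst e
    have : u < u' := by omega
    unfold th0
    split_ifs <;> omega
  · have h1 : (m + 1) * (2 * R'.n) ≤ m' * (2 * R'.n) :=
      mul_le_mul_of_nonneg_right (by omega) (by omega)
    have h2 : th0 R R' u < th0 R R' u' + 2 * R'.n := by
      unfold th0
      split_ifs <;> omega
    linarith

lemma SubReg.th_le (S : SubReg R R') {s t : ℤ} (h : s ≤ t) : th R R' s ≤ th R R' t := by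
  rcases eq_or_lt_of_le h with rfl | h
  · exact le_rfl
  · exact (S.th_lt h).le

lemma SubReg.th_par (S : SubReg R R') (s : ℤ) : th R R' s % 2 = s % 2 := by
  obtain ⟨d0, d1, d2⟩ := S.dF_bd
  obtain ⟨u, m, a1, a2, rfl⟩ := rep0 R s
  rw [th_add, th_eq a1 a2]
  have e1 : m * (2 * R'.n) = 2 * (m * R'.n) := by ring
  have e2 : m * (2 * R.n) = 2 * (m * R.n) := by ring
  rw [e1, e2]
  unfold th0
  split_ifs <;> omega

lemma cw_addm (R : MReg) (s m : ℤ) : R.cw (s + m * (2 * R.n)) = R.cw s := by
  unfold MReg.cw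
  rw [show s + m * (2 * R.n) - R.s0 = s - R.s0 + m * (2 * R.n) by ring,
    Int.add_mul_emod_self_right]

/-- **points off the vertical walls** -/
theorem SubReg.th_cw (S : SubReg R R') {s : ℤ} (h1 : R.A < (R.cw s).1) (h2 : (R.cw s).1 < R.B) :
    R'.cw (th R R' s) = R.cw s := by
  have hA := S.hA
  have hB := S.hB
  have hb := R.basic
  have hb' := R'.basic
  obtain ⟨u, m, a1, a2, rfl⟩ := rep0 R s
  rw [cw_addm] at h1 h2 ⊢
  rw [th_add, cw_addm, th_eq a1 a2]
  have h12 := R.s12
  unfold th0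
  rcases lt_or_ge R.s1 u with c1 | c1
  swap
  · -- ceiling
    rw [if_pos (by omega), cw_ceil a1 c1]
    rw [cw_ceil a1 c1] at h1 h2
    simp only at h1 h2
    have c2 : u < R.s1 := by
      rcases lt_or_eq_of_le c1 with h | h
      · exact h
      · rw [h, R.U_s1] at h2; omega
    obtain ⟨k1, k2, k3, k4, k5⟩ := R.part1 a1 c2
    have k6 := k5 h1
    have e1 := S.hi (R.U u) k1 k2
    have e2 := S.hi (R.U u - 1) (by omega) (by omega)
    have e3 := S.lo R.A le_rfl (by omega)
    have m1 := R'.hi_mono (x := R.U u) (y := R'.B - 1) (by omega) (by omega) (by omega)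
    have m2 := R'.lo_lt_hi' (x := R'.A) (y := R.U u - 1) le_rfl (by omega) (by omega) (by omega)
    have q : R'.U u = R.U u := R'.U_of (by omega) (by omega) (by omega) (fun _ => by omega)
    rw [cw_ceil (R := R') (by unfold MReg.s0; omega) (by unfold MReg.s1; omega), q]
  · rcases lt_or_ge u R.s2 with c2 | c2
    · rw [cw_wall c1.le c2.le] at h2
      simp only at h2
      omega
    · rw [if_neg (by omega), cw_floor c2 a2.le]
      rw [cw_floor c2 a2.le] at h1 h2
      simp only at h1 h2
      obtain ⟨k1, k2, k3, k4, k5⟩ := R.part3 c2 a2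
      have k6 := k4 h2
      have e1 := S.lo (R.V (u + R.fl)) (by omega) h2
      have e2 := S.lo (R.V (u + R.fl) - 1) (by omega) (by omega)
      have q : R'.V (u + R.fl) = R.V (u + R.fl) := by
        refine R'.V_of (by omega) (by omega) ?_ (fun _ => by omega)
        omega
      have e : u + dF R R' + R'.fl = u + R.fl := by unfold dF; ring
      have m1 := R'.lo_mono (x := R.V (u + R.fl)) (y := R'.B - 1) (by omega) (by omega) (by omega)
      have m2 := R'.lo_mono (x := R'.A) (y := R.V (u + R.fl) - 1) le_rfl (by omega) (by omega)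
      have f1 : R'.s2 ≤ u + dF R R' := by
        have : R'.s2 + R'.fl = R'.lo (R'.B - 1) - R'.B := by unfold MReg.fl; ring
        omega
      have f2 : u + dF R R' ≤ R'.s0 + 2 * R'.n := by
        have : R'.s0 + 2 * R'.n + R'.fl = R'.lo R'.A - R'.A := by
          unfold MReg.fl MReg.s2 MReg.s1 MReg.s0 MReg.n; ring
        omega
      rw [cw_floor f1 f2, e, q]

lemma th_ceil {p : ℤ} (h0 : R.s0 ≤ p) (h1 : p < R.s2) : th R R' p = p := by
  have := R.s23
  rw [th_eq h0 (by omega)]
  unfold th0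
  rw [if_pos h1]

lemma th_floor {p : ℤ} (h0 : R.s2 ≤ p) (h1 : p < R.s0 + 2 * R.n) : th R R' p = p + dF R R' := by
  have := R.s01
  have := R.s12
  rw [th_eq (by omega) h1]
  unfold th0
  rw [if_neg (by omega)]

end Pool.Agent.H41.W
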