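import Mathlib
import Pool.Agent.H41.W.Theta
import Pool.Agent.H41.W.Loc

set_option autoImplicit false
open Finset

/-!
# Landing in a region between two vertical lines

`R` = the part of `R'` between two vertical lines, `P` a solid block in `R`. If `P` changes the boundary
partition of `R` and no cluster touching `P` comes close to the vertical walls of `R`, then either `P`
is pivotal in `R'` for all marks in four arcs, or one of the clusters meets the boundary of `R` only in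
the union of three neighbouring intervals of the grid.
-/

namespace Pool.Agent.H41.W

open Pool.Agent.H75.Perc hiding dl
open Pool.Agent.H75.TwoArm Pool.Agent.H75.Four Pool.Agent.H75.Four.PivAux
open Pool.Agent.H72.W
open Pool.Agent.H33.Q1 (lt tt lt_odd tt_lt lt_tt lt_inj)

variable {R R' : MReg} {N : ℤ} {X : ℤ → ℤ}

/-- three intervals of the grid, ceiling -/
def WinC (R : MReg) (N : ℤ) (X : ℤ → ℤ) (r : ℤ) (u : ℤ × ℤ) : Prop :=
  X (2 * r - N) ≤ u.1 ∧ u.1 ≤ X (2 * r + 3 - N) ∧ R.hi R.A ≤ u.2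

/-- three intervals of the grid, floor -/
def WinF (R : MReg) (N : ℤ) (X : ℤ → ℤ) (r : ℤ) (u : ℤ × ℤ) : Prop :=
  X (3 * N - 2 * r - 3) ≤ u.1 ∧ u.1 ≤ X (3 * N - 2 * r) ∧ u.2 ≤ R.lo R.A

lemma gg_s2 (G : Grid R N X) : gg R N X (2 * N) = R.s2 := by
  have hN := G.pos
  rw [gg_eq (i := 2 * N) (by omega) (by omega)]
  unfold g0
  rw [if_neg (by omega), if_neg (by omega), show 3 * N - 2 * N = N by ring, G.X1]
  unfold ff MReg.fl
  ring

lemma gg_s0 (G : Grid R N X) : gg R N X 0 = R.s0 := by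
  have hN := G.pos
  rw [gg_eq le_rfl (by omega)]
  unfold g0
  rw [if_pos rfl]

lemma gg_le_s1 (G : Grid R N X) {i : ℤ} (h0 : 0 ≤ i) (h1 : i < 2 * N) : gg R N X i ≤ R.s1 := by
  have hN := G.pos
  have hb := R.basic
  have h01 := R.s01
  rw [gg_eq h0 (by omega)]
  unfold g0
  split_ifs with e
  · omega
  · have h2 := G.A_lt (i := i - N) (by omega) (by omega)
    have h3 := G.le_B (i := i - N) (by omega) (by omega)
    have h4 := R.hi_mono (x := X (i - N) - 1) (y := R.B - 1) (by omega) (by omega) (by omega)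
    unfold fc MReg.s1
    omega

/-- **positions in the union of two neighbouring arcs** -/
theorem win_of_pair (G : Grid R N X) (hN : 2 < N) {k a b : ℤ} (C : ℤ → Prop)
    (hC : ∀ p, C p → X (-N + 2) < (R.cw p).1 ∧ (R.cw p).1 < X (N - 2)) (ha : C a)
    (hlo : gg R N X (2 * k) + 1 ≤ a) (hb : b < gg R N X (2 * (k + 1) + 1) - 1) (hab : a ≤ b)
    (hall : ∀ p, C p → ∃ m : ℤ, a ≤ p + m * (2 * R.n) ∧ p + m * (2 * R.n) ≤ b) :
    ∃ r, (0 ≤ r ∧ r + 1 < N ∧ ∀ p, C p → WinC R N X r (R.cw p)) ∨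
      (N ≤ r ∧ r + 1 < 2 * N ∧ ∀ p, C p → WinF R N X r (R.cw p)) := by
  have h12 := R.s12
  have h23 := R.s23
  have h1 := Int.emod_nonneg k (show 2 * N ≠ 0 by omega)
  have h2 := Int.emod_lt_of_pos k (show 0 < 2 * N by omega)
  have e := Int.emod_add_mul_ediv k (2 * N)
  set r := k % (2 * N) with hr
  set q := k / (2 * N) with hq
  have ek : k = r + q * (2 * N) := by linarith
  have el : gg R N X (2 * k) = gg R N X (2 * r) + q * (2 * R.n) := by
    rw [ek, show 2 * (r + q * (2 * N)) = 2 * r + q * (4 * N) by ring, gg_add _ _ (by omega)]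
  have eh : gg R N X (2 * (k + 1) + 1) = gg R N X (2 * r + 3) + q * (2 * R.n) := by
    rw [ek, show 2 * (r + q * (2 * N) + 1) + 1 = 2 * r + 3 + q * (4 * N) by ring,
      gg_add _ _ (by omega)]
  rw [el] at hlo
  rw [eh] at hb
  set a' := a - q * (2 * R.n) with ha'
  have hca : R.cw a' = R.cw a := by
    rw [ha', show a - q * (2 * R.n) = a + (-q) * (2 * R.n) by ring, cw_addm]
  -- all positions, in the period
  have hall' : ∀ p, C p → ∃ p', R.cw p' = R.cw p ∧ gg R N X (2 * r) + 1 ≤ p' ∧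
      p' < gg R N X (2 * r + 3) - 1 := by
    intro p hp
    obtain ⟨m, hm1, hm2⟩ := hall p hp
    refine ⟨p + (m - q) * (2 * R.n), cw_addm _ _ _, ?_, ?_⟩ <;>
    · have : (m - q) * (2 * R.n) = m * (2 * R.n) - q * (2 * R.n) := by ring
      omega
  have hXA : R.A ≤ X (-N + 2) := by
    have := G.A_lt (i := -N + 2) (by omega) (by omega)
    omega
  obtain ⟨x1, x2⟩ := hC a ha
  rw [← hca] at x1 x2
  have hlo' : gg R N X (2 * r) + 1 ≤ a' := by omega
  have hhi' : a' < gg R N X (2 * r + 3) - 1 := by omega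
  rcases lt_or_ge (r + 1) N with c1 | c1
  · -- ceiling
    refine ⟨r, Or.inl ⟨h1, c1, fun p hp => ?_⟩⟩
    obtain ⟨p', e1, e2, e3⟩ := hall' p hp
    have e4 := gg_le_s1 G (i := 2 * r + 3) (by omega) (by omega)
    obtain ⟨f1, f2, f3⟩ := ceil_between G (i := 2 * r) (j := 2 * r + 3) (p := p') (by omega)
      (by omega) (by omega) (by omega) (by omega) (by omega)
    have hx := (hC p hp).1
    rw [← e1] at hx ⊢
    exact ⟨f2, f3, ceil_height f1 (by omega) (by omega)⟩
  rcases lt_or_ge r N with c2 | c2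
  · -- around the right wall
    exfalso
    have er : r = N - 1 := by omega
    rw [er] at hlo' hhi'
    have m1 := G.lt_of_lt (i := N - 2) (j := N - 1) (by omega) (by omega) (by omega)
    rcases le_or_gt a' R.s1 with c3 | c3
    · obtain ⟨f1, f2, f3⟩ := ceil_between G (i := 2 * (N - 1)) (j := 2 * N) (p := a') (by omega)
        (by omega) (by omega) (by omega) (by rw [gg_s2 G]; omega) c3
      rw [show 2 * (N - 1) - N = N - 2 by ring] at f2
      omega
    · rcases le_or_gt R.s2 a' with c4 | c4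
      · have := gg_s2 G
        obtain ⟨f1, f2, f3⟩ := floor_between G (i := 2 * N) (j := 2 * N + 1) (p := a') le_rfl
          (by omega) (by omega) (by omega) (by omega) (by
            rw [show 2 * (N - 1) + 3 = 2 * N + 1 by ring] at hhi'
            omega)
        rw [show 3 * N - (2 * N + 1) = N - 1 by ring] at f2
        omega
      · rw [cw_wall (by omega) c4.le] at x2
        simp only at x2
        have := G.le_B (i := N - 2) (by omega) (by omega)
        omega
  rcases lt_or_ge (r + 1) (2 * N) with c3 | c3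
  · -- floor
    refine ⟨r, Or.inr ⟨c2, c3, fun p hp => ?_⟩⟩
    obtain ⟨p', e1, e2, e3⟩ := hall' p hp
    obtain ⟨⟨f0, f1⟩, f2, f3⟩ := floor_between G (i := 2 * r) (j := 2 * r + 3) (p := p') (by omega)
      (by omega) (by omega) (by omega) (by omega) (by omega)
    have f4 := gg_mono G (show 2 * r + 3 ≤ 4 * N by omega)
    rw [gg_top (by omega)] at f4
    rw [← e1]
    refine ⟨?_, f3, floor_height f0 (by omega)⟩
    rw [show 3 * N - 2 * r - 3 = 3 * N - (2 * r + 3) by ring]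
    exact f2
  · -- around the left wall
    exfalso
    have er : r = 2 * N - 1 := by omega
    rw [er] at hlo' hhi'
    have e5 : gg R N X (2 * (2 * N - 1) + 3) = gg R N X 1 + 1 * (2 * R.n) := by
      rw [show 2 * (2 * N - 1) + 3 = 1 + 1 * (4 * N) by ring, gg_add _ _ (by omega)]
    rw [e5] at hhi'
    have m1 := G.lt_of_lt (i := -N + 1) (j := -N + 2) (by omega) (by omega) (by omega)
    rcases le_or_gt a' (R.s0 + 2 * R.n) with c4 | c4
    · obtain ⟨f1, f2, f3⟩ := floor_between G (i := 2 * (2 * N - 1)) (j := 4 * N) (p := a')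
        (by omega) (by omega) (by omega) (by omega) (by omega) (by rw [gg_top (by omega)]; exact c4)
      rw [show 3 * N - 2 * (2 * N - 1) = -N + 2 by ring] at f3
      omega
    · have e6 := gg_s0 G
      have e7 := gg_le_s1 G (i := 1) (by omega) (by omega)
      have e8 : R.cw (a' - 2 * R.n) = R.cw a' := by
        rw [show a' - 2 * R.n = a' + (-1) * (2 * R.n) by ring, cw_addm]
      obtain ⟨f1, f2, f3⟩ := ceil_between G (i := 0) (j := 1) (p := a' - 2 * R.n) le_rfl
        (by omega) (by omega) (by omega) (by omega) (by omega)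
      rw [e8, show 1 - N = -N + 1 by ring] at f3
      omega

/-- the boundary vertices of the walk -/
noncomputable def bv (R : MReg) (s : ℤ) : ℤ × ℤ := gv (R.cw (2 * s))

/-- the boundary faces of the walk -/
noncomputable def bf (R : MReg) (s : ℤ) : ℤ × ℤ := gf (R.cw (2 * s - 1))

/-- a bad cluster: it touches `P`, meets the boundary, and only in `W` -/
def BadCl (R : MReg) (P ω : Finset (ℤ × ℤ)) (W : ℤ × ℤ → Prop) : Prop :=
  (∃ p s, Tc P p ∧ Co (ω \ P) (bv R s) p ∧ ∀ t, Co (ω \ P) (bv R t) p → W (R.cw (2 * t))) ∨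
  (∃ p s, Tc (P.map sh1) p ∧ Co (du (R.T.image lt) (ω ∪ P)) (bf R s) p ∧
    ∀ t, Co (du (R.T.image lt) (ω ∪ P)) (bf R t) p → W (R.cw (2 * t - 1)))

lemma du_anti {E E' ω ω' : Finset (ℤ × ℤ)} (h : ∀ l ∈ E, l ∉ ω → l ∈ E' ∧ l ∉ ω') :
    du E ω ⊆ du E' ω' := by
  unfold du
  intro l hl
  rw [mem_map] at hl ⊢
  obtain ⟨e, he, rfl⟩ := hl
  rw [mem_sdiff] at he
  exact ⟨e, mem_sdiff.2 (h e he.1 he.2), rfl⟩

/-- **Landing in a region.** -/
theorem landing_reg (S : SubReg R R') (G : Grid R N X) (hN : 2 < N)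
    (he : (R.A + R.lo R.A) % 2 = 0) (he' : (R'.A + R'.lo R'.A) % 2 = 0)
    {P ω : Finset (ℤ × ℤ)} (hP : P ⊆ R.T.image lt) (hE : R.T.image lt ⊆ R'.T.image lt)
    (hs : Solid P) (hω : ω ⊆ R.T.image lt) (hA : A4 (R.T.image lt) P ω)
    (hO : ∀ s p, Tc P p → Co (ω \ P) (bv R s) p →
      X (-N + 2) < (R.cw (2 * s)).1 ∧ (R.cw (2 * s)).1 < X (N - 2))
    (hD : ∀ s p, Tc (P.map sh1) p → Co (du (R.T.image lt) (ω ∪ P)) (bf R s) p →
      X (-N + 2) < (R.cw (2 * s - 1)).1 ∧ (R.cw (2 * s - 1)).1 < X (N - 2)) :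
    (∃ k0 k1 k2 k3 : ℤ, k0 < k1 ∧ k1 < k2 ∧ k2 < k3 ∧ k3 < k0 + 2 * N ∧
      ∀ η : Finset (ℤ × ℤ), η ∩ R.T.image lt = ω → ∀ z0 z1 z2 z3 : ℤ,
        th R R' (gg R N X (2 * k0) + 1) ≤ z0 → z0 ≤ th R R' (gg R N X (2 * k0 + 1) - 1) →
        th R R' (gg R N X (2 * k1) + 1) ≤ z1 → z1 ≤ th R R' (gg R N X (2 * k1 + 1) - 1) →
        th R R' (gg R N X (2 * k2) + 1) ≤ z2 → z2 ≤ th R R' (gg R N X (2 * k2 + 1) - 1) →
        th R R' (gg R N X (2 * k3) + 1) ≤ z3 → z3 ≤ th R R' (gg R N X (2 * k3 + 1) - 1) →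
        PivZ (η ∩ R'.T.image lt) P R'.n (bv R') z0 z1 z2 z3) ∨
    (∃ r, (0 ≤ r ∧ r + 1 < N ∧ BadCl R P ω (WinC R N X r)) ∨
      (N ≤ r ∧ r + 1 < 2 * N ∧ BadCl R P ω (WinF R N X r))) := by
  have D : Disc (R.T.image lt) R.n (bv R) (bf R) := R.disc he
  have D' : Disc (R'.T.image lt) R'.n (bv R') (bf R') := R'.disc he'
  obtain ⟨x, y, h1, h2⟩ := D.of_A4 hP hA
  rw [inter_eq_left.2 hω] at h1 h2
  have hXA : R.A ≤ X (-N + 2) := by
    have := G.A_lt (i := -N + 2) (by omega) (by omega)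
    omega
  have hXB : X (N - 2) ≤ R.B := G.le_B (by omega) (by omega)
  rcases D.landing2 hP hω (arcs G) h1 h2 with
    ⟨a0, b0, a1, b1, a2, b2, a3, b3, k0, k1, k2, k3, ⟨g0, g0'⟩, ⟨g1, g1'⟩, ⟨g2, g2'⟩, ⟨g3, g3'⟩,
      A0, A1, A2, A3⟩ | ⟨k, a, b, q1, q2, q3, q4⟩
  · left
    -- the four contacts, in `R'`
    have tO : ∀ a b, AO (ω \ P) P R.n (bv R) a b → ∃ s' p, th R R' a = 2 * s' ∧ Tc P p ∧
        Co (ω \ P) (bv R' s') p := by
      rintro a b ⟨s, rfl, ⟨p, hp, hc⟩, -⟩
      obtain ⟨x1, x2⟩ := hO s p hp hc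
      have e1 := S.th_cw (s := 2 * s) (by omega) (by omega)
      have e2 := S.th_par (2 * s)
      obtain ⟨s', hs'⟩ : ∃ s', th R R' (2 * s) = 2 * s' := ⟨th R R' (2 * s) / 2, by omega⟩
      refine ⟨s', p, hs', hp, ?_⟩
      have e3 : bv R' s' = bv R s := by
        unfold bv
        rw [← hs', e1]
      rw [e3]; exact hc
    have tD : ∀ a b, AD (du (R.T.image lt) (ω ∪ P)) P R.n (bf R) a b → ∃ s' p,
        th R R' a = 2 * s' - 1 ∧ Tc (P.map sh1) p ∧
        Co (du (R.T.image lt) (ω ∪ P)) (bf R' s') p := by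
      rintro a b ⟨s, rfl, ⟨p, hp, hc⟩, -⟩
      obtain ⟨x1, x2⟩ := hD s p hp hc
      have e1 := S.th_cw (s := 2 * s - 1) (by omega) (by omega)
      have e2 := S.th_par (2 * s - 1)
      obtain ⟨s', hs'⟩ : ∃ s', th R R' (2 * s - 1) = 2 * s' - 1 :=
        ⟨(th R R' (2 * s - 1) + 1) / 2, by omega⟩
      refine ⟨s', p, hs', hp, ?_⟩
      have e3 : bf R' s' = bf R s := by
        unfold bf
        rw [← hs', e1]
      rw [e3]; exact hc
    obtain ⟨s0, p0, e0, hp0, c0⟩ := tO _ _ A0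
    obtain ⟨s1, p1, e1, hp1, c1⟩ := tD _ _ A1
    obtain ⟨s2, p2, e2, hp2, c2⟩ := tO _ _ A2
    obtain ⟨s3, p3, e3, hp3, c3⟩ := tD _ _ A3
    have l0 := S.th_lt g0
    have l0' := S.th_lt g0'
    have l1 := S.th_lt g1
    have l1' := S.th_lt g1'
    have l2 := S.th_lt g2
    have l2' := S.th_lt g2'
    have l3 := S.th_lt g3
    have l3' := S.th_lt g3'
    rw [show a0 + 2 * R.n = a0 + 1 * (2 * R.n) by ring, th_add, one_mul] at l3'
    refine ⟨k0, k1, k2, k3, ?_, ?_, ?_, ?_, ?_⟩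
    · have st1 := gg_step G (2 * k0)
      have := gg_lt G (i := 2 * k0) (j := 2 * k1) (by omega)
      omega
    · have st1 := gg_step G (2 * k1)
      have := gg_lt G (i := 2 * k1) (j := 2 * k2) (by omega)
      omega
    · have st1 := gg_step G (2 * k2)
      have := gg_lt G (i := 2 * k2) (j := 2 * k3) (by omega)
      omega
    · have e4 := gg_add (R := R) (X := X) (2 * k0) 1 (N := N) (by omega)
      have st1 := gg_step G (2 * k3)
      have := gg_lt G (i := 2 * k3) (j := 2 * k0 + 1 * (4 * N)) (by omega)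
      omega
    · intro η hη z0 z1 z2 z3 y0 y0' y1 y1' y2 y2' y3 y3'
      have m1 : ω \ P ⊆ (η ∩ R'.T.image lt) \ P := by
        intro l hl
        rw [mem_sdiff] at hl ⊢
        refine ⟨mem_inter.2 ⟨?_, hE (hω hl.1)⟩, hl.2⟩
        rw [← hη] at hl
        exact (mem_inter.1 hl.1).1
      have m2 : du (R.T.image lt) (ω ∪ P) ⊆ du (R'.T.image lt) (η ∩ R'.T.image lt ∪ P) := by
        refine du_anti fun l hl hl' => ⟨hE hl, fun h => hl' ?_⟩
        rcases mem_union.1 h with h | h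
        · refine mem_union_left _ ?_
          rw [← hη]
          exact mem_inter.2 ⟨(mem_inter.1 h).1, hl⟩
        · exact mem_union_right _ h
      exact D'.piv_of_pts (hP.trans hE) inter_subset_right hs hp0 (c0.mono m1) hp1 (c1.mono m2)
        hp2 (c2.mono m1) hp3 (c3.mono m2) (by omega) (by omega) (by omega) (by omega) (by omega)
        (by omega) (by omega) (by omega)
  · right
    rcases q4 with ⟨s, e1, ⟨p, hp, hc⟩, hall⟩ | ⟨s, e1, ⟨p, hp, hc⟩, hall⟩
    · obtain ⟨r, hr⟩ := win_of_pair G hN (k := k) (a := a) (b := b)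
        (fun u => ∃ t, u = 2 * t ∧ Co (ω \ P) (bv R t) p) (by
          rintro _ ⟨t, rfl, ht⟩
          exact hO t p hp ht) ⟨s, e1, hc⟩ q1 q3 q2 (by
          rintro _ ⟨t, rfl, ht⟩
          obtain ⟨m, hm⟩ := hall t (hc.trans (Co.symm ht))
          exact ⟨m, by
            rw [show 2 * t + m * (2 * R.n) = 2 * (t + m * R.n) by ring]
            exact hm⟩)
      refine ⟨r, ?_⟩
      rcases hr with ⟨r1, r2, r3⟩ | ⟨r1, r2, r3⟩
      · exact Or.inl ⟨r1, r2, Or.inl ⟨p, s, hp, hc, fun t ht => r3 _ ⟨t, rfl, ht⟩⟩⟩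
      · exact Or.inr ⟨r1, r2, Or.inl ⟨p, s, hp, hc, fun t ht => r3 _ ⟨t, rfl, ht⟩⟩⟩
    · obtain ⟨r, hr⟩ := win_of_pair G hN (k := k) (a := a) (b := b)
        (fun u => ∃ t, u = 2 * t - 1 ∧ Co (du (R.T.image lt) (ω ∪ P)) (bf R t) p) (by
          rintro _ ⟨t, rfl, ht⟩
          exact hD t p hp ht) ⟨s, e1, hc⟩ q1 q3 q2 (by
          rintro _ ⟨t, rfl, ht⟩
          obtain ⟨m, hm⟩ := hall t (hc.trans (Co.symm ht))
          exact ⟨m, by
            rw [show 2 * t - 1 + m * (2 * R.n) = 2 * (t + m * R.n) - 1 by ring]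
            exact hm⟩)
      refine ⟨r, ?_⟩
      rcases hr with ⟨r1, r2, r3⟩ | ⟨r1, r2, r3⟩
      · exact Or.inl ⟨r1, r2, Or.inr ⟨p, s, hp, hc, fun t ht => r3 _ ⟨t, rfl, ht⟩⟩⟩
      · exact Or.inr ⟨r1, r2, Or.inr ⟨p, s, hp, hc, fun t ht => r3 _ ⟨t, rfl, ht⟩⟩⟩

/-! ### Marks -/

/-- a mark of the ceiling lies in its arc -/
theorem mark_ceil (S : SubReg R R') (G : Grid R N X) {r x : ℤ} (h0 : 0 ≤ r) (h1 : r < N)
    (hx : X (2 * r - N) ≤ x) (hx' : x < X (2 * r + 1 - N)) (hst : R.A < x → R.hi (x - 1) < R.hi x) :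
    th R R' (gg R N X (2 * r) + 1) ≤ x + R'.hi x ∧
      x + R'.hi x ≤ th R R' (gg R N X (2 * r + 1) - 1) := by
  have hN := G.pos
  have hb := R.basic
  have h12 := R.s12
  have hA : R.A ≤ X (2 * r - N) := by
    rcases eq_or_lt_of_le h0 with e | e
    · rw [← e, show 2 * (0 : ℤ) - N = -N by ring, G.X0]
    · have := G.A_lt (i := 2 * r - N) (by omega) (by omega)
      omega
  have hB : X (2 * r + 1 - N) ≤ R.B := G.le_B (by omega) (by omega)
  have t1 := gg_step G (2 * r)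
  have t2 := gg_mono G (show 2 * r + 1 ≤ 2 * N by omega)
  have t3 := gg_mono G (show 0 ≤ 2 * r by omega)
  rw [gg_s2 G] at t2
  rw [gg_s0 G] at t3
  rw [th_ceil (by omega) (by omega), th_ceil (by omega) (by omega),
    ← S.hi x (by omega) (by omega)]
  constructor
  · rw [gg_eq (by omega) (by omega)]
    unfold g0
    rw [if_pos (show 2 * r < 2 * N by omega)]
    split_ifs with e
    · have := R.hi_mono (x := R.A) (y := x) le_rfl (by omega) (by omega)
      unfold MReg.s0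
      omega
    · have h3 := G.A_lt (i := 2 * r - N) (by omega) (by omega)
      have h4 := R.hi_mono (x := X (2 * r - N) - 1) (y := x - 1) (by omega) (by omega) (by omega)
      have h5 := hst (by omega)
      unfold fc
      omega
  · rw [gg_eq (by omega) (by omega)]
    unfold g0
    rw [if_neg (by omega), if_pos (by omega)]
    have h4 := R.hi_mono (x := x) (y := X (2 * r + 1 - N) - 1) (by omega) (by omega) (by omega)
    unfold fc
    omega

/-- a mark of the floor lies in its arc -/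
theorem mark_floor (S : SubReg R R') (G : Grid R N X) {r x : ℤ} (h0 : N ≤ r) (h1 : r < 2 * N)
    (hx : X (3 * N - 1 - 2 * r) ≤ x) (hx' : x < X (3 * N - 2 * r))
    (hst : R.A < x → R.lo x < R.lo (x - 1)) :
    th R R' (gg R N X (2 * r) + 1) ≤ R'.lo x - x - R'.fl ∧
      R'.lo x - x - R'.fl ≤ th R R' (gg R N X (2 * r + 1) - 1) := by
  have hN := G.pos
  have hb := R.basic
  have h12 := R.s12
  have hA := G.A_lt (i := 3 * N - 1 - 2 * r) (by omega) (by omega)
  have hB : X (3 * N - 2 * r) ≤ R.B := G.le_B (by omega) (by omega)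
  have t1 := gg_step G (2 * r)
  have t2 := gg_mono G (show 2 * r + 1 ≤ 4 * N by omega)
  have t3 := gg_mono G (show 2 * N ≤ 2 * r by omega)
  rw [gg_s2 G] at t3
  rw [gg_top hN] at t2
  rw [th_floor (by omega) (by omega), th_floor (by omega) (by omega),
    ← S.lo x (by omega) (by omega)]
  unfold dF
  constructor
  · rw [gg_eq (by omega) (by omega)]
    unfold g0
    rw [if_neg (by omega), if_neg (show ¬ 2 * r < 2 * N by omega)]
    have h4 := R.lo_mono (x := x) (y := X (3 * N - 2 * r) - 1) (by omega) (by omega) (by omega)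
    unfold ff
    omega
  · rw [gg_eq (by omega) (by omega)]
    unfold g0
    rw [if_neg (by omega), if_neg (by omega)]
    have h4 := R.lo_mono (x := X (3 * N - (2 * r + 1)) - 1) (y := x - 1) (by
      rw [show 3 * N - (2 * r + 1) = 3 * N - 1 - 2 * r by ring]; omega) (by
      rw [show 3 * N - (2 * r + 1) = 3 * N - 1 - 2 * r by ring]; omega) (by omega)
    have h5 := hst (by omega)
    unfold ff
    rw [show 3 * N - (2 * r + 1) = 3 * N - 1 - 2 * r by ring] at h4 ⊢
    omega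

end Pool.Agent.H41.W
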