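import Mathlib
import Pool.Agent.H72.W.MonoWalk
import Pool.Agent.H6.W.JDef

set_option autoImplicit false
open Finset

/-!
# Solid blocks

A set of tiles whose rows are intervals which start in a common column, the column being an interval, is
`Solid`. In particular the chunk `b.Pl h` of the junction box is solid.
-/

namespace Pool.Agent.H41.W

open Pool.Agent.H75.Perc hiding WL CT hh PB
open Pool.Agent.H75.TwoArm Pool.Agent.H75.Four Pool.Agent.H33.Q1
open Pool.Agent.Q1.M4 (Cell)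
open Pool.Agent.H72.W (gv gf)
open Pool.Agent.H6.W (JBox RC)

variable {T : Finset (ℤ × ℤ)}

/-- the lower end of the label of a tile -/
def lc (p : ℤ × ℤ) : ℤ × ℤ := ((p.1 - p.2 + 1) / 2, (p.1 + p.2 + 1) / 2)

/-- the upper end of the label of a tile -/
def uc (p : ℤ × ℤ) : ℤ × ℤ := ((p.1 - p.2) / 2, (p.1 + p.2 + 2) / 2)

lemma lc_ad {p : ℤ × ℤ} (hp : p ∈ T) : Co (T.image lt) (lc p) (uc p) := by
  refine Relation.ReflTransGen.single ⟨?_, ?_⟩
  · unfold lc uc IsUnit4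
    simp only [Prod.mk_sub_mk, Prod.mk.injEq]
    omega
  · refine mem_image.2 ⟨p, hp, ?_⟩
    unfold lt lc uc
    refine Prod.ext ?_ ?_ <;> simp only [Prod.fst_add, Prod.snd_add] <;> omega

lemma co_symm {κ : Finset (ℤ × ℤ)} {x y : ℤ × ℤ} (h : Co κ x y) : Co κ y x := Co.symm h

/-- neighbouring tiles in a row -/
lemma lc_right {x y : ℤ} (h1 : (x, y) ∈ T) (h2 : (x + 1, y) ∈ T) :
    Co (T.image lt) (lc (x, y)) (lc (x + 1, y)) := by
  rcases Int.emod_two_eq_zero_or_one (x + y) with h | h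
  · have e : uc (x, y) = uc (x + 1, y) := by
      unfold uc; refine Prod.ext ?_ ?_ <;> simp only <;> omega
    exact (lc_ad h1).trans (by rw [e]; exact co_symm (lc_ad h2))
  · have e : lc (x, y) = lc (x + 1, y) := by
      unfold lc; refine Prod.ext ?_ ?_ <;> simp only <;> omega
    rw [e]
    exact Co.refl _ _

/-- neighbouring tiles in a column -/
lemma lc_up {x y : ℤ} (h1 : (x, y) ∈ T) (_h2 : (x, y + 1) ∈ T) :
    Co (T.image lt) (lc (x, y)) (lc (x, y + 1)) := by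
  have e : uc (x, y) = lc (x, y + 1) := by
    unfold uc lc; refine Prod.ext ?_ ?_ <;> simp only <;> omega
  rw [← e]
  exact lc_ad h1

lemma lc_row {a y : ℤ} (k : ℕ) (h : ∀ x, a ≤ x → x ≤ a + k → (x, y) ∈ T) :
    Co (T.image lt) (lc (a, y)) (lc (a + k, y)) := by
  induction k with
  | zero => simpa using Co.refl _ _
  | succ k ih =>
    have h1 := ih fun x hx hx' => h x hx (by push_cast; omega)
    have h2 := lc_right (T := T) (x := a + k) (y := y) (h _ (by omega) (by push_cast; omega))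
      (h _ (by omega) (by push_cast; omega))
    push_cast
    rw [← add_assoc]
    exact h1.trans h2

lemma lc_col {x b : ℤ} (k : ℕ) (h : ∀ y, b ≤ y → y ≤ b + k → (x, y) ∈ T) :
    Co (T.image lt) (lc (x, b)) (lc (x, b + k)) := by
  induction k with
  | zero => simpa using Co.refl _ _
  | succ k ih =>
    have h1 := ih fun y hy hy' => h y hy (by push_cast; omega)
    have h2 := lc_up (T := T) (x := x) (y := b + k) (h _ (by omega) (by push_cast; omega))
      (h _ (by omega) (by push_cast; omega))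
    push_cast
    rw [← add_assoc]
    exact h1.trans h2

/-- a vertex touching the labels of `T` is an end of the label of a tile of `T` -/
lemma tc_tile {v : ℤ × ℤ} (h : Tc (T.image lt) v) : ∃ p ∈ T, v = lc p ∨ v = uc p := by
  obtain ⟨q, h1, h2⟩ := h
  obtain ⟨p, hp, e⟩ := mem_image.1 h2
  refine ⟨p, hp, ?_⟩
  have hu := unit_cases h1
  unfold lt at e
  have e1 := congrArg Prod.fst e
  have e2 := congrArg Prod.snd e
  simp only [Prod.fst_add, Prod.snd_add] at e1 e2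
  unfold lc uc
  simp only [Prod.ext_iff] at hu ⊢
  omega

/-- **combs are connected** -/
theorem co_of_comb {a : ℤ}
    (h1 : ∀ x y, (x, y) ∈ T → a ≤ x ∧ ∀ x', a ≤ x' → x' ≤ x → (x', y) ∈ T)
    (h2 : ∀ y y' y'', (a, y) ∈ T → (a, y') ∈ T → y ≤ y'' → y'' ≤ y' → (a, y'') ∈ T)
    {v v' : ℤ × ℤ} (hv : Tc (T.image lt) v) (hv' : Tc (T.image lt) v') : Co (T.image lt) v v' := by
  have toL : ∀ u, Tc (T.image lt) u → ∃ y, (a, y) ∈ T ∧ Co (T.image lt) u (lc (a, y)) := by
    intro u hu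
    obtain ⟨⟨x, y⟩, hp, hu'⟩ := tc_tile hu
    obtain ⟨h3, h4⟩ := h1 x y hp
    refine ⟨y, h4 a le_rfl h3, ?_⟩
    have h5 := lc_row (T := T) (a := a) (y := y) (x - a).toNat fun x' h6 h7 =>
      h4 x' h6 (by rw [Int.toNat_of_nonneg (by omega)] at h7; omega)
    rw [Int.toNat_of_nonneg (by omega), show a + (x - a) = x by ring] at h5
    rcases hu' with rfl | rfl
    · exact co_symm h5
    · exact (co_symm (lc_ad hp)).trans (co_symm h5)
  obtain ⟨y, hy, c1⟩ := toL v hv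
  obtain ⟨y', hy', c2⟩ := toL v' hv'
  have col : ∀ y y', (a, y) ∈ T → (a, y') ∈ T → y ≤ y' →
      Co (T.image lt) (lc (a, y)) (lc (a, y')) := by
    intro y y' hy hy' hle
    have h5 := lc_col (T := T) (x := a) (b := y) (y' - y).toNat fun y'' h6 h7 =>
      h2 y y' y'' hy hy' h6 (by rw [Int.toNat_of_nonneg (by omega)] at h7; omega)
    rw [Int.toNat_of_nonneg (by omega), show y + (y' - y) = y' by ring] at h5
    exact h5
  refine (c1.trans ?_).trans (co_symm c2)
  rcases le_total y y' with h | h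
  · exact col y y' hy hy' h
  · exact co_symm (col y' y hy' hy h)

lemma map_sh1_eq : (T.image lt).map sh1 = (T.image fun p => (p.1 + 1, p.2)).image lt := by
  ext l
  simp only [mem_map, mem_image]
  constructor
  · rintro ⟨_, ⟨p, hp, rfl⟩, rfl⟩
    refine ⟨_, ⟨p, hp, rfl⟩, ?_⟩
    show _ = ((lt p).1 + 1, (lt p).2 + 1)
    unfold lt
    refine Prod.ext ?_ ?_ <;> simp only <;> ring
  · rintro ⟨_, ⟨p, hp, rfl⟩, rfl⟩
    refine ⟨_, ⟨p, hp, rfl⟩, ?_⟩
    show ((lt p).1 + 1, (lt p).2 + 1) = _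
    unfold lt
    refine Prod.ext ?_ ?_ <;> simp only <;> ring

/-- **combs are solid** -/
theorem solid_of_comb {a : ℤ}
    (h1 : ∀ x y, (x, y) ∈ T → a ≤ x ∧ ∀ x', a ≤ x' → x' ≤ x → (x', y) ∈ T)
    (h2 : ∀ y y' y'', (a, y) ∈ T → (a, y') ∈ T → y ≤ y'' → y'' ≤ y' → (a, y'') ∈ T) :
    Solid (T.image lt) where
  op := fun _ _ hp hp' => co_of_comb h1 h2 hp hp'
  du := by
    intro p p' hp hp'
    rw [map_sh1_eq] at hp hp' ⊢
    have hm : ∀ x y, (x, y) ∈ (T.image fun p => (p.1 + 1, p.2)) ↔ (x - 1, y) ∈ T := by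
      intro x y
      simp only [mem_image, Prod.mk.injEq]
      constructor
      · rintro ⟨q, hq, e1, e2⟩
        have : q = (x - 1, y) := Prod.ext (by simp only; omega) e2
        rwa [← this]
      · intro h
        exact ⟨_, h, by simp, rfl⟩
    refine co_of_comb (a := a + 1) ?_ ?_ hp hp'
    · intro x y hxy
      rw [hm] at hxy
      obtain ⟨h3, h4⟩ := h1 _ _ hxy
      refine ⟨by omega, fun x' h5 h6 => ?_⟩
      rw [hm]
      exact h4 _ (by omega) (by omega)
    · intro y y' y'' h3 h4 h5 h6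
      rw [hm, add_sub_cancel_right] at h3 h4 ⊢
      exact h2 y y' y'' h3 h4 h5 h6

lemma TL_image {Q : Finset Cell} {n : ℤ} (hn : 0 < n) : TL Q n = ((TL Q n).image tt).image lt := by
  ext l
  simp only [mem_image]
  constructor
  · intro h
    exact ⟨tt l, ⟨l, h, rfl⟩, lt_tt ((mem_TL hn).1 h).1⟩
  · rintro ⟨_, ⟨l', h', rfl⟩, rfl⟩
    rwa [lt_tt ((mem_TL hn).1 h').1]

lemma mem_TT {Q : Finset Cell} {n : ℤ} (hn : 0 < n) {p : ℤ × ℤ} :
    p ∈ (TL Q n).image tt ↔ ct n p ∈ Q := by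
  rw [mem_image]
  constructor
  · rintro ⟨l, h, rfl⟩
    exact ((mem_TL hn).1 h).2
  · intro h
    exact ⟨lt p, (lt_mem_TL hn).2 h, tt_lt p⟩

lemma mem_Pc {b : JBox} {c : Cell} : c ∈ b.Pc ↔ ∃ i : ℕ, i < b.m ∧
    (-((i + 1) * b.M : ℤ) ≤ c.1 ∧ c.1 < -(i * b.M : ℤ)) ∧
    (-((b.τ : ℤ) + i) ≤ c.2 ∧ c.2 < (b.τ : ℤ) + i) := by
  unfold JBox.Pc RC
  simp only [mem_biUnion, mem_range, mem_product, mem_Ico]

/-- **The chunk of the junction box is solid.** -/
theorem solid_Pl {b : JBox} {h : ℕ} (hh : 0 < h) : Solid (b.Pl h) := by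
  have hn : (0 : ℤ) < 2 * (h : ℤ) := by positivity
  unfold JBox.Pl
  rw [TL_image hn]
  refine solid_of_comb (a := -((b.m * b.M : ℤ)) * (2 * (h : ℤ))) ?_ ?_
  · intro x y hxy
    rw [mem_TT hn, mem_Pc] at hxy
    obtain ⟨i, hi, ⟨h1, h2⟩, h3, h4⟩ := hxy
    unfold ct at h1 h2 h3 h4
    simp only at h1 h2 h3 h4
    have him : ((i : ℤ) + 1) * b.M ≤ b.m * b.M :=
      mul_le_mul_of_nonneg_right (by exact_mod_cast hi) (by positivity)
    have hx : -((b.m * b.M : ℤ)) * (2 * (h : ℤ)) ≤ x := by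
      have h5 := Int.ediv_mul_le x hn.ne'
      have h6 : -((b.m * b.M : ℤ)) * (2 * (h : ℤ)) ≤ x / (2 * (h : ℤ)) * (2 * (h : ℤ)) :=
        mul_le_mul_of_nonneg_right (by linarith) hn.le
      linarith
    refine ⟨hx, fun x' h5 h6 => ?_⟩
    rw [mem_TT hn, mem_Pc]
    unfold ct
    simp only
    have h7 : x' / (2 * (h : ℤ)) ≤ x / (2 * (h : ℤ)) := Int.ediv_le_ediv hn h6
    have h8 : -((b.m * b.M : ℤ)) ≤ x' / (2 * (h : ℤ)) := by
      rw [Int.le_ediv_iff_mul_le hn]; exact h5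
    generalize x' / (2 * (h : ℤ)) = c' at *
    generalize x / (2 * (h : ℤ)) = c at *
    generalize y / (2 * (h : ℤ)) = d at *
    -- the plate of `c'`
    have hM : (0 : ℤ) < b.M := by
      rcases Nat.eq_zero_or_pos b.M with h0 | h0
      · rw [h0] at h1 h2; push_cast at h1 h2; omega
      · exact_mod_cast h0
    have hc0 : (0 : ℤ) ≤ -c' - 1 := by
      have : (0 : ℤ) ≤ i * b.M := by positivity
      omega
    set j := (-c' - 1) / (b.M : ℤ) with hj
    have hj0 : 0 ≤ j := Int.ediv_nonneg hc0 hM.le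
    have e1 : j * b.M ≤ -c' - 1 := Int.ediv_mul_le _ hM.ne'
    have e2 : -c' - 1 < (j + 1) * b.M := Int.lt_ediv_add_one_mul_self _ hM
    have e3 : (i : ℤ) ≤ j := by
      rw [hj, Int.le_ediv_iff_mul_le hM]; omega
    have e4 : j < b.m := by
      rw [hj, Int.ediv_lt_iff_lt_mul hM]; omega
    refine ⟨j.toNat, by omega, ?_⟩
    rw [Int.toNat_of_nonneg hj0]
    omega
  · intro y y' y'' h1 h2 h3 h4
    rw [mem_TT hn, mem_Pc] at h1 h2 ⊢
    unfold ct at h1 h2 ⊢
    simp only at h1 h2 ⊢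
    obtain ⟨i, hi, ⟨a1, a2⟩, a3, a4⟩ := h1
    obtain ⟨j, hj, ⟨b1, b2⟩, b3, b4⟩ := h2
    have e : -((b.m * b.M : ℤ)) * (2 * (h : ℤ)) / (2 * (h : ℤ)) = -((b.m * b.M : ℤ)) :=
      Int.mul_ediv_cancel _ hn.ne'
    rw [e] at a1 a2 b1 b2 ⊢
    have h5 : y / (2 * (h : ℤ)) ≤ y'' / (2 * (h : ℤ)) := Int.ediv_le_ediv hn h3
    have h6 : y'' / (2 * (h : ℤ)) ≤ y' / (2 * (h : ℤ)) := Int.ediv_le_ediv hn h4
    generalize y / (2 * (h : ℤ)) = c at *
    generalize y' / (2 * (h : ℤ)) = c' at *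
    generalize y'' / (2 * (h : ℤ)) = c'' at *
    have hM : (0 : ℤ) < b.M := by
      rcases Nat.eq_zero_or_pos b.M with h0 | h0
      · rw [h0] at a1 a2; push_cast at a1 a2; omega
      · exact_mod_cast h0
    have hi' : (i : ℤ) + 1 = b.m := by
      have : (b.m : ℤ) * b.M ≤ (i + 1) * b.M := by linarith
      have := le_of_mul_le_mul_right this hM
      omega
    have hj' : (j : ℤ) + 1 = b.m := by
      have : (b.m : ℤ) * b.M ≤ (j + 1) * b.M := by linarith
      have := le_of_mul_le_mul_right this hM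
      omega
    refine ⟨i, hi, ⟨a1, a2⟩, by omega, by omega⟩

end Pool.Agent.H41.W
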