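import Mathlib
import Pool.Agent.H41.W.LandA
import Pool.Agent.H41.W.Solid
import Pool.Agent.H72.W.WideBox
import Pool.Agent.H65.W.Bad
import Pool.Agent.H87.W.Corr

set_option autoImplicit false
open Finset

/-!
# Landing in the junction box: the grid, the corridors and the windows
-/

namespace Pool.Agent.H41.W

open Pool.Agent.H75.Perc hiding dl WL CT hh PB
open Pool.Agent.H75.TwoArm Pool.Agent.H75.Four Pool.Agent.H75.Four.PivAux
open Pool.Agent.H33.Q1 (lt tt ct TL lt_odd tt_lt lt_tt lt_inj mem_TL tv tf lt_mem_TL)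
open Pool.Agent.Q1.M4 (Cell)
open Pool.Agent.H6.W Pool.Agent.H72.W Pool.Agent.H65.W Pool.Agent.H87.Corr

variable {b : JBox} {δ σ : ℝ} {h L g : ℕ}

/-- abscissas of the grid, cells -/
def cc (H g : ℕ) (i : ℤ) : ℤ := -((-(i * H)) / (2 * g))

/-- abscissas of the grid, tiles -/
def XX (H g h : ℕ) (i : ℤ) : ℤ := cc H g i * (2 * (h : ℤ))

lemma cc_le {H g : ℕ} (hg : 0 < g) {i s : ℤ} : cc H g i ≤ s ↔ i * H ≤ 2 * g * s := by
  unfold cc
  have h1 : -s ≤ (-(i * H)) / (2 * (g : ℤ)) ↔ -s * (2 * (g : ℤ)) ≤ -(i * H) :=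
    Int.le_ediv_iff_mul_le (by positivity)
  constructor
  · intro h
    have := h1.1 (by omega)
    linarith
  · intro h
    have := h1.2 (by linarith)
    omega

lemma lt_cc {H g : ℕ} (hg : 0 < g) {i s : ℤ} : s < cc H g i ↔ 2 * g * s < i * H := by
  rw [← not_le, cc_le hg, not_le]

lemma cc_lb {H g : ℕ} (hg : 0 < g) (i : ℤ) : i * H ≤ 2 * g * cc H g i := (cc_le hg).1 le_rfl

lemma cc_ub {H g : ℕ} (hg : 0 < g) (i : ℤ) : 2 * g * cc H g i < i * H + 2 * g := by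
  have := (lt_cc (H := H) hg (i := i) (s := cc H g i - 1)).1 (by omega)
  linarith

lemma cc_step {H g : ℕ} (hg : 0 < g) (hH : 4 * g ≤ H) (i : ℤ) : cc H g i + 2 ≤ cc H g (i + 1) := by
  have h1 := (lt_cc (H := H) hg (i := i + 1) (s := cc H g i + 1)).2 (by
    have := cc_ub (H := H) hg i
    have h2 : (4 : ℤ) * g ≤ H := by exact_mod_cast hH
    linarith)
  omega

lemma cc_mul {H g : ℕ} (hg : 0 < g) (L : ℤ) : cc H g (2 * g * L) = L * H := by
  have h1 := (cc_le (H := H) hg (i := 2 * g * L) (s := L * H)).2 (by linarith)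
  have h2 := cc_lb (H := H) hg (2 * g * L)
  have h3 : (2 * (g : ℤ)) * (L * H) ≤ (2 * g) * cc H g (2 * g * L) := by linarith
  have := le_of_mul_le_mul_left h3 (by positivity)
  omega

variable {hb : b.Ok δ σ} {hh : 0 < h} {hL : 0 < L}

lemma subReg (hX : (L : ℤ) * b.H ≤ b.X) : SubReg (wR b L h hb hh hL) (bR b h hb hh) where
  hA := by
    rw [wR_A, bR_A]
    exact mul_le_mul_of_nonneg_right (by omega) (by omega)
  hB := by
    rw [wR_B, bR_B]
    exact mul_le_mul_of_nonneg_right hX (by omega)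
  lo := fun _ _ _ => rfl
  hi := fun _ _ _ => rfl

lemma grid (hg : 0 < g) (hH : 4 * g ≤ b.H) :
    Grid (wR b L h hb hh hL) (2 * g * L) (XX b.H g h) where
  pos := by positivity
  X0 := by
    rw [wR_A]
    unfold XX
    rw [show -(2 * (g : ℤ) * L) = 2 * g * (-L) by ring, cc_mul hg]
    ring
  X1 := by
    rw [wR_B]
    unfold XX
    rw [cc_mul hg]
  step := by
    intro i _ _
    unfold XX
    have h1 := cc_step hg hH i
    have h2 : (cc b.H g i + 2) * (2 * (h : ℤ)) ≤ cc b.H g (i + 1) * (2 * h) :=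
      mul_le_mul_of_nonneg_right h1 (by omega)
    have h3 : (1 : ℤ) ≤ h := by exact_mod_cast hh
    linarith

/-! ### Points of the chunk -/

lemma Pc_sub (hb : b.Ok δ σ) (hσ : σ ≤ 1) (hδ : δ ≤ 1 / (4 : ℕ)) (hL : 0 < L) : b.Pc ⊆ Wb b L := by
  intro c hc
  obtain ⟨i, hi, ⟨h1, h2⟩, h3, h4⟩ := mem_Pc.1 hc
  obtain ⟨g1, -, g3⟩ := Ok.H_ge hb (N := 4) (by norm_num) hδ
  have hMR : (0 : ℝ) < b.M := by exact_mod_cast hb.M0
  -- the chunk is shorter than `H`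
  have h5 : (b.m : ℝ) * b.M ≤ b.H := by
    rw [hb.len]
    have : σ * b.H ≤ 1 * b.H := mul_le_mul_of_nonneg_right hσ (Nat.cast_nonneg _)
    linarith
  have h5' : b.m * b.M ≤ b.H := by exact_mod_cast h5
  have h6 : (b.H : ℝ) ≤ b.X := by
    have h8 := hb.X_ge
    have h9 : δ * b.X ≤ 1 / 4 * b.X := mul_le_mul_of_nonneg_right (by simpa using hδ) (Nat.cast_nonneg _)
    have h10 : (0 : ℝ) ≤ b.X := Nat.cast_nonneg _
    linarith
  have h6' : b.H ≤ b.X := by exact_mod_cast h6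
  have h7 : (b.τ : ℝ) + b.m ≤ b.M := by
    have h8 := hb.τ_le
    have h9 : (b.m : ℝ) ≤ b.X / b.M := by rw [le_div_iff₀ hMR]; linarith
    have h10 : (0 : ℝ) ≤ b.τ := Nat.cast_nonneg _
    linarith
  have h7' : b.τ + b.m ≤ b.M := by exact_mod_cast h7
  have e1 : ((i : ℤ) + 1) * b.M ≤ b.H := by
    have : (i + 1) * b.M ≤ b.m * b.M := Nat.mul_le_mul_right _ hi
    exact_mod_cast this.trans h5'
  have e2 : (0 : ℤ) ≤ i * b.M := by positivity
  have e3 : (b.H : ℤ) ≤ L * b.H := by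
    have : 1 * b.H ≤ L * b.H := Nat.mul_le_mul_right _ hL
    rw [one_mul] at this
    exact_mod_cast this
  rw [mem_Wb]
  refine ⟨?_, by omega, by omega⟩
  rw [mem_Q0]
  left
  refine ⟨by omega, by omega, by omega, by omega⟩

lemma Pl_sub (hb : b.Ok δ σ) (hσ : σ ≤ 1) (hδ : δ ≤ 1 / (4 : ℕ)) (hL : 0 < L) :
    b.Pl h ⊆ TL (Wb b L) (2 * (h : ℤ)) := TL_mono (Pc_sub hb hσ hδ hL)

/-- labels of the chunk -/
lemma Pl_left (hb : b.Ok δ σ) (hσ : σ ≤ 1) (hh : 0 < h) {l : ℤ × ℤ} (hl' : l ∈ b.Pl h) :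
    -(4 * (h * b.H : ℤ)) < l.1 + l.2 := by
  unfold JBox.Pl at hl'
  obtain ⟨c, hc, -, h4, -⟩ := tile_of hh hl'
  obtain ⟨i, hi, ⟨h1, h2⟩, -⟩ := mem_Pc.1 hc
  have h5 : (b.m : ℝ) * b.M ≤ b.H := by
    rw [hb.len]
    have : σ * b.H ≤ 1 * b.H := mul_le_mul_of_nonneg_right hσ (Nat.cast_nonneg _)
    linarith
  have h5' : b.m * b.M ≤ b.H := by exact_mod_cast h5
  have e1 : ((i : ℤ) + 1) * b.M ≤ b.H := by
    have : (i + 1) * b.M ≤ b.m * b.M := Nat.mul_le_mul_right _ hi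
    exact_mod_cast this.trans h5'
  have h6 : (h : ℤ) * (-(b.H : ℤ)) ≤ h * c.1 := mul_le_mul_of_nonneg_left (by omega) (by omega)
  have h7 := h4.1
  linarith

lemma tc_Pl (hb : b.Ok δ σ) (hσ : σ ≤ 1) (hδ : δ ≤ 1 / (4 : ℕ)) (hh : 0 < h) {p : ℤ × ℤ}
    (hp : Tc (b.Pl h) p) : (-(2 * (h * b.H : ℤ)) ≤ (tv p).1 ∧ (tv p).1 ≤ 0) ∧
      |(tv p).2| ≤ h * b.H := by
  obtain ⟨q, hq, hl⟩ := hp
  have h1 := unit_cases hq
  have h2 := Pl_low hb hσ hδ hh hl
  have h3 := Pl_left hb hσ hh hl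
  obtain ⟨h4, h5⟩ := h2
  rw [abs_lt] at h4
  simp only [Prod.fst_add, Prod.snd_add] at h3 h4 h5
  unfold tv
  rw [abs_le]
  simp only
  generalize (h : ℤ) * b.H = T at *
  omega

lemma tcd_Pl (hb : b.Ok δ σ) (hσ : σ ≤ 1) (hδ : δ ≤ 1 / (4 : ℕ)) (hh : 0 < h) {p : ℤ × ℤ}
    (hp : Tc ((b.Pl h).map sh1) p) : (-(2 * (h * b.H : ℤ)) ≤ (tv p).1 ∧ (tv p).1 ≤ 1) ∧
      |(tv p).2| ≤ h * b.H := by
  obtain ⟨q, hq, hl⟩ := hp
  have h1 := unit_cases hq
  rw [mem_sh1] at hl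
  have h2 := Pl_low hb hσ hδ hh hl
  have h3 := Pl_left hb hσ hh hl
  obtain ⟨h4, h5⟩ := h2
  rw [abs_lt] at h4
  simp only [Prod.fst_add, Prod.snd_add, Prod.fst_sub, Prod.snd_sub] at h3 h4 h5
  unfold tv
  rw [abs_le]
  simp only
  generalize (h : ℤ) * b.H = T at *
  omega

/-! ### Points of the walk -/

lemma tv_bv {R : MReg} (he : (R.A + R.lo R.A) % 2 = 0) (s : ℤ) : tv (bv R s) = R.cw (2 * s) := by
  have hpar : ((R.cw (2 * s)).1 + (R.cw (2 * s)).2) % 2 = 0 := by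
    have := (R.twalk he).par_int (-(2 * s))
    simp only [neg_neg] at this
    rw [this]; omega
  exact (TWalk.gv_grid hpar).symm

lemma tf_bf {R : MReg} (he : (R.A + R.lo R.A) % 2 = 0) (s : ℤ) : tf (bf R s) = R.cw (2 * s - 1) := by
  have hpar : ((R.cw (2 * s - 1)).1 + (R.cw (2 * s - 1)).2) % 2 = 1 := by
    have := (R.twalk he).par_int (-(2 * s - 1))
    simp only [neg_neg] at this
    rw [this]; omega
  unfold tf bf gf
  refine Prod.ext ?_ ?_ <;> simp only <;> omega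

end Pool.Agent.H41.W
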