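import Mathlib
import Pool.Agent.H41.W.LandB
import Pool.Agent.H89.W.PivB

set_option autoImplicit false
open Finset

/-!
# E3: landing in the junction box

`E = TL (Wb b L) (2 h)` = labels of the wide box, `ω ⊆ E`. If the chunk `P` changes the boundary
partition of the wide box, then either `P` is pivotal in the junction box for all marks in four
separated windows of length `H / (2 g)` (for every configuration which agrees with `ω` in the wide box),
or one of the bad events `BadO`, `BadD` (landing in one window of length `H / g` only), `CorO`, `CorD`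
(right corridor), `CrL` (left corridor) holds.
-/

namespace Pool.Agent.H41.W

open Pool.Agent.H75.Perc hiding dl WL CT hh PB
open Pool.Agent.H75.TwoArm Pool.Agent.H75.Four Pool.Agent.H75.Four.PivAux
open Pool.Agent.H33.Q1 (lt tt ct TL lt_odd tt_lt lt_tt lt_inj mem_TL tv tf lt_mem_TL)
open Pool.Agent.Q1.M4 (Cell)
open Pool.Agent.H6.W Pool.Agent.H72.W Pool.Agent.H65.W Pool.Agent.H87.Corr
open Pool.Agent.H89.W (piv_false piv_true InW_lt)

variable {b : JBox} {δ σ : ℝ} {h L g : ℕ}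

/-! ### Windows -/

lemma wn_ceil {H : ℕ} (hg : 0 < g) {j : ℤ} {u : ℤ × ℤ} (h1 : XX H g h (2 * (j - 1)) ≤ u.1)
    (h2 : u.1 ≤ XX H g h (2 * j + 1)) (h3 : (H : ℤ) * (2 * h) ≤ u.2) : Wn H g h 1 j 1 u := by
  have a1 := cc_lb (H := H) hg (2 * (j - 1))
  have a2 := cc_ub (H := H) hg (2 * j + 1)
  have hgp : (0 : ℤ) ≤ g := by positivity
  have hhp : (0 : ℤ) ≤ h := by positivity
  have hHp : (0 : ℤ) ≤ H := by positivity
  unfold XX at h1 h2
  have b1 : (g : ℤ) * (cc H g (2 * (j - 1)) * (2 * h)) ≤ g * u.1 :=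
    mul_le_mul_of_nonneg_left h1 hgp
  have b2 : (g : ℤ) * u.1 ≤ g * (cc H g (2 * j + 1) * (2 * h)) := mul_le_mul_of_nonneg_left h2 hgp
  have c1 : (2 * (j - 1) * H : ℤ) * h ≤ 2 * g * cc H g (2 * (j - 1)) * h :=
    mul_le_mul_of_nonneg_right a1 hhp
  have c2 : (2 * g * cc H g (2 * j + 1) : ℤ) * h ≤ ((2 * j + 1) * H + 2 * g) * h :=
    mul_le_mul_of_nonneg_right a2.le hhp
  have c3 : (0 : ℤ) ≤ H * h := by positivity
  have c4 : (0 : ℤ) ≤ g * h := by positivity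
  unfold Wn
  refine ⟨?_, ?_, ?_⟩ <;> linarith

lemma wn_floor {H : ℕ} (hg : 0 < g) {j : ℤ} {u : ℤ × ℤ} (h1 : XX H g h (2 * j - 1) ≤ u.1)
    (h2 : u.1 ≤ XX H g h (2 * (j + 1))) (h3 : u.2 ≤ -((H : ℤ) * (2 * h))) :
    Wn H g h (-1) j 1 u := by
  have a1 := cc_lb (H := H) hg (2 * j - 1)
  have a2 := cc_ub (H := H) hg (2 * (j + 1))
  have hgp : (0 : ℤ) ≤ g := by positivity
  have hhp : (0 : ℤ) ≤ h := by positivity
  have hHp : (0 : ℤ) ≤ H := by positivity
  unfold XX at h1 h2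
  have b1 : (g : ℤ) * (cc H g (2 * j - 1) * (2 * h)) ≤ g * u.1 :=
    mul_le_mul_of_nonneg_left h1 hgp
  have b2 : (g : ℤ) * u.1 ≤ g * (cc H g (2 * (j + 1)) * (2 * h)) := mul_le_mul_of_nonneg_left h2 hgp
  have c1 : ((2 * j - 1) * H : ℤ) * h ≤ 2 * g * cc H g (2 * j - 1) * h :=
    mul_le_mul_of_nonneg_right a1 hhp
  have c2 : (2 * g * cc H g (2 * (j + 1)) : ℤ) * h ≤ (2 * (j + 1) * H + 2 * g) * h :=
    mul_le_mul_of_nonneg_right a2.le hhp
  have c3 : (0 : ℤ) ≤ H * h := by positivity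
  have c4 : (0 : ℤ) ≤ g * h := by positivity
  unfold Wn
  refine ⟨?_, ?_, ?_⟩ <;> linarith

variable {hb : b.Ok δ σ} {hh : 0 < h} {hL : 0 < L} {E ω : Finset (ℤ × ℤ)}

lemma Tc.mono' {A A' : Finset (ℤ × ℤ)} {p : ℤ × ℤ} (h : A ⊆ A') (hp : Tc A p) : Tc A' p := by
  obtain ⟨q, a, b⟩ := hp
  exact ⟨q, a, h b⟩

/-- a cluster which lands only in one pair of windows -/
theorem bad_of_cl (hX : (L : ℤ) * b.H ≤ b.X) (hσ : σ ≤ 1) (hg : 11 ≤ g) (hδ : δ ≤ 1 / (8 * g : ℕ))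
    (hE : TL (Wb b L) (2 * (h : ℤ)) = E) (hω : ω ⊆ E) {s j : ℤ} (hs : s = 1 ∨ s = -1)
    (hj : -(L * g : ℤ) ≤ j) (hj' : j ≤ L * g) {W : ℤ × ℤ → Prop}
    (hW : ∀ u, W u → Wn b.H g h s j 1 u)
    (hB : BadCl (wR b L h hb hh hL) (b.Pl h) ω W) :
    BadO b.H b.K L g h E ω ∨ BadD b.H b.K L g h E ω := by
  have hδ4 : δ ≤ 1 / (4 : ℕ) := by
    refine hδ.trans (one_div_le_one_div_of_le (by norm_num) ?_)
    exact_mod_cast (by omega : 4 ≤ 8 * g)
  obtain ⟨hK, hρ⟩ := box_side hb hg hδ hh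
  have hodd : ∀ l ∈ E, (l.1 + l.2) % 2 = 1 := by rw [← hE]; exact TL_odd hh
  have hbel : Below b.H b.K h E := by rw [← hE]; exact below_box hb Wb_sub hh
  have hP : b.Pl h ⊆ E := by rw [← hE]; exact Pl_sub hb hσ hδ4 hL
  have hlab : (wR b L h hb hh hL).T.image lt = E := (wR_lab hX).trans hE
  rcases hB with ⟨p, s0, hp, hc, hall⟩ | ⟨p, s0, hp, hc, hall⟩
  · left
    rw [← box_BadO_sdiff hb hσ hδ4 hh hω]
    have hκ : ω \ b.Pl h ⊆ E := sdiff_subset.trans hω
    obtain ⟨-, t2⟩ := tc_Pl hb hσ hδ4 hh hp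
    rw [abs_le] at t2
    refine BadO_of_cluster hs hj hj' hh (by omega) hK hρ hodd hbel hκ (x := p)
      (y0 := bv (wR b L h hb hh hL) s0) ?_ (Co.symm hc) ?_ ?_
    · rcases hs with rfl | rfl <;> linarith
    · have := (wR_v (hb := hb) (hh := hh) (hL := hL) hX s0).2
      rw [hE] at this
      exact this
    · intro y hy hN
      have hT : Tc E y := by
        by_cases hpy : p = y
        · rw [← hpy]; exact hp.mono' hP
        · exact (tc_of_co hy hpy).mono' hκ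
      obtain ⟨t, rfl⟩ := (wR b L h hb hh hL).bd_vert mR_even y (by rw [hlab]; exact hT)
        (by rw [hlab]; exact hN)
      have e := tv_bv (R := wR b L h hb hh hL) mR_even t
      have := (hW _ (hall t (Co.symm hy))).mono (e' := 2) (by norm_num)
      rw [← e] at this
      exact this
  · right
    rw [← box_BadD_union hb hσ hδ4 hh]
    rw [hlab] at hc hall
    obtain ⟨-, t2⟩ := tcd_Pl hb hσ hδ4 hh hp
    rw [abs_le] at t2
    have e0 := tv_tf p
    refine BadD_of_cluster hs hj hj' hh (by omega) hK hρ hodd hbel (x := p)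
      (y0 := bf (wR b L h hb hh hL) s0) ?_ (Co.symm hc) ?_ ?_
    · rw [e0] at t2
      simp only at t2
      rcases hs with rfl | rfl <;> linarith
    · have := (wR_f (hb := hb) (hh := hh) (hL := hL) hX s0).2
      rw [hE] at this
      exact this
    · intro y hy hN
      have hT : Tc (E.map sh1) y := by
        by_cases hpy : p = y
        · rw [← hpy]; exact hp.mono' (map_subset_map.2 hP)
        · exact (tc_of_co hy hpy).mono' du_sub
      obtain ⟨t, rfl⟩ := (wR b L h hb hh hL).bd_face mR_even y (by rw [hlab]; exact hT)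
        (by rw [hlab]; exact hN)
      have e := tf_bf (R := wR b L h hb hh hL) mR_even t
      have := hW _ (hall t (Co.symm hy))
      rw [← e] at this
      exact this

/-! ### Corridors -/

lemma X_right (hg : 0 < g) (H : ℕ) :
    2 * (h * (((L : ℤ) - 1) * H)) ≤ XX H g h (2 * g * L - 2) := by
  have h1 := cc_lb (H := H) hg (2 * g * L - 2)
  have hH : (0 : ℤ) ≤ H := by positivity
  have h3 : (1 : ℤ) ≤ g := by exact_mod_cast hg
  have h4 : (H : ℤ) ≤ g * H := by nlinarith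
  have h2 : (2 * (g : ℤ)) * ((L - 1) * H) ≤ 2 * g * cc H g (2 * g * L - 2) := by nlinarith
  have h5 := le_of_mul_le_mul_left h2 (by positivity)
  unfold XX
  have h6 : ((L - 1) * H : ℤ) * (2 * h) ≤ cc H g (2 * g * L - 2) * (2 * h) :=
    mul_le_mul_of_nonneg_right h5 (by positivity)
  linarith

lemma X_left (hg : 0 < g) (H : ℕ) :
    XX H g h (-(2 * g * L) + 2) ≤ -(2 * (h * (((L : ℤ) - 1) * H))) := by
  have hH : (0 : ℤ) ≤ H := by positivity
  have h3 : (1 : ℤ) ≤ g := by exact_mod_cast hg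
  have h4 : (H : ℤ) ≤ g * H := by nlinarith
  have h5 := (cc_le (H := H) hg (i := -(2 * g * L) + 2) (s := -((L - 1) * H))).2 (by nlinarith)
  unfold XX
  have h6 : cc H g (-(2 * g * L) + 2) * (2 * h) ≤ -((L - 1) * H : ℤ) * (2 * h) :=
    mul_le_mul_of_nonneg_right h5 (by positivity)
  linarith

theorem no_corO (hσ : σ ≤ 1) (hg : 0 < g) (hδ : δ ≤ 1 / (4 : ℕ)) (hL3 : 3 ≤ L)
    (hω : ω ⊆ E) (hC : ¬ CorO b.H L h E ω)
    (hC' : ¬ CrL (-((L * b.H + 2 : ℤ) * h)) (-((((L : ℤ) - 1) * b.H - 1) * (2 * h))) ω)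
    {s : ℤ} {p : ℤ × ℤ} (hp : Tc (b.Pl h) p)
    (hc : Co (ω \ b.Pl h) (bv (wR b L h hb hh hL) s) p) :
    XX b.H g h (-(2 * g * L) + 2) < ((wR b L h hb hh hL).cw (2 * s)).1 ∧
      ((wR b L h hb hh hL).cw (2 * s)).1 < XX b.H g h (2 * g * L - 2) := by
  obtain ⟨⟨t0, t1⟩, -⟩ := tc_Pl hb hσ hδ hh hp
  have e := tv_bv (R := wR b L h hb hh hL) mR_even s
  have hH := (Ok.H_ge hb (N := 4) (by norm_num) hδ).1
  have hHp : (4 : ℤ) ≤ b.H := by exact_mod_cast hH
  have hhp : (1 : ℤ) ≤ h := by exact_mod_cast hh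
  have hLp : (3 : ℤ) ≤ L := by exact_mod_cast hL3
  have hhH : (4 : ℤ) ≤ h * b.H := by nlinarith
  have hLH : (3 : ℤ) * b.H ≤ L * b.H := by nlinarith
  constructor
  · by_contra hcon
    refine hC' ⟨p, bv (wR b L h hb hh hL) s, (Co.symm hc).mono sdiff_subset, ?_, ?_⟩
    · have : (h : ℤ) * (3 * b.H) ≤ h * (L * b.H) := mul_le_mul_of_nonneg_left hLH (by omega)
      nlinarith
    · rw [e]
      have := X_left (h := h) (L := L) hg b.H
      nlinarith
  · by_contra hcon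
    refine hC (CorO_of_cluster (κ := ω \ b.Pl h) (sdiff_subset.trans hω) sdiff_subset ?_
      (Co.symm hc) ?_ ?_)
    · unfold cM
      have : (h : ℤ) * (1 * b.H) ≤ h * ((L - 2) * b.H) :=
        mul_le_mul_of_nonneg_left (by nlinarith) (by omega)
      linarith
    · have : (0 : ℤ) ≤ h * (L * b.H) := by positivity
      linarith
    · rw [e]
      have := X_right (h := h) (L := L) hg b.H
      linarith

theorem no_corD (hσ : σ ≤ 1) (hg : 0 < g) (hδ : δ ≤ 1 / (4 : ℕ)) (hL3 : 3 ≤ L)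
    (hC : ¬ CorD b.H L h E ω)
    (hC' : ¬ CrL (-((L * b.H + 2 : ℤ) * h)) (-((((L : ℤ) - 1) * b.H - 1) * (2 * h))) (du E ω))
    {s : ℤ} {p : ℤ × ℤ} (hp : Tc ((b.Pl h).map sh1) p)
    (hc : Co (du E (ω ∪ b.Pl h)) (bf (wR b L h hb hh hL) s) p) :
    XX b.H g h (-(2 * g * L) + 2) < ((wR b L h hb hh hL).cw (2 * s - 1)).1 ∧
      ((wR b L h hb hh hL).cw (2 * s - 1)).1 < XX b.H g h (2 * g * L - 2) := by
  obtain ⟨⟨t0, t1⟩, -⟩ := tcd_Pl hb hσ hδ hh hp
  have e := tf_bf (R := wR b L h hb hh hL) mR_even s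
  have e1 := tv_tf (bf (wR b L h hb hh hL) s)
  have e2 := tv_tf p
  have hH := (Ok.H_ge hb (N := 4) (by norm_num) hδ).1
  have hHp : (4 : ℤ) ≤ b.H := by exact_mod_cast hH
  have hhp : (1 : ℤ) ≤ h := by exact_mod_cast hh
  have hLp : (3 : ℤ) ≤ L := by exact_mod_cast hL3
  have hhH : (4 : ℤ) ≤ h * b.H := by nlinarith
  have hLH : (3 : ℤ) * b.H ≤ L * b.H := by nlinarith
  have hsub : du E (ω ∪ b.Pl h) ⊆ du E ω :=
    du_anti fun l hl hl' => ⟨hl, fun h => hl' (mem_union_left _ h)⟩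
  constructor
  · by_contra hcon
    refine hC' ⟨p, bf (wR b L h hb hh hL) s, (Co.symm hc).mono hsub, ?_, ?_⟩
    · have : (h : ℤ) * (3 * b.H) ≤ h * (L * b.H) := mul_le_mul_of_nonneg_left hLH (by omega)
      nlinarith
    · rw [e1, e]
      have := X_left (h := h) (L := L) hg b.H
      show _ + 1 ≤ _
      nlinarith
  · by_contra hcon
    refine hC (CorD_of_cluster (ω' := ω ∪ b.Pl h) subset_union_left ?_ (Co.symm hc) ?_ ?_)
    · unfold cM
      have : (h : ℤ) * (1 * b.H) ≤ h * ((L - 2) * b.H) :=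
        mul_le_mul_of_nonneg_left (by nlinarith) (by omega)
      linarith
    · have : (0 : ℤ) ≤ h * (L * b.H) := by positivity
      rw [e2] at t1
      simp only at t1
      linarith
    · rw [e]
      have := X_right (h := h) (L := L) hg b.H
      linarith

/-! ### Marks -/

lemma ht_st (hb : b.Ok δ σ) (hh : 0 < h) {i : ℕ} (hi : i < b.K) :
    ht b h (b.st i * (2 * (h : ℤ))) = ((b.H : ℤ) + i + 1) * (2 * (h : ℤ)) ∧
      ht b h (b.st i * (2 * (h : ℤ)) - 1) ≤ ((b.H : ℤ) + i) * (2 * (h : ℤ)) := by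
  have hn : (0 : ℤ) < 2 * (h : ℤ) := by positivity
  have e1 : b.st i * (2 * (h : ℤ)) / (2 * (h : ℤ)) = b.st i := Int.mul_ediv_cancel _ hn.ne'
  have e2 : (b.st i * (2 * (h : ℤ)) - 1) / (2 * (h : ℤ)) = b.st i - 1 := by
    rw [show b.st i * (2 * (h : ℤ)) - 1 = (2 * (h : ℤ) - 1) + (b.st i - 1) * (2 * (h : ℤ)) by ring,
      Int.add_mul_ediv_right _ _ hn.ne', Int.ediv_eq_zero_of_lt (by omega) (by omega)]
    ring
  have k1 : kn b (b.st i) = i + 1 := by
    have h1 : i < kn b (b.st i) := (kn_iff hb).2 ⟨hi, le_rfl⟩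
    have h2 : ¬ i + 1 < kn b (b.st i) := by
      intro hc
      obtain ⟨h3, h4⟩ := (kn_iff hb).1 hc
      have := st_lt' hb (show i < i + 1 by omega) h3
      omega
    omega
  have k2 : kn b (b.st i - 1) ≤ i := by
    by_contra hc
    obtain ⟨h3, h4⟩ := (kn_iff hb).1 (show i < kn b (b.st i - 1) by omega)
    omega
  unfold ht
  rw [e1, e2, k1]
  refine ⟨by push_cast; ring, mul_le_mul_of_nonneg_right ?_ hn.le⟩
  have : (kn b (b.st i - 1) : ℤ) ≤ i := by exact_mod_cast k2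
  omega

/-- **the marks of a window lie in the arc of the window** -/
theorem mark_win (hX : (L : ℤ) * b.H ≤ b.X) (hg : 0 < g) (hH : 4 * g ≤ b.H) {t : ℕ} {r : ℤ}
    (ht' : (t : ℤ) = 2 * r) {c : Bool × ℕ} (hc : b.InW L (2 * g) t c) :
    th (wR b L h hb hh hL) (bR b h hb hh)
        (gg (wR b L h hb hh hL) (2 * g * L) (XX b.H g h) (2 * r) + 1) ≤
        b.mark (2 * h) c - (b.X : ℤ) * (2 * (h : ℤ)) ∧
      b.mark (2 * h) c - (b.X : ℤ) * (2 * (h : ℤ)) ≤ th (wR b L h hb hh hL) (bR b h hb hh)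
        (gg (wR b L h hb hh hL) (2 * g * L) (XX b.H g h) (2 * r + 1) - 1) := by
  have hn : (0 : ℤ) < 2 * (h : ℤ) := by positivity
  have S := subReg (hb := hb) (hh := hh) (hL := hL) hX
  have G := grid (hb := hb) (hh := hh) (hL := hL) hg hH
  have hmul : ∀ a c : ℤ, a < c → a * (2 * (h : ℤ)) < c * (2 * (h : ℤ)) := fun a c hac =>
    mul_lt_mul_of_pos_right hac hn
  have hmul' : ∀ a c : ℤ, a ≤ c → a * (2 * (h : ℤ)) ≤ c * (2 * (h : ℤ)) := fun a c hac =>
    mul_le_mul_of_nonneg_right hac hn.le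
  obtain ⟨hi, hc⟩ := hc
  obtain ⟨m1, m2⟩ := ht_st hb hh hi
  obtain ⟨σ', i⟩ := c
  simp only at hi hc m1 m2
  rcases hc with ⟨rfl, h1, h2, h3⟩ | ⟨rfl, h0, h1, h2, h3⟩
  · push_cast at h2 h3
    have hr0 : 0 ≤ r := by omega
    have hr1 : r < 2 * g * L := by
      have : (t : ℤ) < 2 * L * (2 * g) := by exact_mod_cast h1
      nlinarith
    have a1 : cc b.H g (2 * r - 2 * g * L) ≤ b.st i := by
      rw [cc_le hg]
      rw [ht'] at h2
      linarith
    have a2 : b.st i < cc b.H g (2 * r + 1 - 2 * g * L) := by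
      rw [lt_cc hg]
      rw [ht'] at h3
      linarith
    have key := mark_ceil S G (r := r) (x := b.st i * (2 * (h : ℤ))) hr0 hr1 (hmul' _ _ a1)
      (hmul _ _ a2) (fun _ => by
        rw [wR_hi, wR_hi, m1]
        have : ((b.H : ℤ) + i) * (2 * (h : ℤ)) < ((b.H : ℤ) + i + 1) * (2 * (h : ℤ)) :=
          hmul _ _ (by omega)
        linarith)
    have e : b.mark (2 * h) (true, i) - (b.X : ℤ) * (2 * (h : ℤ)) =
        b.st i * (2 * (h : ℤ)) + (bR b h hb hh).hi (b.st i * (2 * (h : ℤ))) := by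
      rw [bR_hi, m1]
      unfold JBox.mark
      simp only [if_true]
      ring
    rw [e]
    exact key
  · push_cast at h2 h3
    have hr0 : 2 * g * L ≤ r := by
      have : (2 : ℤ) * L * (2 * g) ≤ t := by exact_mod_cast h0
      nlinarith
    have hr1 : r < 2 * (2 * g * L) := by
      have : (t : ℤ) < 4 * L * (2 * g) := by exact_mod_cast h1
      nlinarith
    have a1 : cc b.H g (3 * (2 * g * L) - 1 - 2 * r) ≤ b.st i := by
      rw [cc_le hg]
      rw [ht'] at h2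
      linarith
    have a2 : b.st i < cc b.H g (3 * (2 * g * L) - 2 * r) := by
      rw [lt_cc hg]
      rw [ht'] at h3
      linarith
    have key := mark_floor S G (r := r) (x := b.st i * (2 * (h : ℤ))) hr0 hr1 (hmul' _ _ a1)
      (hmul _ _ a2) (fun _ => by
        rw [wR_lo, wR_lo, m1]
        have : ((b.H : ℤ) + i) * (2 * (h : ℤ)) < ((b.H : ℤ) + i + 1) * (2 * (h : ℤ)) :=
          hmul _ _ (by omega)
        linarith)
    have e : b.mark (2 * h) (false, i) - (b.X : ℤ) * (2 * (h : ℤ)) =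
        (bR b h hb hh).lo (b.st i * (2 * (h : ℤ))) - b.st i * (2 * (h : ℤ)) - (bR b h hb hh).fl := by
      rw [fl_eq, bR_hi, bR_lo, bR_lo, m1, bR_B, Pool.Agent.H89.W.ht_right hb hh]
      unfold JBox.mark
      simp only [Bool.false_eq_true, if_false]
      ring
    rw [e]
    exact key

/-! ### Assembly -/

/-- `PivZ` for all marks in the arcs `k0 .. k3` -/
def Good4 (b : JBox) (L g h : ℕ) (hb : b.Ok δ σ) (hh : 0 < h) (hL : 0 < L) (E ω : Finset (ℤ × ℤ))
    (k0 k1 k2 k3 : ℤ) : Prop :=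
  ∀ η : Finset (ℤ × ℤ), η ∩ E = ω → ∀ z0 z1 z2 z3 : ℤ,
    th (wR b L h hb hh hL) (bR b h hb hh)
      (gg (wR b L h hb hh hL) (2 * g * L) (XX b.H g h) (2 * k0) + 1) ≤ z0 →
    z0 ≤ th (wR b L h hb hh hL) (bR b h hb hh)
      (gg (wR b L h hb hh hL) (2 * g * L) (XX b.H g h) (2 * k0 + 1) - 1) →
    th (wR b L h hb hh hL) (bR b h hb hh)
      (gg (wR b L h hb hh hL) (2 * g * L) (XX b.H g h) (2 * k1) + 1) ≤ z1 →
    z1 ≤ th (wR b L h hb hh hL) (bR b h hb hh)
      (gg (wR b L h hb hh hL) (2 * g * L) (XX b.H g h) (2 * k1 + 1) - 1) →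
    th (wR b L h hb hh hL) (bR b h hb hh)
      (gg (wR b L h hb hh hL) (2 * g * L) (XX b.H g h) (2 * k2) + 1) ≤ z2 →
    z2 ≤ th (wR b L h hb hh hL) (bR b h hb hh)
      (gg (wR b L h hb hh hL) (2 * g * L) (XX b.H g h) (2 * k2 + 1) - 1) →
    th (wR b L h hb hh hL) (bR b h hb hh)
      (gg (wR b L h hb hh hL) (2 * g * L) (XX b.H g h) (2 * k3) + 1) ≤ z3 →
    z3 ≤ th (wR b L h hb hh hL) (bR b h hb hh)
      (gg (wR b L h hb hh hL) (2 * g * L) (XX b.H g h) (2 * k3 + 1) - 1) →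
    PivZ (η ∩ b.B h) (b.Pl h) (bR b h hb hh).n (bv (bR b h hb hh)) z0 z1 z2 z3

lemma bv_per (s : ℤ) : bv (bR b h hb hh) (s + (bR b h hb hh).n) = bv (bR b h hb hh) s :=
  (bR_disc (hb := hb) (hh := hh)).vper s

/-- thresholds of a shifted arc -/
lemma thr_add {R R' : MReg} {N : ℤ} {X : ℤ → ℤ} (hN : 0 < N) (k m : ℤ) :
    th R R' (gg R N X (2 * (k + m * (2 * N))) + 1) =
        th R R' (gg R N X (2 * k) + 1) + m * (2 * R'.n) ∧
      th R R' (gg R N X (2 * (k + m * (2 * N)) + 1) - 1) =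
        th R R' (gg R N X (2 * k + 1) - 1) + m * (2 * R'.n) := by
  constructor
  · rw [show 2 * (k + m * (2 * N)) = 2 * k + m * (4 * N) by ring, gg_add _ _ hN,
      show gg R N X (2 * k) + m * (2 * R.n) + 1 = gg R N X (2 * k) + 1 + m * (2 * R.n) by ring, th_add]
  · rw [show 2 * (k + m * (2 * N)) + 1 = 2 * k + 1 + m * (4 * N) by ring, gg_add _ _ hN,
      show gg R N X (2 * k + 1) + m * (2 * R.n) - 1 = gg R N X (2 * k + 1) - 1 + m * (2 * R.n) by
      ring, th_add]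

lemma good_rot (hg : 0 < g) {k0 k1 k2 k3 : ℤ} (H : Good4 b L g h hb hh hL E ω k0 k1 k2 k3) :
    Good4 b L g h hb hh hL E ω k2 k3 (k0 + 2 * (2 * g * L)) (k1 + 2 * (2 * g * L)) := by
  intro η hη z2 z3 z0 z1 a1 a2 a3 a4 a5 a6 a7 a8
  have hN : (0 : ℤ) < 2 * g * L := by positivity
  obtain ⟨e1, e2⟩ := thr_add (R := wR b L h hb hh hL) (R' := bR b h hb hh) (X := XX b.H g h) hN k0 1
  obtain ⟨e3, e4⟩ := thr_add (R := wR b L h hb hh hL) (R' := bR b h hb hh) (X := XX b.H g h) hN k1 1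
  rw [one_mul, one_mul] at e1 e2 e3 e4
  rw [e1] at a5
  rw [e2] at a6
  rw [e3] at a7
  rw [e4] at a8
  have := H η hη (z0 - 2 * (bR b h hb hh).n) (z1 - 2 * (bR b h hb hh).n) z2 z3 (by omega) (by omega)
    (by omega) (by omega) a1 a2 a3 a4
  have := Pool.Agent.H89.W.PivZ.rot (fun s => bv_per s) this
  simpa using this

/-- four arcs of one turn of the walk -/
theorem good_same (hX : (L : ℤ) * b.H ≤ b.X) (hg : 0 < g) (hH : 4 * g ≤ b.H)
    (hP : b.Pl h ⊆ b.B h) {r0 r1 r2 r3 q : ℤ} (h0 : 0 ≤ r0) (h01 : r0 < r1) (h12 : r1 < r2)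
    (h23 : r2 < r3) (h3 : r3 < 2 * (2 * g * L))
    (H : Good4 b L g h hb hh hL E ω (r0 + q * (2 * (2 * g * L))) (r1 + q * (2 * (2 * g * L)))
      (r2 + q * (2 * (2 * g * L))) (r3 + q * (2 * (2 * g * L)))) :
    ∃ (w : Bool) (t1 t2 t3 t4 : ℕ), t1 + 2 ≤ t2 ∧ t2 + 2 ≤ t3 ∧ t3 + 2 ≤ t4 ∧
      t4 < 4 * L * (2 * g) ∧ ∀ η : Finset (ℤ × ℤ), η ∩ E = ω →
        b.AllPiv h L (2 * g) w t1 t2 t3 t4 η := by
  have hN : (0 : ℤ) < 2 * g * L := by positivity
  have hn : (0 : ℤ) < 2 * (h : ℤ) := by positivity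
  refine ⟨false, (2 * r0).toNat, (2 * r1).toNat, (2 * r2).toNat, (2 * r3).toNat, by omega, by omega,
    by omega, ?_, ?_⟩
  · have : ((2 * r3).toNat : ℤ) < 4 * L * (2 * g) := by
      rw [Int.toNat_of_nonneg (by omega)]; nlinarith
    exact_mod_cast this
  · intro η hη c1 c2 c3 c4 w1 w2 w3 w4
    have m1 := mark_win (hb := hb) (hh := hh) (hL := hL) hX hg hH (r := r0)
      (Int.toNat_of_nonneg (by omega)) w1
    have m2 := mark_win (hb := hb) (hh := hh) (hL := hL) hX hg hH (r := r1)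
      (Int.toNat_of_nonneg (by omega)) w2
    have m3 := mark_win (hb := hb) (hh := hh) (hL := hL) hX hg hH (r := r2)
      (Int.toNat_of_nonneg (by omega)) w3
    have m4 := mark_win (hb := hb) (hh := hh) (hL := hL) hX hg hH (r := r3)
      (Int.toNat_of_nonneg (by omega)) w4
    have tt := fun k => thr_add (R := wR b L h hb hh hL) (R' := bR b h hb hh) (X := XX b.H g h) hN k q
    have key := H η hη (b.mark (2 * h) c1 - (b.X : ℤ) * (2 * (h : ℤ)) + q * (2 * (bR b h hb hh).n))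
      (b.mark (2 * h) c2 - (b.X : ℤ) * (2 * (h : ℤ)) + q * (2 * (bR b h hb hh).n))
      (b.mark (2 * h) c3 - (b.X : ℤ) * (2 * (h : ℤ)) + q * (2 * (bR b h hb hh).n))
      (b.mark (2 * h) c4 - (b.X : ℤ) * (2 * (h : ℤ)) + q * (2 * (bR b h hb hh).n))
      (by rw [(tt r0).1]; linarith [m1.1]) (by rw [(tt r0).2]; linarith [m1.2])
      (by rw [(tt r1).1]; linarith [m2.1]) (by rw [(tt r1).2]; linarith [m2.2])
      (by rw [(tt r2).1]; linarith [m3.1]) (by rw [(tt r2).2]; linarith [m3.2])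
      (by rw [(tt r3).1]; linarith [m4.1]) (by rw [(tt r3).2]; linarith [m4.2])
    have key' := Pool.Agent.H89.W.PivZ.shift (fun s => bv_per s) (-q) key
    have sh : ∀ z : ℤ, z + q * (2 * (bR b h hb hh).n) + 2 * (bR b h hb hh).n * -q = z := fun z => by
      ring
    rw [sh, sh, sh, sh] at key'
    exact piv_false hP w1.1 w2.1 w3.1 w4.1 (InW_lt hb hn (by omega) w1 w2)
      (InW_lt hb hn (by omega) w2 w3) (InW_lt hb hn (by omega) w3 w4) key'

/-- three arcs of one turn of the walk and one of the next -/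
theorem good_next (hX : (L : ℤ) * b.H ≤ b.X) (hg : 0 < g) (hH : 4 * g ≤ b.H)
    (hP : b.Pl h ⊆ b.B h) {r0 r1 r2 r3 q : ℤ} (h3 : 0 ≤ r3) (h30 : r3 < r0) (h01 : r0 < r1)
    (h12 : r1 < r2) (h2 : r2 < 2 * (2 * g * L))
    (H : Good4 b L g h hb hh hL E ω (r0 + q * (2 * (2 * g * L))) (r1 + q * (2 * (2 * g * L)))
      (r2 + q * (2 * (2 * g * L))) (r3 + (q + 1) * (2 * (2 * g * L)))) :
    ∃ (w : Bool) (t1 t2 t3 t4 : ℕ), t1 + 2 ≤ t2 ∧ t2 + 2 ≤ t3 ∧ t3 + 2 ≤ t4 ∧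
      t4 < 4 * L * (2 * g) ∧ ∀ η : Finset (ℤ × ℤ), η ∩ E = ω →
        b.AllPiv h L (2 * g) w t1 t2 t3 t4 η := by
  have hN : (0 : ℤ) < 2 * g * L := by positivity
  have hn : (0 : ℤ) < 2 * (h : ℤ) := by positivity
  refine ⟨true, (2 * r3).toNat, (2 * r0).toNat, (2 * r1).toNat, (2 * r2).toNat, by omega, by omega,
    by omega, ?_, ?_⟩
  · have : ((2 * r2).toNat : ℤ) < 4 * L * (2 * g) := by
      rw [Int.toNat_of_nonneg (by omega)]; nlinarith
    exact_mod_cast this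
  · intro η hη c1 c2 c3 c4 w1 w2 w3 w4
    have m1 := mark_win (hb := hb) (hh := hh) (hL := hL) hX hg hH (r := r3)
      (Int.toNat_of_nonneg (by omega)) w1
    have m2 := mark_win (hb := hb) (hh := hh) (hL := hL) hX hg hH (r := r0)
      (Int.toNat_of_nonneg (by omega)) w2
    have m3 := mark_win (hb := hb) (hh := hh) (hL := hL) hX hg hH (r := r1)
      (Int.toNat_of_nonneg (by omega)) w3
    have m4 := mark_win (hb := hb) (hh := hh) (hL := hL) hX hg hH (r := r2)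
      (Int.toNat_of_nonneg (by omega)) w4
    have tt := fun k => thr_add (R := wR b L h hb hh hL) (R' := bR b h hb hh) (X := XX b.H g h) hN k q
    have tt' := thr_add (R := wR b L h hb hh hL) (R' := bR b h hb hh) (X := XX b.H g h) hN r3 (q + 1)
    have key := H η hη (b.mark (2 * h) c2 - (b.X : ℤ) * (2 * (h : ℤ)) + q * (2 * (bR b h hb hh).n))
      (b.mark (2 * h) c3 - (b.X : ℤ) * (2 * (h : ℤ)) + q * (2 * (bR b h hb hh).n))
      (b.mark (2 * h) c4 - (b.X : ℤ) * (2 * (h : ℤ)) + q * (2 * (bR b h hb hh).n))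
      (b.mark (2 * h) c1 - (b.X : ℤ) * (2 * (h : ℤ)) + (q + 1) * (2 * (bR b h hb hh).n))
      (by rw [(tt r0).1]; linarith [m2.1]) (by rw [(tt r0).2]; linarith [m2.2])
      (by rw [(tt r1).1]; linarith [m3.1]) (by rw [(tt r1).2]; linarith [m3.2])
      (by rw [(tt r2).1]; linarith [m4.1]) (by rw [(tt r2).2]; linarith [m4.2])
      (by rw [tt'.1]; linarith [m1.1]) (by rw [tt'.2]; linarith [m1.2])
    have key' := Pool.Agent.H89.W.PivZ.shift (fun s => bv_per s) (-q) key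
    have sh : ∀ z : ℤ, z + q * (2 * (bR b h hb hh).n) + 2 * (bR b h hb hh).n * -q = z := fun z => by
      ring
    have sh' : ∀ z : ℤ, z + (q + 1) * (2 * (bR b h hb hh).n) + 2 * (bR b h hb hh).n * -q =
        z + 2 * (bR b h hb hh).n := fun z => by ring
    rw [sh, sh, sh, sh'] at key'
    exact piv_true hP w1.1 w2.1 w3.1 w4.1 (InW_lt hb hn (by omega) w1 w2)
      (InW_lt hb hn (by omega) w2 w3) (InW_lt hb hn (by omega) w3 w4) key'

/-- four arcs within a period -/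
theorem good_windows (hX : (L : ℤ) * b.H ≤ b.X) (hg : 0 < g) (hH : 4 * g ≤ b.H)
    (hP : b.Pl h ⊆ b.B h) {k0 k1 k2 k3 : ℤ} (h01 : k0 < k1) (h12 : k1 < k2)
    (h23 : k2 < k3) (h3 : k3 < k0 + 2 * (2 * g * L))
    (H : Good4 b L g h hb hh hL E ω k0 k1 k2 k3) :
    ∃ (w : Bool) (t1 t2 t3 t4 : ℕ), t1 + 2 ≤ t2 ∧ t2 + 2 ≤ t3 ∧ t3 + 2 ≤ t4 ∧
      t4 < 4 * L * (2 * g) ∧ ∀ η : Finset (ℤ × ℤ), η ∩ E = ω →
        b.AllPiv h L (2 * g) w t1 t2 t3 t4 η := by
  have hN : (0 : ℤ) < 2 * g * L := by positivity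
  generalize hM : 2 * (2 * (g : ℤ) * L) = M at *
  have hM0 : 0 < M := by omega
  -- representatives
  obtain ⟨r0, q, rfl, a0, a0'⟩ : ∃ r q : ℤ, k0 = r + q * M ∧ 0 ≤ r ∧ r < M :=
    ⟨k0 % M, k0 / M, by have := Int.emod_add_mul_ediv k0 M; linarith, Int.emod_nonneg _ hM0.ne',
      Int.emod_lt_of_pos _ hM0⟩
  have hq : (q + 1) * M = q * M + M := by ring
  have hq2 : (q + 1 + 1) * M = q * M + M + M := by ring
  rcases lt_or_ge k3 (M + q * M) with c3 | c3
  · -- all in the same turn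
    refine good_same (hb := hb) (hh := hh) (hL := hL) (q := q) (r0 := r0) (r1 := k1 - q * M) (r2 := k2 - q * M) (r3 := k3 - q * M) hX hg
      hH hP a0 (by omega) (by omega) (by omega) (by rw [hM]; omega) ?_
    rw [hM]
    simpa using H
  rcases lt_or_ge k2 (M + q * M) with c2 | c2
  · refine good_next (hb := hb) (hh := hh) (hL := hL) (q := q) (r0 := r0) (r1 := k1 - q * M) (r2 := k2 - q * M)
      (r3 := k3 - (q + 1) * M) hX hg hH hP (by omega) (by omega) (by omega) (by omega)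
      (by rw [hM]; omega) ?_
    rw [hM]
    simpa using H
  have H' := good_rot hg H
  rw [hM] at H'
  rcases lt_or_ge k1 (M + q * M) with c1 | c1
  · refine good_same (hb := hb) (hh := hh) (hL := hL) (q := q + 1) (r0 := k2 - (q + 1) * M) (r1 := k3 - (q + 1) * M) (r2 := r0)
      (r3 := k1 - q * M) hX hg
      hH hP (by omega) (by omega) (by omega) (by omega) (by rw [hM]; omega) ?_
    rw [hM]
    convert H' using 1 <;> ring
  · refine good_next (hb := hb) (hh := hh) (hL := hL) (q := q + 1) (r0 := k2 - (q + 1) * M) (r1 := k3 - (q + 1) * M) (r2 := r0)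
      (r3 := k1 - (q + 1) * M) hX hg
      hH hP (by omega) (by omega) (by omega) (by omega) (by rw [hM]; omega) ?_
    rw [hM]
    convert H' using 1 <;> ring

/-- **E3, LANDING.** -/
theorem landing_box (hb : b.Ok δ σ) (hσ : σ ≤ 1) (hg : 11 ≤ g) (hL3 : 3 ≤ L)
    (hδ : δ ≤ 1 / (8 * g : ℕ)) (hδL : δ ≤ 1 / (4 * L)) (hh : 0 < h)
    {ω : Finset (ℤ × ℤ)} (hω : ω ⊆ TL (Wb b L) (2 * (h : ℤ)))
    (hA : A4 (TL (Wb b L) (2 * (h : ℤ))) (b.Pl h) ω) :
    (∃ (w : Bool) (t1 t2 t3 t4 : ℕ), t1 + 2 ≤ t2 ∧ t2 + 2 ≤ t3 ∧ t3 + 2 ≤ t4 ∧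
      t4 < 4 * L * (2 * g) ∧ ∀ η : Finset (ℤ × ℤ), η ∩ TL (Wb b L) (2 * (h : ℤ)) = ω →
        b.AllPiv h L (2 * g) w t1 t2 t3 t4 η) ∨
    (BadO b.H b.K L g h (TL (Wb b L) (2 * (h : ℤ))) ω ∨
      BadD b.H b.K L g h (TL (Wb b L) (2 * (h : ℤ))) ω) ∨
    (CorO b.H L h (TL (Wb b L) (2 * (h : ℤ))) ω ∨ CorD b.H L h (TL (Wb b L) (2 * (h : ℤ))) ω) ∨
    CrL (-((L * b.H + 2 : ℤ) * h)) (-((((L : ℤ) - 1) * b.H - 1) * (2 * h))) ω ∨
    CrL (-((L * b.H + 2 : ℤ) * h)) (-((((L : ℤ) - 1) * b.H - 1) * (2 * h)))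
      (du (TL (Wb b L) (2 * (h : ℤ))) ω) := by
  have hL : 0 < L := by omega
  have hg0 : 0 < g := by omega
  have hδ4 : δ ≤ 1 / (4 : ℕ) := by
    refine hδ.trans (one_div_le_one_div_of_le (by norm_num) ?_)
    exact_mod_cast (by omega : 4 ≤ 8 * g)
  have hX : (L : ℤ) * b.H ≤ b.X := by
    have h1 := Pool.Agent.H72.W.Ok.LH_le hb hL hδL
    have h2 : (0 : ℤ) ≤ L * b.H := by positivity
    linarith
  have hH : 4 * g ≤ b.H := by
    have := (Ok.H_ge hb (N := 8 * g) (by omega) hδ).1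
    omega
  by_contra hcon
  simp only [not_or] at hcon
  obtain ⟨hnot, ⟨hnO, hnD⟩, ⟨hcO, hcD⟩, hlO, hlD⟩ := hcon
  set E := TL (Wb b L) (2 * (h : ℤ)) with hE
  have hlab : (wR b L h hb hh hL).T.image lt = E := wR_lab hX
  have hlab' : (bR b h hb hh).T.image lt = b.B h := bR_lab
  have hPE : b.Pl h ⊆ E := Pl_sub hb hσ hδ4 hL
  have hEB : E ⊆ b.B h := WB_sub
  have G := grid (hb := hb) (hh := hh) (hL := hL) hg0 hH
  have key := landing_reg (subReg (hb := hb) (hh := hh) (hL := hL) hX) G (by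
      have h1 : (11 : ℤ) ≤ g := by exact_mod_cast hg
      have h2 : (3 : ℤ) ≤ L := by exact_mod_cast hL3
      nlinarith) mR_even mR_even (P := b.Pl h) (ω := ω) (by rw [hlab]; exact hPE)
    (by rw [hlab, hlab']; exact hEB) (solid_Pl hh) (by rw [hlab]; exact hω)
    (by rw [hlab]; exact hA)
    (fun s p hp hc => no_corO hσ hg0 hδ4 hL3 hω hcO hlO hp hc)
    (fun s p hp hc => no_corD hσ hg0 hδ4 hL3 hcD hlD hp (by rw [hlab] at hc; exact hc))
  rcases key with ⟨k0, k1, k2, k3, h01, h12, h23, h3, H⟩ | ⟨r, ⟨hr0, hr1, hB⟩ | ⟨hr0, hr1, hB⟩⟩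
  · refine hnot (good_windows (hb := hb) (hh := hh) (hL := hL) (E := E) (ω := ω) hX hg0 hH
      (hPE.trans hEB) h01 h12 h23 h3 ?_)
    intro η hη z0 z1 z2 z3 a1 a2 a3 a4 a5 a6 a7 a8
    have := H η (by rw [hlab]; exact hη) z0 z1 z2 z3 a1 a2 a3 a4 a5 a6 a7 a8
    rwa [hlab'] at this
  · -- ceiling
    have hW : ∀ u, WinC (wR b L h hb hh hL) (2 * g * L) (XX b.H g h) r u →
        Wn b.H g h 1 (r - g * L + 1) 1 u := by
      rintro u ⟨u1, u2, u3⟩
      refine wn_ceil hg0 ?_ ?_ ?_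
      · rw [show 2 * (r - (g : ℤ) * L + 1 - 1) = 2 * r - 2 * g * L by ring]; exact u1
      · rw [show 2 * (r - (g : ℤ) * L + 1) + 1 = 2 * r + 3 - 2 * g * L by ring]; exact u2
      · refine le_trans ?_ u3
        rw [wR_hi]
        unfold ht
        refine mul_le_mul_of_nonneg_right ?_ (by positivity)
        have : (0 : ℤ) ≤ (kn b ((wR b L h hb hh hL).A / (2 * (h : ℤ))) : ℤ) := by positivity
        omega
    rcases bad_of_cl hX hσ hg hδ rfl hω (s := 1) (Or.inl rfl) (j := r - g * L + 1)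
      (by have : (g : ℤ) * L = L * g := mul_comm _ _
          omega) (by have : (g : ℤ) * L = L * g := mul_comm _ _
                     have : 2 * (g : ℤ) * L = 2 * (L * g) := by ring
                     omega) hW hB with h | h
    · exact hnO h
    · exact hnD h
  · -- floor
    have hW : ∀ u, WinF (wR b L h hb hh hL) (2 * g * L) (XX b.H g h) r u →
        Wn b.H g h (-1) (3 * (g * L) - r - 1) 1 u := by
      rintro u ⟨u1, u2, u3⟩
      refine wn_floor hg0 ?_ ?_ ?_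
      · rw [show 2 * (3 * ((g : ℤ) * L) - r - 1) - 1 = 3 * (2 * g * L) - 2 * r - 3 by ring]; exact u1
      · rw [show 2 * (3 * ((g : ℤ) * L) - r - 1 + 1) = 3 * (2 * g * L) - 2 * r by ring]; exact u2
      · refine u3.trans ?_
        rw [wR_lo]
        unfold ht
        rw [neg_le_neg_iff]
        refine mul_le_mul_of_nonneg_right ?_ (by positivity)
        have : (0 : ℤ) ≤ (kn b ((wR b L h hb hh hL).A / (2 * (h : ℤ))) : ℤ) := by positivity
        omega
    rcases bad_of_cl hX hσ hg hδ rfl hω (s := -1) (Or.inr rfl) (j := 3 * (g * L) - r - 1)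
      (by have : (g : ℤ) * L = L * g := mul_comm _ _
          have : 2 * (2 * (g : ℤ) * L) = 4 * (L * g) := by ring
          omega) (by have : (g : ℤ) * L = L * g := mul_comm _ _
                     have : 2 * (g : ℤ) * L = 2 * (L * g) := by ring
                     omega) hW hB with h | h
    · exact hnO h
    · exact hnD h

end Pool.Agent.H41.W
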