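import Mathlib
import Pool.Agent.H21.W.TileSG

set_option autoImplicit false
open Finset

/-! # Junk sides round a diagonal tile

Signs `a`, `b`: the tile `(X, Y)` is the diagonal tile at a convex corner, the domain is in the direction
`(-a, -b)`. `iH`, `oH`, `iV`, `oV` : inner and outer vertical (horizontal) side of a tile. If the wall layers
are open the sides of the diagonal tile are junk: `junk`. -/

namespace Pool.Agent.H41.W

open Pool.Agent.H75.Perc Pool.Agent.H75.TwoArm Pool.Agent.H13.W Pool.Agent.H33.Q1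
open Pool.Agent.H21.W (Al TJ_al TJ_be TJ_del eE_lt eN_lt)

variable {Λ D : Set (ℤ × ℤ)} {w : Finset (ℤ × ℤ)} {a b x y X Y : ℤ}

/-- inner vertical side -/
def iH (a x y : ℤ) : ℤ × ℤ := if a = 1 then eW (lt (x, y)) else eE (lt (x, y))
/-- outer vertical side -/
def oH (a x y : ℤ) : ℤ × ℤ := if a = 1 then eE (lt (x, y)) else eW (lt (x, y))
/-- inner horizontal side -/
def iV (b x y : ℤ) : ℤ × ℤ := if b = 1 then eS (lt (x, y)) else eN (lt (x, y))
/-- outer horizontal side -/
def oV (b x y : ℤ) : ℤ × ℤ := if b = 1 then eN (lt (x, y)) else eS (lt (x, y))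

lemma oH_sub (ha : a = 1 ∨ a = -1) : oH a (x - a) y = iH a x y := by
  unfold oH iH
  rcases ha with rfl | rfl
  · simp only [if_true, eE_lt, sub_add_cancel]
  · simp only [show ¬ ((-1 : ℤ) = 1) by decide, if_false, eE_lt, sub_neg_eq_add]

lemma oH_eq (ha : a = 1 ∨ a = -1) : oH a x y = iH a (x + a) y := by
  rw [← oH_sub ha, add_sub_cancel_right]

lemma oV_sub (hb : b = 1 ∨ b = -1) : oV b x (y - b) = iV b x y := by
  unfold oV iV
  rcases hb with rfl | rfl
  · simp only [if_true, eN_lt, sub_add_cancel]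
  · simp only [show ¬ ((-1 : ℤ) = 1) by decide, if_false, eN_lt, sub_neg_eq_add]

lemma oV_eq (hb : b = 1 ∨ b = -1) : oV b x y = iV b x (y + b) := by
  rw [← oV_sub hb, add_sub_cancel_right]

/-- the tile joins the two inner sides -/
lemma tjI (ha : a = 1 ∨ a = -1) (hb : b = 1 ∨ b = -1) (hD : lt (x, y) ∉ D) (h : Al w x y ↔ a ≠ b) :
    TJ D w (lt (x, y)) (iH a x y) (iV b x y) ∧ TJ D w (lt (x, y)) (oH a x y) (oV b x y) := by
  unfold iH iV oH oV
  rcases ha with rfl | rfl <;> rcases hb with rfl | rfl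
  · have h1 : ¬ Al w x y := fun h' => (h.1 h') rfl
    obtain ⟨t1, t2⟩ := TJ_be hD h1
    simpa using ⟨t1, t2.symm⟩
  · have h1 : Al w x y := h.2 (by decide)
    obtain ⟨t1, t2⟩ := TJ_al hD h1
    simpa using ⟨t1, t2.symm⟩
  · have h1 : Al w x y := h.2 (by decide)
    obtain ⟨t1, t2⟩ := TJ_al hD h1
    simpa using ⟨t2.symm, t1⟩
  · have h1 : ¬ Al w x y := fun h' => (h.1 h') rfl
    obtain ⟨t1, t2⟩ := TJ_be hD h1
    simpa using ⟨t2.symm, t1⟩

/-- the tile joins inner and outer sides -/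
lemma tjO (ha : a = 1 ∨ a = -1) (hb : b = 1 ∨ b = -1) (hD : lt (x, y) ∉ D)
    (h : ¬ (Al w x y ↔ a ≠ b)) :
    TJ D w (lt (x, y)) (iH a x y) (oV b x y) ∧ TJ D w (lt (x, y)) (oH a x y) (iV b x y) := by
  unfold iH iV oH oV
  rcases ha with rfl | rfl <;> rcases hb with rfl | rfl
  · have h1 : Al w x y := by by_contra h1; exact h ⟨fun h2 => absurd h2 h1, fun h2 => absurd rfl h2⟩
    obtain ⟨t1, t2⟩ := TJ_al hD h1
    simpa using ⟨t1, t2.symm⟩
  · have h1 : ¬ Al w x y := fun h1 => h ⟨fun _ => by decide, fun _ => h1⟩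
    obtain ⟨t1, t2⟩ := TJ_be hD h1
    simpa using ⟨t1, t2.symm⟩
  · have h1 : ¬ Al w x y := fun h1 => h ⟨fun _ => by decide, fun _ => h1⟩
    obtain ⟨t1, t2⟩ := TJ_be hD h1
    simpa using ⟨t2.symm, t1⟩
  · have h1 : Al w x y := by by_contra h1; exact h ⟨fun h2 => absurd h2 h1, fun h2 => absurd rfl h2⟩
    obtain ⟨t1, t2⟩ := TJ_al hD h1
    simpa using ⟨t2.symm, t1⟩

lemma tjD (hb : b = 1 ∨ b = -1) (hD : lt (x, y) ∈ D) :
    TJ D w (lt (x, y)) (iV b x y) (oV b x y) := by
  unfold iV oV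
  rcases hb with rfl | rfl
  · simpa using TJ_del (w := w) hD
  · simpa using (TJ_del (w := w) hD).symm

/-- the two tiles at a corner -/
lemma two {c e1 e2 e : ℤ × ℤ} (h1 : e1 = lab c ∨ e1 = plab c) (h2 : e2 = lab c ∨ e2 = plab c)
    (hne : e1 ≠ e2) (h : e = lab c ∨ e = plab c) : e = e1 ∨ e = e2 := by
  rcases h1 with h1 | h1 <;> rcases h2 with h2 | h2 <;> rcases h with h | h
  · exact Or.inl (h.trans h1.symm)
  · exact absurd (h1.trans h2.symm) hne
  · exact Or.inl (h.trans h1.symm)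
  · exact Or.inr (h.trans h2.symm)
  · exact Or.inr (h.trans h2.symm)
  · exact Or.inl (h.trans h1.symm)
  · exact absurd (h1.trans h2.symm) hne
  · exact Or.inl (h.trans h1.symm)

lemma adjH (ha : a = 1 ∨ a = -1) {d : ℤ × ℤ} (h : (SG Λ D w).Adj (iH a x y) d) :
    (lt (x, y) ∈ Λ ∧ TJ D w (lt (x, y)) (iH a x y) d) ∨
      (lt (x - a, y) ∈ Λ ∧ TJ D w (lt (x - a, y)) (iH a x y) d) := by
  obtain ⟨e, he, hT⟩ := h
  have s1 : lt (x, y) = lab (iH a x y) ∨ lt (x, y) = plab (iH a x y) := by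
    apply of_side (lt_odd _)
    unfold iH
    split_ifs
    · exact Or.inl rfl
    · exact Or.inr (Or.inl rfl)
  have s2 : lt (x - a, y) = lab (iH a x y) ∨ lt (x - a, y) = plab (iH a x y) := by
    apply of_side (lt_odd _)
    rw [← oH_sub ha]
    unfold oH
    split_ifs
    · exact Or.inr (Or.inl rfl)
    · exact Or.inl rfl
  have hne : lt (x, y) ≠ lt (x - a, y) := by
    intro h1
    have := congrArg Prod.fst (lt_inj h1)
    simp only at this
    omega
  rcases two s1 s2 hne hT.label with rfl | rfl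
  · exact Or.inl ⟨he, hT⟩
  · exact Or.inr ⟨he, hT⟩

lemma adjV (hb : b = 1 ∨ b = -1) {d : ℤ × ℤ} (h : (SG Λ D w).Adj (iV b x y) d) :
    (lt (x, y) ∈ Λ ∧ TJ D w (lt (x, y)) (iV b x y) d) ∨
      (lt (x, y - b) ∈ Λ ∧ TJ D w (lt (x, y - b)) (iV b x y) d) := by
  obtain ⟨e, he, hT⟩ := h
  have s1 : lt (x, y) = lab (iV b x y) ∨ lt (x, y) = plab (iV b x y) := by
    apply of_side (lt_odd _)
    unfold iV
    split_ifs
    · exact Or.inr (Or.inr (Or.inl rfl))
    · exact Or.inr (Or.inr (Or.inr rfl))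
  have s2 : lt (x, y - b) = lab (iV b x y) ∨ lt (x, y - b) = plab (iV b x y) := by
    apply of_side (lt_odd _)
    rw [← oV_sub hb]
    unfold oV
    split_ifs
    · exact Or.inr (Or.inr (Or.inr rfl))
    · exact Or.inr (Or.inr (Or.inl rfl))
  have hne : lt (x, y) ≠ lt (x, y - b) := by
    intro h1
    have := congrArg Prod.snd (lt_inj h1)
    simp only at this
    omega
  rcases two s1 s2 hne hT.label with rfl | rfl
  · exact Or.inl ⟨he, hT⟩
  · exact Or.inr ⟨he, hT⟩

lemma iH_odd (a x y : ℤ) : ((iH a x y).1 + (iH a x y).2) % 2 = 1 := by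
  unfold iH eW eE lt
  split_ifs <;> simp only <;> omega

lemma iV_even (b x y : ℤ) : ((iV b x y).1 + (iV b x y).2) % 2 = 0 := by
  unfold iV eS eN lt
  split_ifs <;> simp only <;> omega

/-- the four sides -/
lemma sides4 (ha : a = 1 ∨ a = -1) (hb : b = 1 ∨ b = -1) {c : ℤ × ℤ}
    (h : c = eW (lt (x, y)) ∨ c = eE (lt (x, y)) ∨ c = eS (lt (x, y)) ∨ c = eN (lt (x, y))) :
    c = iH a x y ∨ c = oH a x y ∨ c = iV b x y ∨ c = oV b x y := by
  unfold iH oH iV oV
  rcases ha with rfl | rfl <;> rcases hb with rfl | rfl <;> simp <;> tauto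

/-- **The sides of a closed diagonal tile between open layers are junk.** -/
theorem junk (ha : a = 1 ∨ a = -1) (hb : b = 1 ∨ b = -1) (d1 : lt (X, Y) ∉ D)
    (d2 : Al w X Y ↔ a ≠ b) (h1 : lt (X - a, Y) ∉ D) (h2 : Al w (X - a) Y ↔ a ≠ b)
    (v : (lt (X, Y - b) ∉ D ∧ (Al w X (Y - b) ↔ a ≠ b)) ∨
      (lt (X, Y - b) ∈ D ∧ lt (X, Y - b - b) ∉ D ∧ (Al w X (Y - b - b) ↔ a ≠ b)))
    (o1 : lt (X + a, Y) ∉ Λ) (o2 : lt (X, Y + b) ∉ Λ) (o3 : lt (X - a, Y + b) ∉ Λ)
    (o4 : lt (X + a, Y - b) ∉ Λ) (o5 : lt (X + a, Y - b - b) ∉ Λ) :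
    ∃ J : Set (ℤ × ℤ), (∀ c d, (SG Λ D w).Adj c d → c ∈ J → d ∈ J) ∧
      (∀ c, c = eW (lt (X, Y)) ∨ c = eE (lt (X, Y)) ∨ c = eS (lt (X, Y)) ∨ c = eN (lt (X, Y)) →
        c ∈ J) ∧
      ∀ c ∈ J, (c.1 + c.2) % 2 = 1 → c = iH a X Y ∨ c = iH a (X + a) Y ∨ c = iH a (X + a) (Y - b) ∨
        c = iH a (X + a) (Y - b - b) := by
  obtain ⟨t1, t2⟩ := tjI ha hb d1 d2
  obtain ⟨t3, t4⟩ := tjI ha hb h1 h2
  rw [oH_sub ha] at t4
  rw [oH_eq ha, oV_eq hb] at t2
  rw [oV_eq hb] at t4
  rcases v with ⟨v1, v2⟩ | ⟨v1, v2, v3⟩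
  · obtain ⟨-, t5⟩ := tjI ha hb v1 v2
    rw [oH_eq ha, oV_sub hb] at t5
    refine ⟨{c | c = iH a X Y ∨ c = iV b X Y ∨ c = iH a (X + a) Y ∨ c = iV b X (Y + b) ∨
      c = iV b (X - a) (Y + b) ∨ c = iH a (X + a) (Y - b)}, ?_, ?_, ?_⟩
    · rintro c d hadj (rfl | rfl | rfl | rfl | rfl | rfl)
      · rcases adjH ha hadj with ⟨-, hT⟩ | ⟨-, hT⟩
        · right; left; exact hT.unique t1
        · right; right; right; right; left; exact hT.unique t4
      · rcases adjV hb hadj with ⟨-, hT⟩ | ⟨-, hT⟩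
        · left; exact hT.unique t1.symm
        · right; right; right; right; right; exact hT.unique t5.symm
      · rcases adjH ha hadj with ⟨hΛ, -⟩ | ⟨-, hT⟩
        · exact absurd hΛ o1
        · rw [add_sub_cancel_right] at hT
          right; right; right; left; exact hT.unique t2
      · rcases adjV hb hadj with ⟨hΛ, -⟩ | ⟨-, hT⟩
        · exact absurd hΛ o2
        · rw [add_sub_cancel_right] at hT
          right; right; left; exact hT.unique t2.symm
      · rcases adjV hb hadj with ⟨hΛ, -⟩ | ⟨-, hT⟩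
        · exact absurd hΛ o3
        · rw [add_sub_cancel_right] at hT
          left; exact hT.unique t4.symm
      · rcases adjH ha hadj with ⟨hΛ, -⟩ | ⟨-, hT⟩
        · exact absurd hΛ o4
        · rw [add_sub_cancel_right] at hT
          right; left; exact hT.unique t5
    · intro c hc
      rcases sides4 ha hb hc with rfl | rfl | rfl | rfl
      · exact Or.inl rfl
      · rw [oH_eq ha]; exact Or.inr (Or.inr (Or.inl rfl))
      · exact Or.inr (Or.inl rfl)
      · rw [oV_eq hb]; exact Or.inr (Or.inr (Or.inr (Or.inl rfl)))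
    · rintro c (rfl | rfl | rfl | rfl | rfl | rfl) hc
      · exact Or.inl rfl
      · rw [iV_even] at hc; omega
      · exact Or.inr (Or.inl rfl)
      · rw [iV_even] at hc; omega
      · rw [iV_even] at hc; omega
      · exact Or.inr (Or.inr (Or.inl rfl))
  · have t5 := tjD (w := w) hb v1
    rw [oV_sub hb] at t5
    obtain ⟨-, t6⟩ := tjI ha hb v2 v3
    rw [oH_eq ha, oV_sub hb] at t6
    refine ⟨{c | c = iH a X Y ∨ c = iV b X Y ∨ c = iH a (X + a) Y ∨ c = iV b X (Y + b) ∨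
      c = iV b (X - a) (Y + b) ∨ c = iV b X (Y - b) ∨ c = iH a (X + a) (Y - b - b)}, ?_, ?_, ?_⟩
    · rintro c d hadj (rfl | rfl | rfl | rfl | rfl | rfl | rfl)
      · rcases adjH ha hadj with ⟨-, hT⟩ | ⟨-, hT⟩
        · right; left; exact hT.unique t1
        · right; right; right; right; left; exact hT.unique t4
      · rcases adjV hb hadj with ⟨-, hT⟩ | ⟨-, hT⟩
        · left; exact hT.unique t1.symm
        · right; right; right; right; right; left; exact hT.unique t5.symm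
      · rcases adjH ha hadj with ⟨hΛ, -⟩ | ⟨-, hT⟩
        · exact absurd hΛ o1
        · rw [add_sub_cancel_right] at hT
          right; right; right; left; exact hT.unique t2
      · rcases adjV hb hadj with ⟨hΛ, -⟩ | ⟨-, hT⟩
        · exact absurd hΛ o2
        · rw [add_sub_cancel_right] at hT
          right; right; left; exact hT.unique t2.symm
      · rcases adjV hb hadj with ⟨hΛ, -⟩ | ⟨-, hT⟩
        · exact absurd hΛ o3
        · rw [add_sub_cancel_right] at hT
          left; exact hT.unique t4.symm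
      · rcases adjV hb hadj with ⟨-, hT⟩ | ⟨-, hT⟩
        · right; left; exact hT.unique t5
        · right; right; right; right; right; right; exact hT.unique t6.symm
      · rcases adjH ha hadj with ⟨hΛ, -⟩ | ⟨-, hT⟩
        · exact absurd hΛ o5
        · rw [add_sub_cancel_right] at hT
          right; right; right; right; right; left; exact hT.unique t6
    · intro c hc
      rcases sides4 ha hb hc with rfl | rfl | rfl | rfl
      · exact Or.inl rfl
      · rw [oH_eq ha]; exact Or.inr (Or.inr (Or.inl rfl))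
      · exact Or.inr (Or.inl rfl)
      · rw [oV_eq hb]; exact Or.inr (Or.inr (Or.inr (Or.inl rfl)))
    · rintro c (rfl | rfl | rfl | rfl | rfl | rfl | rfl) hc
      · exact Or.inl rfl
      · rw [iV_even] at hc; omega
      · exact Or.inr (Or.inl rfl)
      · rw [iV_even] at hc; omega
      · rw [iV_even] at hc; omega
      · rw [iV_even] at hc; omega
      · exact Or.inr (Or.inr (Or.inr rfl))

end Pool.Agent.H41.W
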