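import Mathlib
import Pool.Agent.H68.W.RoomT
import Pool.Agent.H2.W.OrlE
import Pool.Agent.H41.W.Jnk

set_option autoImplicit false
open Finset

/-! # Convex corners of a shape, in tile coordinates

`Cn S h i a b A B X Y v u` : the vertex `i + 1` is convex, `(A, B)` the cell of `Q`, `(X, Y)` the diagonal tile,
the domain is in the direction `(-a, -b)` from it; `v`, `u` : index of the vertical and of the horizontal side.
`XD` : the exit of the deleted row. -/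

namespace Pool.Agent.H41.W

open Pool.Agent.H75.Perc hiding WL CT hh PB EE
open Pool.Agent.H75.TwoArm Pool.Agent.H75.Four Pool.Agent.Q1
open Pool.Agent.Q1.M4 (Cell PType IsSide nextSide tail head Good)
open Pool.Agent.H33.Q1 Pool.Agent.H21.FM
open Pool.Agent.H13.W Pool.Agent.H74.W
open Pool.Agent.H68.W (sx sx_spec sx_eq sx_lt ly_iff mem_Wp Cf isSide0 isSide1 isSide2 isSide3 dsucc dpred
  dv dq ex_iff near_Lam3)
open Pool.Agent.H37.W (dg dg_eq cvx_cells)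
open Pool.Agent.H19.W (Tq LamC sd si WC κz X1 X2 XA tyA mkI)
open Pool.Agent.H2.W.Run (dg_pos cvx_two)
open Pool.Agent.H21.W (Al)

variable {S : Shape} {h i : ℕ} {a b A B X Y x y : ℤ} {v u : ℕ} {p : ℤ × ℤ}

/-- the index after `i` -/
def nx' (S : Shape) (i : ℕ) : ℕ := if i + 1 < S.N then i + 1 else 0

structure Cn (S : Shape) (h i : ℕ) (a b A B X Y : ℤ) (v u : ℕ) : Prop where
  ha : a = 1 ∨ a = -1
  hb : b = 1 ∨ b = -1
  lti : i < S.N
  q0 : (A, B) ∈ S.P.Q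
  q1 : (A + a, B) ∉ S.P.Q
  q2 : (A, B + b) ∉ S.P.Q
  q3 : (A + a, B + b) ∉ S.P.Q
  hX : (a = 1 ∧ X = 2 * h * A + 2 * h) ∨ (a = -1 ∧ X = 2 * h * A - 1)
  hY : (b = 1 ∧ Y = 2 * h * B + 2 * h) ∨ (b = -1 ∧ Y = 2 * h * B - 1)
  dgq : dg S h i = lt (X, Y)
  hv : v = sx S.P (A, B) (if a = 1 then 1 else 3)
  hu : u = sx S.P (A, B) (if b = 1 then 2 else 0)
  ord : (a = b ∧ v = i ∧ u = nx' S i ∧ S.k i % 2 = 1) ∨
    (a ≠ b ∧ u = i ∧ v = nx' S i ∧ S.k i % 2 = 0)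
  kb : b = 1 ↔ (S.k i % 4 = 1 ∨ S.k i % 4 = 2)

/-- the side after `i` -/
lemma side_nx (hi : i < S.N) (hc : S.P.side (i + 1) = ((S.P.side i).1, (S.P.side i).2 + 1)) :
    nx' S i < S.N ∧ (S.P.side (nx' S i)).1 = (S.P.side i).1 ∧
      ((S.P.side (nx' S i)).2 - ((S.P.side i).2 + 1)) % 4 = 0 := by
  unfold nx'
  split_ifs with h1
  · rw [hc]; exact ⟨h1, rfl, by simp⟩
  · have e : i + 1 = S.N := by omega
    rw [e] at hc
    have hp : S.P.side S.N = ((S.P.side 0).1, (S.P.side 0).2 + 4) := S.P.period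
    rw [hp, Prod.mk.injEq] at hc
    exact ⟨by omega, hc.1, by omega⟩

lemma exists_cn (h : ℕ) (hi : i < S.N)
    (hc : S.P.side (i + 1) = ((S.P.side i).1, (S.P.side i).2 + 1)) :
    ∃ a b A B X Y v u, Cn S h i a b A B X Y v u := by
  obtain ⟨n1, n2, n3⟩ := side_nx hi hc
  obtain ⟨c1, c2⟩ := cvx_cells hc
  obtain ⟨t0, t1, t2, t3⟩ := cvx_two hc
  obtain ⟨p0, p1, p2, p3⟩ := dg_pos S h i
  have hs := isSide_side' S.P i
  have hs' : IsSide S.P.Q ((S.P.side i).1, (S.P.side i).2 + 1) := by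
    rw [← hc]; exact isSide_side' S.P (i + 1)
  have hk : S.k i = (S.P.side i).2 := rfl
  have e0 : S.P.side i = (((S.P.side i).1.1, (S.P.side i).1.2), (S.P.side i).2) := rfl
  rw [e0] at hs
  rw [show (S.P.side i).1 = ((S.P.side i).1.1, (S.P.side i).1.2) from rfl] at hs'
  set A := (S.P.side i).1.1 with hA
  set B := (S.P.side i).1.2 with hB
  have e1 : (S.P.side i).1 = (A, B) := rfl
  have hq : (A, B) ∈ S.P.Q := hs.1
  have h4 : S.k i % 4 = 0 ∨ S.k i % 4 = 1 ∨ S.k i % 4 = 2 ∨ S.k i % 4 = 3 := by omega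
  have key : ∀ {k k' : ℤ}, IsSide S.P.Q ((A, B), k) → (k - k') % 4 = 0 → IsSide S.P.Q ((A, B), k') :=
    fun h1 h2 => (Pool.Agent.H68.W.isSide_mod h2).1 h1
  rcases h4 with m | m | m | m
  · have s0 := isSide0.1 (key (k' := 0) hs (by omega))
    have s1 := isSide1.1 (key (k' := 1) hs' (by omega))
    refine ⟨1, -1, A, B, _, _, nx' S i, i, Or.inl rfl, Or.inr rfl, hi, hq, s1.2, by simpa [sub_eq_add_neg] using s0.2,
      by simpa [sub_eq_add_neg] using (t0 m).2, Or.inl ⟨rfl, rfl⟩, Or.inr ⟨rfl, rfl⟩, p0 m, ?_, ?_, ?_, ?_⟩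
    · exact (sx_eq n1 (n2.trans e1) (by simp only [if_true]; omega)).symm
    · exact (sx_eq hi e1 (by simp only [show ¬ ((-1 : ℤ) = 1) by decide, if_false]; omega)).symm
    · exact Or.inr ⟨by decide, rfl, rfl, by omega⟩
    · constructor
      · intro h5; exact absurd h5 (by decide)
      · intro h5; omega
  · have s0 := isSide1.1 (key (k' := 1) hs (by omega))
    have s1 := isSide2.1 (key (k' := 2) hs' (by omega))
    refine ⟨1, 1, A, B, _, _, i, nx' S i, Or.inl rfl, Or.inl rfl, hi, hq, s0.2, s1.2,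
      (t1 m).2, Or.inl ⟨rfl, rfl⟩, Or.inl ⟨rfl, rfl⟩, p1 m, ?_, ?_, ?_, ?_⟩
    · exact (sx_eq hi e1 (by simp only [if_true]; omega)).symm
    · exact (sx_eq n1 (n2.trans e1) (by simp only [if_true]; omega)).symm
    · exact Or.inl ⟨rfl, rfl, rfl, by omega⟩
    · exact ⟨fun _ => Or.inl m, fun _ => rfl⟩
  · have s0 := isSide2.1 (key (k' := 2) hs (by omega))
    have s1 := isSide3.1 (key (k' := 3) hs' (by omega))
    refine ⟨-1, 1, A, B, _, _, nx' S i, i, Or.inr rfl, Or.inl rfl, hi, hq,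
      by simpa [sub_eq_add_neg] using s1.2, s0.2,
      by simpa [sub_eq_add_neg] using (t2 m).1, Or.inr ⟨rfl, rfl⟩, Or.inl ⟨rfl, rfl⟩, p2 m, ?_, ?_, ?_, ?_⟩
    · exact (sx_eq n1 (n2.trans e1) (by simp only [show ¬ ((-1 : ℤ) = 1) by decide, if_false]; omega)).symm
    · exact (sx_eq hi e1 (by simp only [if_true]; omega)).symm
    · exact Or.inr ⟨by decide, rfl, rfl, by omega⟩
    · exact ⟨fun _ => Or.inr m, fun _ => rfl⟩
  · have s0 := isSide3.1 (key (k' := 3) hs (by omega))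
    have s1 := isSide0.1 (key (k' := 0) hs' (by omega))
    refine ⟨-1, -1, A, B, _, _, i, nx' S i, Or.inr rfl, Or.inr rfl, hi, hq,
      by simpa [sub_eq_add_neg] using s0.2, by simpa [sub_eq_add_neg] using s1.2,
      by simpa [sub_eq_add_neg] using (t3 m).1, Or.inr ⟨rfl, rfl⟩, Or.inr ⟨rfl, rfl⟩, p3 m, ?_, ?_, ?_, ?_⟩
    · exact (sx_eq hi e1 (by simp only [show ¬ ((-1 : ℤ) = 1) by decide, if_false]; omega)).symm
    · exact (sx_eq n1 (n2.trans e1) (by simp only [show ¬ ((-1 : ℤ) = 1) by decide, if_false]; omega)).symm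
    · exact Or.inl ⟨rfl, rfl, rfl, by omega⟩
    · constructor
      · intro h5; exact absurd h5 (by decide)
      · intro h5; omega

/-- `x` is on the inner side of the diagonal tile -/
def In (a X x : ℤ) : Prop := (a = 1 ∧ x < X) ∨ (a = -1 ∧ X < x)

lemma div_in {n A : ℤ} (hn : 4 ≤ n) (hX : (a = 1 ∧ X = n * A + n) ∨ (a = -1 ∧ X = n * A - 1))
    (h1 : X - 3 ≤ x) (h2 : x ≤ X + 3) : (In a X x → x / n = A) ∧ (¬ In a X x → x / n = A + a) := by
  unfold In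
  have e1 : n * (A + 1) = n * A + n := by ring
  have e2 : n * (A + -1) = n * A - n := by ring
  rcases hX with ⟨rfl, rfl⟩ | ⟨rfl, rfl⟩
  · refine ⟨fun h => dq (by omega) (by omega) (by omega), fun h => dq (by omega) (by omega) (by omega)⟩
  · refine ⟨fun h => dq (by omega) (by omega) (by omega), fun h => dq (by omega) (by omega) (by omega)⟩

section

variable (C : Cn S h i a b A B X Y v u) (hh : 2 ≤ h)
include C hh

/-- **The cells near the corner.** -/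
lemma Cn.mem_iff (h1 : X - 3 ≤ x) (h2 : x ≤ X + 3) (h3 : Y - 3 ≤ y) (h4 : y ≤ Y + 3) :
    ct (2 * h) (x, y) ∈ S.P.Q ↔ In a X x ∧ In b Y y := by
  obtain ⟨c1, c2⟩ := div_in (n := 2 * (h : ℤ)) (by omega) C.hX h1 h2
  obtain ⟨c3, c4⟩ := div_in (n := 2 * (h : ℤ)) (by omega) C.hY h3 h4
  unfold ct
  simp only
  by_cases i1 : In a X x <;> by_cases i2 : In b Y y
  · rw [c1 i1, c3 i2]; exact iff_of_true C.q0 ⟨i1, i2⟩
  · rw [c1 i1, c4 i2]; exact iff_of_false C.q2 (fun h => i2 h.2)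
  · rw [c2 i1, c3 i2]; exact iff_of_false C.q1 (fun h => i1 h.1)
  · rw [c2 i1, c4 i2]; exact iff_of_false C.q3 (fun h => i1 h.1)

lemma Cn.cell (h1 : X - 3 ≤ x) (h2 : x ≤ X + 3) (h3 : Y - 3 ≤ y) (h4 : y ≤ Y + 3)
    (i1 : In a X x) (i2 : In b Y y) : ct (2 * h) (x, y) = (A, B) := by
  obtain ⟨c1, c2⟩ := div_in (n := 2 * (h : ℤ)) (by omega) C.hX h1 h2
  obtain ⟨c3, c4⟩ := div_in (n := 2 * (h : ℤ)) (by omega) C.hY h3 h4
  unfold ct
  simp only
  rw [c1 i1, c3 i2]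

/-- the tiles beyond the wall layers -/
lemma Cn.out (h1 : X - 2 ≤ x) (h2 : x ≤ X + 2) (h3 : Y - 2 ≤ y) (h4 : y ≤ Y + 2)
    (ho : (a = 1 ∧ X < x) ∨ (a = -1 ∧ x < X) ∨ (b = 1 ∧ Y < y) ∨ (b = -1 ∧ y < Y)) :
    ¬ Tq S.P.Q (2 * h) (x, y) := by
  rintro ⟨⟨x', y'⟩, k1, k2, k3⟩
  simp only at k1 k2
  rw [abs_le] at k1 k2
  rw [C.mem_iff hh (by omega) (by omega) (by omega) (by omega)] at k3
  unfold In at k3
  omega

lemma Cn.par : (X + Y) % 2 = 0 ↔ a = b := by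
  have e1 : (2 * (h : ℤ) * A) % 2 = 0 := by
    rw [mul_assoc]; exact Int.mul_emod_right 2 _
  have e2 : (2 * (h : ℤ) * B) % 2 = 0 := by
    rw [mul_assoc]; exact Int.mul_emod_right 2 _
  rcases C.hX with ⟨rfl, h1⟩ | ⟨rfl, h1⟩ <;> rcases C.hY with ⟨rfl, h2⟩ | ⟨rfl, h2⟩ <;> omega

end

/-! ### The exit -/

structure XD (S : Shape) (h : ℕ) (p : ℤ × ℤ) (te : ℕ) (xe : ℤ) : Prop where
  ex : ∀ t, Ex S h p t ↔ t = te
  ltN : te < S.N
  k : S.k te % 4 = 1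
  le : p.1 ≤ xe
  inn : ∀ x, p.1 ≤ x → x < xe → ct (2 * h) (x, p.2) ∈ S.P.Q
  out : ct (2 * h) (xe, p.2) ∉ S.P.Q
  lft : ct (2 * h) (xe - 1, p.2) ∈ S.P.Q
  idx : te = sx S.P (ct (2 * h) (xe - 1, p.2)) 1
  cel : (S.P.side te).1 = ct (2 * h) (xe - 1, p.2)
  wall : (xe - 1) / (2 * (h : ℤ)) = xe / (2 * h) - 1 ∧ xe = 2 * h * (xe / (2 * h))
  del : ∀ x y, Pool.Agent.H33.Q1.lt (x, y) ∈ Del S.P.Q (2 * h) p ↔ y = p.2 ∧ p.1 ≤ x ∧ x ≤ xe

lemma exists_xd (hh : 1 ≤ h) (hx : ∃ t, Ex S h p t) : ∃ te xe, XD S h p te xe := by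
  obtain ⟨t, ht⟩ := hx
  have ht0 := ht
  have hn : (2 : ℤ) ≤ 2 * (h : ℤ) := by omega
  obtain ⟨t1, t2, e, ⟨e1, e2, e3, e4⟩, e5⟩ := ht
  rcases hte : tt e with ⟨xe, y⟩
  have ee : e = lt (tt e) := (lt_tt e1).symm
  rw [hte] at ee e2 e3 e4
  simp only at e2 e3 e4
  subst e2
  rw [ee, ly_iff hn t1] at e5
  obtain ⟨k0, k⟩ := e5
  have key : ∀ c kk, IsSide S.P.Q (c, kk) → t = sx S.P c kk → kk % 4 = 1 := by
    intro c kk hs' ht
    have := (sx_spec hs').2.2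
    rw [← ht] at this
    unfold Shape.k at t2
    omega
  have hL : ((xe - 1) / (2 * (h : ℤ)), p.2 / (2 * h)) ∈ S.P.Q := by
    rcases k with ⟨k1, k2⟩ | ⟨k1, k2⟩ | ⟨k1, k2⟩ | ⟨k1, k2⟩
    · exfalso
      have e1 : (p.2 + 1) / (2 * (h : ℤ)) = p.2 / (2 * h) + 1 := by
        rcases dsucc hn p.2 with a | a
        · exact absurd (a.1 ▸ k1) k0
        · exact a.1
      have := key _ _ (isSide0.2 ⟨k1, by rw [e1, add_sub_cancel_right]; exact k0⟩) k2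
      omega
    · exact k1
    · exfalso
      have e1 : (p.2 - 1) / (2 * (h : ℤ)) = p.2 / (2 * h) - 1 := by
        rcases dpred hn p.2 with a | a
        · exact absurd (a.1 ▸ k1) k0
        · exact a.1
      have := key _ _ (isSide2.2 ⟨k1, by rw [e1, sub_add_cancel]; exact k0⟩) k2
      omega
    · exfalso
      have e1 : (xe + 1) / (2 * (h : ℤ)) = xe / (2 * h) + 1 := by
        rcases dsucc hn xe with a | a
        · exact absurd (a.1 ▸ k1) k0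
        · exact a.1
      have := key _ _ (isSide3.2 ⟨k1, by rw [e1, add_sub_cancel_right]; exact k0⟩) k2
      omega
  obtain ⟨W1, W2⟩ : (xe - 1) / (2 * (h : ℤ)) = xe / (2 * h) - 1 ∧ xe = 2 * h * (xe / (2 * h)) := by
    rcases dpred hn xe with a | a
    · exact absurd (a.1 ▸ hL) k0
    · exact a
  set W := xe / (2 * (h : ℤ)) with hW
  rw [W1] at hL
  have ex : ∀ t, Ex S h p t ↔ t = sx S.P (W - 1, p.2 / (2 * (h : ℤ))) 1 := by
    intro t
    have ep : p = (p.1, p.2) := rfl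
    rw [ep]
    refine ex_iff hh (by rw [← W2]; exact e3) (fun x h1 h2 => ?_) hL k0
    rw [← W2] at h2
    exact e4 x h1 h2
  have ht' := (ex t).1 ht0
  subst ht'
  have hs : IsSide S.P.Q ((W - 1, p.2 / (2 * (h : ℤ))), 1) :=
    isSide1.2 ⟨hL, by rw [sub_add_cancel]; exact k0⟩
  refine ⟨_, xe, ex, t1, t2, e3, fun x h1 h2 => e4 x h1 h2, k0, ?_, ?_, ?_, ⟨W1, W2⟩, ?_⟩
  · unfold ct; simp only; rw [W1]; exact hL
  · unfold ct; simp only; rw [W1]
  · rw [(sx_spec hs).2.1]; unfold ct; simp only; rw [W1]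
  · intro x y
    unfold Del
    show ((Pool.Agent.H33.Q1.lt (x, y)).1 + (Pool.Agent.H33.Q1.lt (x, y)).2) % 2 = 1 ∧
      (tt (Pool.Agent.H33.Q1.lt (x, y))).2 = p.2 ∧ p.1 ≤ (tt (Pool.Agent.H33.Q1.lt (x, y))).1 ∧
      (∀ x', p.1 ≤ x' → x' < (tt (Pool.Agent.H33.Q1.lt (x, y))).1 → ct (2 * h) (x', p.2) ∈ S.P.Q) ↔ _
    rw [tt_lt]
    simp only
    constructor
    · rintro ⟨-, h1, h2, h3⟩
      refine ⟨h1, h2, ?_⟩
      by_contra h4
      exact k0 (h3 xe e3 (by omega))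
    · rintro ⟨h1, h2, h3⟩
      exact ⟨lt_odd _, h1, h2, fun x' h4 h5 => e4 x' h4 (by omega)⟩

end Pool.Agent.H41.W
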