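import Mathlib
import Pool.Agent.H41.W.Cn
import Pool.Agent.H19.W.RDef

set_option autoImplicit false
open Finset

/-! # From the glued world `GW` to the coherent world `VC` -/

namespace Pool.Agent.H41.W

open Pool.Agent.H75.Perc hiding WL CT hh PB EE
open Pool.Agent.H75.TwoArm Pool.Agent.H75.Four Pool.Agent.Q1
open Pool.Agent.H5.Q1 (oc oc_congr oc_cases)
open Pool.Agent.Q1.M4 (Cell PType IsSide nextSide tail head Good)
open Pool.Agent.H33.Q1 Pool.Agent.H21.FM
open Pool.Agent.H13.W Pool.Agent.H74.W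
open Pool.Agent.H68.W (sx sx_spec sx_eq sx_lt sx_next ly_iff mem_Wp Cf isSide0 isSide1 isSide2 isSide3
  isSide_mod dsucc dpred dv dq ex_iff near_Lam3)
open Pool.Agent.H37.W (dg dg_eq cvx_cells)
open Pool.Agent.H19.W (Tq LamC sd si WC κz X1 X2 XA tyA mkI)
open Pool.Agent.H2.W.Run (dg_pos cvx_two)
open Pool.Agent.H21.W (Al)

variable {S : Shape} {h i : ℕ} {a b A B X Y x y xe : ℤ} {v u te : ℕ} {p : ℤ × ℤ}

/-! ### Exit and colours -/

lemma XD.z (E : XD S h p te xe) :
    ct (2 * h) (p.1, p.2) ∈ S.P.Q ∨ ct (2 * h) (p.1 - 1, p.2) ∈ S.P.Q := by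
  rcases eq_or_lt_of_le E.le with h1 | h1
  · right; rw [h1]; exact E.lft
  · left; exact E.inn p.1 le_rfl h1

lemma XD.kz (E : XD S h p te xe) (i : ℕ) (y : ℤ) :
    κz S h p i y ↔ ¬ ((S.m2 ≤ i ∧ i < S.m3) ↔ (te < i ∨ (te = i ∧ p.2 < y))) := by
  unfold κz
  simp only [E.ex, exists_eq_left]

lemma XD.ne (E : XD S h p te xe) {c : Cell} {k : ℤ} (hs : IsSide S.P.Q (c, k)) (hk : k % 4 ≠ 1) :
    te ≠ sx S.P c k := by
  intro h1
  have h2 := (sx_spec hs).2.2
  rw [← h1] at h2
  have h3 := E.k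
  unfold Shape.k at h3
  omega

lemma XD.cl (E : XD S h p te xe) {c : Cell} (hs : IsSide S.P.Q (c, 1)) (h1 : te = sx S.P c 1) :
    c = ct (2 * h) (xe - 1, p.2) := by
  rw [← E.cel, h1, (sx_spec hs).2.1]

/-- a reflex corner or a straight vertex is not a mark -/
lemma nxt_idx {c c2 : Cell} {k k2 : ℤ} (hs : IsSide S.P.Q (c, k)) (hn : nextSide S.P.Q (c, k) = (c2, k2))
    (hc : c2 ≠ c) : sx S.P c2 k2 = sx S.P c k + 1 ∧ sx S.P c k + 1 ≠ S.m2 ∧ sx S.P c k + 1 ≠ S.m3 ∧
      sx S.P c k + 1 < S.N := by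
  obtain ⟨e, h1⟩ := sx_next hs hn
  obtain ⟨h2, h3, h4⟩ := sx_spec hs
  have key : ¬ (sx S.P c k + 1 = S.m2 ∨ sx S.P c k + 1 = S.m3 ∨ sx S.P c k + 1 = S.P.m ∨
      sx S.P c k + 1 = S.P.N) := by
    intro h5
    have := S.cvx _ h5
    rw [e, Prod.mk.injEq, h3] at this
    exact hc this.1
  push Not at key
  rcases h1 with ⟨h5, h6⟩ | ⟨h5, h6⟩
  · exact ⟨h6, key.1, key.2.1, h5⟩
  · exact absurd h5 key.2.2.2

/-! ### Membership -/

lemma wp_iff (E : XD S h p te xe) (hh : 1 ≤ h) : lt (x, y) ∈ Wp S h p ↔ ct (2 * h) (x, y) ∉ S.P.Q ∧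
    ((ct (2 * h) (x, y + 1) ∈ S.P.Q ∧ κz S h p (sx S.P (ct (2 * h) (x, y + 1)) 0) y) ∨
      (ct (2 * h) (x - 1, y) ∈ S.P.Q ∧ κz S h p (sx S.P (ct (2 * h) (x - 1, y)) 1) y) ∨
      (ct (2 * h) (x, y - 1) ∈ S.P.Q ∧ κz S h p (sx S.P (ct (2 * h) (x, y - 1)) 2) y) ∨
      (ct (2 * h) (x + 1, y) ∈ S.P.Q ∧ κz S h p (sx S.P (ct (2 * h) (x + 1, y)) 3) y)) := by
  have h1 := mem_Wp hh E.ex (x := x) (v := y)
  have h2 : ∀ i y, Cf S te p.2 i y ↔ κz S h p i y := fun i y => by
    rw [E.kz]; unfold Cf; exact Iff.rfl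
  simp only [h2] at h1
  exact h1

lemma wc_iff {P : PType} {n : ℤ} (hn : 0 < n) {κ : ℕ → ℤ → Prop} : lt (x, y) ∈ WC P n κ ↔
    Tq P.Q n (x, y) ∧ ct n (x, y) ∉ P.Q ∧ κ (si P n (x, y)) y := by
  classical
  unfold WC
  rw [mem_filter, Pool.Agent.H2.W.Run.mem_LamC hn, tt_lt]
  exact ⟨fun h => ⟨h.1.2, h.2⟩, fun h => ⟨⟨lt_odd _, h.1⟩, h.2⟩⟩

/-- two neighbours in `Q`: their sides have the same colour -/
lemma pairs (E : XD S h p te xe) (hh : 1 ≤ h) (h0 : ct (2 * h) (x, y) ∉ S.P.Q)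
    (hD : lt (x, y) ∉ Del S.P.Q (2 * h) p) :
    (ct (2 * h) (x - 1, y) ∈ S.P.Q → ct (2 * h) (x, y + 1) ∈ S.P.Q →
      (κz S h p (sx S.P (ct (2 * h) (x - 1, y)) 1) y ↔ κz S h p (sx S.P (ct (2 * h) (x, y + 1)) 0) y)) ∧
    (ct (2 * h) (x - 1, y) ∈ S.P.Q → ct (2 * h) (x, y - 1) ∈ S.P.Q →
      (κz S h p (sx S.P (ct (2 * h) (x - 1, y)) 1) y ↔ κz S h p (sx S.P (ct (2 * h) (x, y - 1)) 2) y)) ∧
    (ct (2 * h) (x + 1, y) ∈ S.P.Q → ct (2 * h) (x, y + 1) ∈ S.P.Q →
      (κz S h p (sx S.P (ct (2 * h) (x + 1, y)) 3) y ↔ κz S h p (sx S.P (ct (2 * h) (x, y + 1)) 0) y)) ∧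
    (ct (2 * h) (x + 1, y) ∈ S.P.Q → ct (2 * h) (x, y - 1) ∈ S.P.Q →
      (κz S h p (sx S.P (ct (2 * h) (x + 1, y)) 3) y ↔ κz S h p (sx S.P (ct (2 * h) (x, y - 1)) 2) y)) ∧
    (ct (2 * h) (x - 1, y) ∈ S.P.Q → ct (2 * h) (x + 1, y) ∉ S.P.Q) ∧
    (ct (2 * h) (x, y - 1) ∈ S.P.Q → ct (2 * h) (x, y + 1) ∉ S.P.Q) := by
  have hn : (2 : ℤ) ≤ 2 * (h : ℤ) := by omega
  have h00 : (x / (2 * (h : ℤ)), y / (2 * h)) ∉ S.P.Q := h0
  have hl : ct (2 * h) (x - 1, y) ∈ S.P.Q →
      (x - 1) / (2 * (h : ℤ)) = x / (2 * h) - 1 ∧ x = 2 * h * (x / (2 * h)) := fun h1 => by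
    rcases dpred hn x with c | c
    · exact absurd (show (x / (2 * (h : ℤ)), y / (2 * h)) ∈ S.P.Q from c.1 ▸ h1) h00
    · exact c
  have hr : ct (2 * h) (x + 1, y) ∈ S.P.Q →
      (x + 1) / (2 * (h : ℤ)) = x / (2 * h) + 1 ∧ x + 1 = 2 * h * (x / (2 * h)) + 2 * h := fun h1 => by
    rcases dsucc hn x with c | c
    · exact absurd (show (x / (2 * (h : ℤ)), y / (2 * h)) ∈ S.P.Q from c.1 ▸ h1) h00
    · exact c
  have hd : ct (2 * h) (x, y - 1) ∈ S.P.Q →
      (y - 1) / (2 * (h : ℤ)) = y / (2 * h) - 1 ∧ y = 2 * h * (y / (2 * h)) := fun h1 => by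
    rcases dpred hn y with c | c
    · exact absurd (show (x / (2 * (h : ℤ)), y / (2 * h)) ∈ S.P.Q from c.1 ▸ h1) h00
    · exact c
  have hu : ct (2 * h) (x, y + 1) ∈ S.P.Q →
      (y + 1) / (2 * (h : ℤ)) = y / (2 * h) + 1 ∧ y + 1 = 2 * h * (y / (2 * h)) + 2 * h := fun h1 => by
    rcases dsucc hn y with c | c
    · exact absurd (show (x / (2 * (h : ℤ)), y / (2 * h)) ∈ S.P.Q from c.1 ▸ h1) h00
    · exact c
  -- sides
  have sl : ∀ h1 : ct (2 * h) (x - 1, y) ∈ S.P.Q, IsSide S.P.Q (ct (2 * h) (x - 1, y), 1) := fun h1 =>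
    isSide1.2 ⟨h1, by rw [(hl h1).1, sub_add_cancel]; exact h00⟩
  have sr : ∀ h1 : ct (2 * h) (x + 1, y) ∈ S.P.Q, IsSide S.P.Q (ct (2 * h) (x + 1, y), 3) := fun h1 =>
    isSide3.2 ⟨h1, by rw [(hr h1).1, add_sub_cancel_right]; exact h00⟩
  have sb : ∀ h1 : ct (2 * h) (x, y - 1) ∈ S.P.Q, IsSide S.P.Q (ct (2 * h) (x, y - 1), 2) := fun h1 =>
    isSide2.2 ⟨h1, by rw [(hd h1).1, sub_add_cancel]; exact h00⟩
  have su : ∀ h1 : ct (2 * h) (x, y + 1) ∈ S.P.Q, IsSide S.P.Q (ct (2 * h) (x, y + 1), 0) := fun h1 =>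
    isSide0.2 ⟨h1, by rw [(hu h1).1, add_sub_cancel_right]; exact h00⟩
  refine ⟨fun h1 h2 => ?_, fun h1 h2 => ?_, fun h1 h2 => ?_, fun h1 h2 => ?_, fun h1 h2 => ?_,
    fun h1 h2 => ?_⟩
  · -- left, above
    have hnx : nextSide S.P.Q (ct (2 * h) (x - 1, y), 1) = (ct (2 * h) (x, y + 1), 0) := by
      have e : (ct (2 * h) (x - 1, y) + dir 1 + dir (1 - 1) : Cell) = ct (2 * h) (x, y + 1) := by
        unfold ct dir
        refine Prod.ext ?_ ?_
        · simp [(hl h1).1]
        · simp [(hu h2).1]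
      unfold nextSide
      simp only [e, if_pos h2]
      norm_num
    obtain ⟨k1, k2, k3, k4⟩ := nxt_idx (sl h1) hnx (by
      intro hc; have := congrArg Prod.snd hc; unfold ct at this; simp only at this
      have := (hu h2).1; omega)
    have n1 := E.ne (su h2) (by norm_num)
    rw [E.kz, E.kz, k1]
    rw [k1] at n1
    have n2 : te = sx S.P (ct (2 * h) (x - 1, y)) 1 → p.2 < y := by
      intro ht
      have c1 := E.cl (sl h1) ht
      unfold ct at c1
      rw [Prod.mk.injEq] at c1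
      obtain ⟨c1, c2⟩ := c1
      have w := E.wall
      have hxe : xe = x := by
        rw [w.2, (hl h1).2]
        rw [(hl h1).1, w.1] at c1
        congr 1
        omega
      have d1 := (dv (show 0 < 2 * (h : ℤ) by omega) p.2).2
      simp only at c2
      rw [← c2] at d1
      have d2 := (hu h2).2
      rcases lt_or_eq_of_le (show p.2 ≤ y by omega) with h3 | h3
      · exact h3
      · exfalso
        apply hD
        rw [E.del]
        exact ⟨h3.symm, by rw [← hxe]; exact E.le, hxe.symm.le⟩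
    omega
  · -- left, below
    have hnx : nextSide S.P.Q (ct (2 * h) (x, y - 1), 2) = (ct (2 * h) (x - 1, y), 1) := by
      have e : (ct (2 * h) (x, y - 1) + dir 2 + dir (2 - 1) : Cell) = ct (2 * h) (x - 1, y) := by
        unfold ct dir
        refine Prod.ext ?_ ?_
        · simp only [Prod.fst_add]; simp; linarith [(hl h1).1]
        · simp [(hd h2).1]
      unfold nextSide
      simp only [e, if_pos h1]
      norm_num
    obtain ⟨k1, k2, k3, k4⟩ := nxt_idx (sb h2) hnx (by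
      intro hc; have := congrArg Prod.snd hc; unfold ct at this; simp only at this
      have := (hd h2).1; omega)
    have n1 := E.ne (sb h2) (by norm_num)
    rw [E.kz, E.kz, k1]
    have n2 : te = sx S.P (ct (2 * h) (x, y - 1)) 2 + 1 → ¬ p.2 < y := by
      intro ht
      rw [← k1] at ht
      have c1 := E.cl (sl h1) ht
      unfold ct at c1
      rw [Prod.mk.injEq] at c1
      have d1 := (dv (show 0 < 2 * (h : ℤ) by omega) p.2).1
      have c2 := c1.2
      simp only at c2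
      rw [← c2] at d1
      have d2 := (hd h2).2
      omega
    omega
  · -- right, above
    have hnx : nextSide S.P.Q (ct (2 * h) (x, y + 1), 0) = (ct (2 * h) (x + 1, y), -1) := by
      have e : (ct (2 * h) (x, y + 1) + dir 0 + dir (0 - 1) : Cell) = ct (2 * h) (x + 1, y) := by
        unfold ct dir
        refine Prod.ext ?_ ?_
        · simp [(hr h1).1]
        · simp [(hu h2).1]
      unfold nextSide
      simp only [e, if_pos h1]
      norm_num
    obtain ⟨k1, k2, k3, k4⟩ := nxt_idx (su h2) hnx (by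
      intro hc; have := congrArg Prod.snd hc; unfold ct at this; simp only at this
      have := (hu h2).1; omega)
    have e3 : sx S.P (ct (2 * h) (x + 1, y)) (-1) = sx S.P (ct (2 * h) (x + 1, y)) 3 := by
      obtain ⟨q1, q2, q3⟩ := sx_spec (sr h1)
      exact sx_eq q1 q2 (by omega)
    rw [e3] at k1
    have n1 := E.ne (su h2) (by norm_num)
    have n2 := E.ne (sr h1) (by norm_num)
    rw [E.kz, E.kz]
    omega
  · -- right, below
    have hnx : nextSide S.P.Q (ct (2 * h) (x + 1, y), 3) = (ct (2 * h) (x, y - 1), 2) := by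
      have e : (ct (2 * h) (x + 1, y) + dir 3 + dir (3 - 1) : Cell) = ct (2 * h) (x, y - 1) := by
        unfold ct dir
        refine Prod.ext ?_ ?_
        · simp [(hr h1).1]
        · simp only [Prod.snd_add]; simp; linarith [(hd h2).1]
      unfold nextSide
      simp only [e, if_pos h2]
      norm_num
    obtain ⟨k1, k2, k3, k4⟩ := nxt_idx (sr h1) hnx (by
      intro hc; have := congrArg Prod.snd hc; unfold ct at this; simp only at this
      have := (hd h2).1; omega)
    have n1 := E.ne (sb h2) (by norm_num)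
    have n2 := E.ne (sr h1) (by norm_num)
    rw [E.kz, E.kz]
    omega
  · have := hl h1
    have := hr h2
    omega
  · have := hd h1
    have := hu h2
    omega

/-- **Wall layers have the same state in both worlds.** -/
lemma agree (E : XD S h p te xe) (hh : 1 ≤ h) (h0 : ct (2 * h) (x, y) ∉ S.P.Q)
    (hD : lt (x, y) ∉ Del S.P.Q (2 * h) p)
    (hq : ct (2 * h) (x, y + 1) ∈ S.P.Q ∨ ct (2 * h) (x - 1, y) ∈ S.P.Q ∨ ct (2 * h) (x, y - 1) ∈ S.P.Q ∨
      ct (2 * h) (x + 1, y) ∈ S.P.Q) :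
    lt (x, y) ∈ Wp S h p ↔ lt (x, y) ∈ WC S.P (2 * h) (κz S h p) := by
  obtain ⟨p1, p2, p3, p4, p5, p6⟩ := pairs E hh h0 hD
  rw [wp_iff E hh, wc_iff (by omega)]
  have ht : Tq S.P.Q (2 * h) (x, y) := by
    rcases hq with k | k | k | k
    · exact ⟨(x, y + 1), by simp, by simp, k⟩
    · exact ⟨(x - 1, y), by simp, by simp, k⟩
    · exact ⟨(x, y - 1), by simp, by simp, k⟩
    · exact ⟨(x + 1, y), by simp, by simp, k⟩
  simp only [h0, ht, not_false_iff, true_and]
  unfold si sd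
  simp only
  by_cases c1 : ct (2 * h) (x - 1, y) ∈ S.P.Q
  · have c2 := p5 c1
    simp only [c1, if_true, true_and, c2, false_and, or_false]
    constructor
    · rintro (⟨k1, k2⟩ | k2 | ⟨k1, k2⟩)
      · exact (p1 c1 k1).2 k2
      · exact k2
      · exact (p2 c1 k1).2 k2
    · exact fun k => Or.inr (Or.inl k)
  · by_cases c2 : ct (2 * h) (x + 1, y) ∈ S.P.Q
    · simp only [c1, c2, if_true, if_false, true_and, false_and, false_or]
      constructor
      · rintro (⟨k1, k2⟩ | ⟨k1, k2⟩ | k2)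
        · exact (p3 c2 k1).2 k2
        · exact (p4 c2 k1).2 k2
        · exact k2
      · exact fun k => Or.inr (Or.inr k)
    · by_cases c3 : ct (2 * h) (x, y - 1) ∈ S.P.Q
      · have c4 := p6 c3
        simp only [c1, c2, c3, c4, if_true, if_false, true_and, false_and, false_or, or_false]
      · have c4 : ct (2 * h) (x, y + 1) ∈ S.P.Q := by tauto
        simp only [c1, c2, c3, c4, if_true, if_false, true_and, false_and, or_false]

/-! ### The corner and the exit -/

section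

variable (C : Cn S h i a b A B X Y v u) (E : XD S h p te xe) (hh : 2 ≤ h)
include C

lemma Cn.sv : IsSide S.P.Q ((A, B), if a = 1 then 1 else 3) := by
  have h0 := C.q0
  have h1 := C.q1
  rcases C.ha with rfl | rfl
  · rw [if_pos rfl]; exact isSide1.2 ⟨h0, h1⟩
  · rw [if_neg (by decide)]; exact isSide3.2 ⟨h0, h1⟩

lemma Cn.su : IsSide S.P.Q ((A, B), if b = 1 then 2 else 0) := by
  have h0 := C.q0
  have h1 := C.q2
  rcases C.hb with rfl | rfl
  · rw [if_pos rfl]; exact isSide2.2 ⟨h0, h1⟩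
  · rw [if_neg (by decide)]; exact isSide0.2 ⟨h0, h1⟩

include E

lemma Cn.te_u : te ≠ u := by
  rw [C.hu]
  refine E.ne C.su ?_
  split_ifs <;> norm_num

include hh

/-- the exit is in the vertical side -/
lemma Cn.te_v (h1 : te = v) : a = 1 ∧ xe = X ∧ (b = 1 → p.2 < Y) ∧ (b = -1 → Y < p.2) := by
  have ha : a = 1 := by
    rcases C.ha with h2 | h2
    · exact h2
    · exfalso
      have h3 := C.sv
      have h4 := C.hv
      rw [if_neg (by omega)] at h3 h4
      exact E.ne h3 (by norm_num) (h1.trans h4)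
  have h3 := C.sv
  have h4 := C.hv
  rw [if_pos ha] at h3 h4
  have h5 := E.cl h3 (h1.trans h4)
  unfold ct at h5
  rw [Prod.mk.injEq] at h5
  simp only at h5
  have w := E.wall
  have d := dv (show 0 < 2 * (h : ℤ) by omega) p.2
  rw [← h5.2] at d
  have hX := C.hX
  have hY := C.hY
  refine ⟨ha, ?_, fun hb => ?_, fun hb => ?_⟩
  · have e1 : xe / (2 * (h : ℤ)) = A + 1 := by omega
    rw [w.2, e1]
    have : 2 * (h : ℤ) * (A + 1) = 2 * h * A + 2 * h := by ring
    omega
  · omega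
  · omega

lemma Cn.nD (h1 : X - 2 ≤ x) (h2 : x ≤ X + 2) : lt (x, Y) ∉ Del S.P.Q (2 * h) p := by
  rw [E.del]
  rintro ⟨h3, h4, h5⟩
  have h6 : ct (2 * h) (x, Y) ∉ S.P.Q := by
    rw [C.mem_iff hh (by omega) (by omega) (by omega) (by omega)]
    unfold In; omega
  rcases lt_or_eq_of_le h5 with h7 | h7
  · exact h6 (by rw [h3]; exact E.inn x h4 h7)
  · have h8 := E.lft
    rw [← h7, ← h3, C.mem_iff hh (by omega) (by omega) (by omega) (by omega)] at h8
    unfold In at h8; omega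

/-- the deleted neighbour -/
lemma Cn.delV (h1 : lt (X, Y - b) ∈ Del S.P.Q (2 * h) p) : te = v ∧ a = 1 ∧ p.2 = Y - b := by
  have hb := C.hb
  rw [E.del] at h1
  obtain ⟨h2, h3, h4⟩ := h1
  have h6 : ct (2 * h) (X, Y - b) ∉ S.P.Q := by
    rw [C.mem_iff hh (by omega) (by omega) (by omega) (by omega)]
    unfold In; omega
  have h7 : X = xe := by
    rcases lt_or_eq_of_le h4 with h7 | h7
    · exact absurd (by rw [h2]; exact E.inn X h3 h7) h6
    · exact h7
  have h8 := E.lft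
  have h9 := h8
  rw [← h7, ← h2, C.mem_iff hh (by omega) (by omega) (by omega) (by omega)] at h9
  have ha : a = 1 := by
    have := h9.1
    unfold In at this
    omega
  refine ⟨?_, ha, h2.symm⟩
  have h10 := C.cell hh (x := X - 1) (y := Y - b) (by omega) (by omega) (by omega) (by omega) h9.1 h9.2
  rw [E.idx, ← h7, ← h2, h10, C.hv, if_pos ha]

/-- the colours of the two walls at a vertex which is not a mark -/
lemma Cn.col_eq (h1 : i + 1 ≠ S.m2) (h2 : i + 1 ≠ S.m3) (h3 : i + 1 ≠ S.N) :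
    κz S h p v Y ↔ κz S h p u Y := by
  have n1 := C.te_u E
  have n2 := C.te_v E hh
  have n3 := C.lti
  have hb := C.hb
  have ho := C.ord
  unfold nx' at ho
  rw [if_pos (by omega)] at ho
  rw [E.kz, E.kz]
  by_cases h4 : te = v
  · obtain ⟨k1, k2, k3, k4⟩ := n2 h4
    rcases hb with hb | hb
    · have := k3 hb; omega
    · have := k4 hb; omega
  · omega

/-- the colours of the two walls at a mark -/
lemma Cn.col_ne (h1 : i + 1 = S.m2 ∨ i + 1 = S.m3 ∨ i + 1 = S.N) :
    κz S h p v Y ↔ ¬ κz S h p u Y := by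
  have n1 := C.te_u E
  have n2 := C.te_v E hh
  have n3 := C.lti
  have n4 := E.ltN
  have hb := C.hb
  have ho := C.ord
  have a1 := S.h02
  have a2 := S.h23
  have a3 := S.h34
  have a4 := S.P.hmN
  have a5 : S.N = S.P.N := rfl
  unfold nx' at ho
  rw [E.kz, E.kz]
  by_cases h5 : i + 1 = S.N
  · rw [if_neg (by omega)] at ho
    by_cases h4 : te = v
    · obtain ⟨k1, k2, k3, k4⟩ := n2 h4
      rcases hb with hb | hb
      · have := k3 hb; omega
      · have := k4 hb; omega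
    · omega
  · rw [if_pos (by omega)] at ho
    by_cases h4 : te = v
    · obtain ⟨k1, k2, k3, k4⟩ := n2 h4
      rcases hb with hb | hb
      · have := k3 hb; omega
      · have := k4 hb; omega
    · omega

lemma Cn.col_V (h1 : lt (X, Y - b) ∉ Del S.P.Q (2 * h) p) :
    κz S h p v (Y - b) ↔ κz S h p v Y := by
  rw [E.kz, E.kz]
  by_cases h4 : te = v
  · obtain ⟨k1, k2, k3, k4⟩ := C.te_v E hh h4
    have h5 : Y - b ≠ p.2 := by
      intro h5
      apply h1
      rw [E.del]
      exact ⟨h5, by rw [← k2]; exact E.le, k2.symm.le⟩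
    rcases C.hb with hb | hb
    · have := k3 hb; omega
    · have := k4 hb; omega
  · omega

lemma Cn.col_V' (h1 : lt (X, Y - b) ∈ Del S.P.Q (2 * h) p) :
    κz S h p v (Y - b - b) ↔ ¬ κz S h p v Y := by
  obtain ⟨h2, h3, h4⟩ := C.delV E hh h1
  rw [E.kz, E.kz]
  have hb := C.hb
  omega

/-! states -/

lemma Cn.wpd : lt (X, Y) ∉ Wp S h p := by
  rw [wp_iff E (by omega)]
  rintro ⟨-, h1⟩
  have hb := C.hb
  have ha := C.ha
  rcases h1 with ⟨h1, -⟩ | ⟨h1, -⟩ | ⟨h1, -⟩ | ⟨h1, -⟩ <;>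
    rw [C.mem_iff hh (by omega) (by omega) (by omega) (by omega)] at h1 <;> unfold In at h1 <;> omega

lemma Cn.wpH : lt (X - a, Y) ∈ Wp S h p ↔ κz S h p u Y := by
  have hb := C.hb
  have ha := C.ha
  have cell : ct (2 * h) (X - a, Y - b) = (A, B) := by
    refine C.cell hh (by omega) (by omega) (by omega) (by omega) ?_ ?_ <;> unfold In <;> omega
  have m0 : ct (2 * h) (X - a, Y) ∉ S.P.Q := by
    rw [C.mem_iff hh (by omega) (by omega) (by omega) (by omega)]; unfold In; omega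
  have m1 : ct (2 * h) (X - a - 1, Y) ∉ S.P.Q := by
    rw [C.mem_iff hh (by omega) (by omega) (by omega) (by omega)]; unfold In; omega
  have m2 : ct (2 * h) (X - a + 1, Y) ∉ S.P.Q := by
    rw [C.mem_iff hh (by omega) (by omega) (by omega) (by omega)]; unfold In; omega
  rw [wp_iff E (by omega)]
  simp only [m0, m1, m2, not_false_iff, true_and, false_and, or_false, false_or]
  rw [C.hu]
  rcases hb with hb | hb
  · have m3 : ct (2 * h) (X - a, Y + 1) ∉ S.P.Q := by
      rw [C.mem_iff hh (by omega) (by omega) (by omega) (by omega)]; unfold In; omega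
    rw [hb] at cell
    simp only [m3, false_and, false_or, cell, C.q0, true_and, if_pos hb]
  · have m3 : ct (2 * h) (X - a, Y - 1) ∉ S.P.Q := by
      rw [C.mem_iff hh (by omega) (by omega) (by omega) (by omega)]; unfold In; omega
    rw [hb, sub_neg_eq_add] at cell
    simp only [m3, false_and, or_false, cell, C.q0, true_and, if_neg (show ¬ b = 1 by omega)]

lemma Cn.wpV {y : ℤ} (hy : y = Y - b ∨ y = Y - b - b) : lt (X, y) ∈ Wp S h p ↔ κz S h p v y := by
  have hb := C.hb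
  have ha := C.ha
  have cell : ct (2 * h) (X - a, y) = (A, B) := by
    refine C.cell hh (by omega) (by omega) (by omega) (by omega) ?_ ?_ <;> unfold In <;> omega
  have m0 : ct (2 * h) (X, y) ∉ S.P.Q := by
    rw [C.mem_iff hh (by omega) (by omega) (by omega) (by omega)]; unfold In; omega
  have m1 : ct (2 * h) (X, y - 1) ∉ S.P.Q := by
    rw [C.mem_iff hh (by omega) (by omega) (by omega) (by omega)]; unfold In; omega
  have m2 : ct (2 * h) (X, y + 1) ∉ S.P.Q := by
    rw [C.mem_iff hh (by omega) (by omega) (by omega) (by omega)]; unfold In; omega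
  rw [wp_iff E (by omega)]
  simp only [m0, m1, m2, not_false_iff, true_and, false_and, or_false, false_or]
  rw [C.hv]
  rcases ha with ha | ha
  · have m3 : ct (2 * h) (X + 1, y) ∉ S.P.Q := by
      rw [C.mem_iff hh (by omega) (by omega) (by omega) (by omega)]; unfold In; omega
    rw [ha] at cell
    simp only [m3, false_and, or_false, cell, C.q0, true_and, if_pos ha]
  · have m3 : ct (2 * h) (X - 1, y) ∉ S.P.Q := by
      rw [C.mem_iff hh (by omega) (by omega) (by omega) (by omega)]; unfold In; omega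
    rw [ha, sub_neg_eq_add] at cell
    simp only [m3, false_and, false_or, cell, C.q0, true_and, if_neg (show ¬ a = 1 by omega)]

omit E in
/-- the diagonal tile in the coherent world -/
lemma Cn.wcd {κ : ℕ → ℤ → Prop} : lt (X, Y) ∈ WC S.P (2 * h) κ ↔ κ v Y := by
  have hb := C.hb
  have ha := C.ha
  have cell : ct (2 * h) (X - a, Y - b) = (A, B) := by
    refine C.cell hh (by omega) (by omega) (by omega) (by omega) ?_ ?_ <;> unfold In <;> omega
  have m0 : ct (2 * h) (X, Y) ∉ S.P.Q := by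
    rw [C.mem_iff hh (by omega) (by omega) (by omega) (by omega)]; unfold In; omega
  have m1 : ct (2 * h) (X - 1, Y) ∉ S.P.Q := by
    rw [C.mem_iff hh (by omega) (by omega) (by omega) (by omega)]; unfold In; omega
  have m2 : ct (2 * h) (X + 1, Y) ∉ S.P.Q := by
    rw [C.mem_iff hh (by omega) (by omega) (by omega) (by omega)]; unfold In; omega
  have m3 : ct (2 * h) (X, Y - 1) ∉ S.P.Q := by
    rw [C.mem_iff hh (by omega) (by omega) (by omega) (by omega)]; unfold In; omega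
  have m4 : ct (2 * h) (X, Y + 1) ∉ S.P.Q := by
    rw [C.mem_iff hh (by omega) (by omega) (by omega) (by omega)]; unfold In; omega
  have ht : Tq S.P.Q (2 * h) (X, Y) := by
    refine ⟨(X - a, Y - b), ?_, ?_, by rw [cell]; exact C.q0⟩
    · simp only; rw [abs_le]; omega
    · simp only; rw [abs_le]; omega
  have e : si S.P (2 * h) (X, Y) = v := by
    unfold si sd
    simp only [m1, m2, m3, m4, if_false]
    rw [C.hv]
    rcases ha with ha | ha <;> rcases hb with hb | hb
    · rw [ha, hb] at cell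
      simp only [cell, C.q0, if_true, if_pos ha]
    · have m5 : ct (2 * h) (X - 1, Y - 1) ∉ S.P.Q := by
        rw [C.mem_iff hh (by omega) (by omega) (by omega) (by omega)]; unfold In; omega
      rw [ha, hb, sub_neg_eq_add] at cell
      simp only [m5, cell, C.q0, if_true, if_false, if_pos ha]
    · have m5 : ct (2 * h) (X - 1, Y - 1) ∉ S.P.Q := by
        rw [C.mem_iff hh (by omega) (by omega) (by omega) (by omega)]; unfold In; omega
      have m6 : ct (2 * h) (X - 1, Y + 1) ∉ S.P.Q := by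
        rw [C.mem_iff hh (by omega) (by omega) (by omega) (by omega)]; unfold In; omega
      rw [ha, hb, sub_neg_eq_add] at cell
      simp only [m5, m6, cell, C.q0, if_true, if_false, if_neg (show ¬ a = 1 by omega)]
    · have m5 : ct (2 * h) (X - 1, Y - 1) ∉ S.P.Q := by
        rw [C.mem_iff hh (by omega) (by omega) (by omega) (by omega)]; unfold In; omega
      have m6 : ct (2 * h) (X - 1, Y + 1) ∉ S.P.Q := by
        rw [C.mem_iff hh (by omega) (by omega) (by omega) (by omega)]; unfold In; omega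
      have m7 : ct (2 * h) (X + 1, Y - 1) ∉ S.P.Q := by
        rw [C.mem_iff hh (by omega) (by omega) (by omega) (by omega)]; unfold In; omega
      rw [ha, hb, sub_neg_eq_add, sub_neg_eq_add] at cell
      simp only [m5, m6, m7, cell, if_false, if_neg (show ¬ a = 1 by omega)]
  rw [wc_iff (by omega), e]
  exact ⟨fun h1 => h1.2.2, fun h1 => ⟨ht, m0, h1⟩⟩

end

end Pool.Agent.H41.W
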