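import Mathlib
import Pool.Agent.H41.W.GC

set_option autoImplicit false
open Finset

/-! # From the glued world `GW` to the coherent world `VC`: the theorem

`gc` : for the tile `p` of the polygon or of a right wall layer: if the end `eW (lt p)` is joined to `yy S h p j` in
the glued world then it is joined to the alive loose side `XA` at the same mark in the coherent world. -/

namespace Pool.Agent.H41.W

open Pool.Agent.H75.Perc hiding WL CT hh PB EE
open Pool.Agent.H75.TwoArm Pool.Agent.H75.Four Pool.Agent.Q1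
open Pool.Agent.H5.Q1 (oc oc_congr oc_cases)
open Pool.Agent.Q1.M4 (Cell PType IsSide nextSide tail head Good)
open Pool.Agent.H33.Q1 Pool.Agent.H21.FM
open Pool.Agent.H13.W Pool.Agent.H74.W
open Pool.Agent.H68.W (sx sx_spec sx_eq sx_lt sx_next ly_iff mem_Wp Cf isSide0 isSide1 isSide2 isSide3
  isSide_mod dsucc dpred dv dq ex_iff near_Lam3)
open Pool.Agent.H37.W (dg dg_eq cvx_cells)
open Pool.Agent.H19.W (Tq LamC sd si WC κz X1 X2 XA tyA mkI ea we)
open Pool.Agent.H2.W.Run (dg_pos cvx_two mkI_cvx ea_lt' we_lt')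
open Pool.Agent.H21.W (Al)

variable {S : Shape} {h i : ℕ} {a b A B X Y x y xe : ℤ} {v u te : ℕ} {p : ℤ × ℤ}
  {ω : Finset (ℤ × ℤ)}

lemma iH_eW (ha : a = 1 ∨ a = -1) (h1 : iH a x y = eW (lt p)) :
    (p = (x, y) ∧ (p.1 - 1, p.2) = (x - a, y)) ∨ (p = (x - a, y) ∧ (p.1 - 1, p.2) = (x, y)) := by
  unfold iH at h1
  rcases ha with rfl | rfl
  · rw [if_pos rfl] at h1
    have h2 : p = (x, y) := (lt_inj h1).symm
    left; rw [h2]; exact ⟨rfl, rfl⟩
  · rw [if_neg (by decide), Pool.Agent.H21.W.eE_lt] at h1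
    have h2 : p = (x + 1, y) := (lt_inj h1).symm
    right; rw [h2]
    exact ⟨by rw [sub_neg_eq_add], by simp⟩

lemma XD.z_ne (E : XD S h p te xe) (ha : a = 1 ∨ a = -1) (h1 : ct (2 * h) (x, y) ∉ S.P.Q)
    (h2 : ct (2 * h) (x - a, y) ∉ S.P.Q) : eW (lt p) ≠ iH a x y := by
  intro h3
  have hz := E.z
  rcases iH_eW ha h3.symm with ⟨h4, h5⟩ | ⟨h4, h5⟩
  · rw [h5] at hz
    rw [show ((p.1, p.2) : ℤ × ℤ) = p from rfl, h4] at hz
    tauto
  · rw [h5] at hz
    rw [show ((p.1, p.2) : ℤ × ℤ) = p from rfl, h4] at hz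
    tauto

/-! ### The tiles of the glued world -/

lemma mem_Lam3 {e : ℤ × ℤ} : e ∈ Lam3 S h ↔ e ∈ EE S h ∨ (∃ i < S.N, e ∈ LY (2 * h) (S.P.side i)) ∨
    ∃ i < S.N, Cv S i ∧ dg S h i = e := by
  classical
  unfold Lam3
  rw [mem_union, mem_union, mem_biUnion, mem_image, or_assoc]
  simp only [mem_range, mem_filter, and_assoc]

/-- a tile of a wall layer -/
lemma ly_nb (hh : 1 ≤ h) (hi : i < S.N) (h1 : lt (x, y) ∈ LY (2 * h) (S.P.side i)) :
    ct (2 * h) (x, y) ∉ S.P.Q ∧
    (ct (2 * h) (x, y + 1) ∈ S.P.Q ∨ ct (2 * h) (x - 1, y) ∈ S.P.Q ∨ ct (2 * h) (x, y - 1) ∈ S.P.Q ∨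
      ct (2 * h) (x + 1, y) ∈ S.P.Q) := by
  rw [ly_iff (by omega) hi] at h1
  obtain ⟨h2, h3⟩ := h1
  refine ⟨h2, ?_⟩
  rcases h3 with ⟨k, -⟩ | ⟨k, -⟩ | ⟨k, -⟩ | ⟨k, -⟩
  · exact Or.inl k
  · exact Or.inr (Or.inl k)
  · exact Or.inr (Or.inr (Or.inl k))
  · exact Or.inr (Or.inr (Or.inr k))

lemma Cn.tq (C : Cn S h i a b A B X Y v u) (hh : 2 ≤ h) : Tq S.P.Q (2 * h) (X, Y) := by
  have hb := C.hb
  have ha := C.ha
  have cell : ct (2 * h) (X - a, Y - b) = (A, B) := by
    refine C.cell hh (by omega) (by omega) (by omega) (by omega) ?_ ?_ <;> unfold In <;> omega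
  refine ⟨(X - a, Y - b), ?_, ?_, by rw [cell]; exact C.q0⟩
  · simp only; rw [abs_le]; omega
  · simp only; rw [abs_le]; omega

/-- **The tiles of the glued world touch the polygon.** -/
lemma lam3_sub (hh : 2 ≤ h) {e : ℤ × ℤ} (he : e ∈ Lam3 S h) : e ∈ LamC S.P.Q (2 * h) := by
  rw [Pool.Agent.H2.W.Run.mem_LamC (by omega)]
  rcases mem_Lam3.1 he with h1 | ⟨i, hi, h1⟩ | ⟨i, hi, h1, h2⟩
  · unfold EE at h1
    rw [mem_TL (by omega)] at h1
    exact ⟨h1.1, tt e, by simp, by simp, h1.2⟩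
  · have ho : (e.1 + e.2) % 2 = 1 := ((mem_LY (by omega)).1 h1).1
    refine ⟨ho, ?_⟩
    have ee : e = lt ((tt e).1, (tt e).2) := (lt_tt ho).symm
    rw [ee] at h1
    obtain ⟨-, h2⟩ := ly_nb (by omega) hi h1
    rcases h2 with k | k | k | k
    · exact ⟨_, by simp, by simp, k⟩
    · exact ⟨_, by simp, by simp, k⟩
    · exact ⟨_, by simp, by simp, k⟩
    · exact ⟨_, by simp, by simp, k⟩
  · obtain ⟨a, b, A, B, X, Y, v, u, C⟩ := exists_cn h hi h1.1
    rw [← h2, C.dgq, tt_lt]
    exact ⟨lt_odd _, C.tq hh⟩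

lemma Cn.not_lam (C : Cn S h i a b A B X Y v u) (hh : 2 ≤ h) (h1 : X - 2 ≤ x) (h2 : x ≤ X + 2)
    (h3 : Y - 2 ≤ y) (h4 : y ≤ Y + 2)
    (ho : (a = 1 ∧ X < x) ∨ (a = -1 ∧ x < X) ∨ (b = 1 ∧ Y < y) ∨ (b = -1 ∧ y < Y)) :
    lt (x, y) ∉ (Lam3 S h : Set (ℤ × ℤ)) := by
  intro h5
  have h6 := lam3_sub hh (mem_coe.1 h5)
  rw [Pool.Agent.H2.W.Run.mem_LamC (by omega), tt_lt] at h6
  exact C.out hh h1 h2 h3 h4 ho h6.2

section

variable (C : Cn S h i a b A B X Y v u) (E : XD S h p te xe) (hh : 2 ≤ h) (hω : ω ⊆ EE S h)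
include C hh hω

lemma Cn.no (h1 : X - 3 ≤ x) (h2 : x ≤ X + 3) (h3 : Y - 3 ≤ y) (h4 : y ≤ Y + 3)
    (h5 : ¬ (In a X x ∧ In b Y y)) : lt (x, y) ∉ ω := by
  intro h6
  have h7 := hω h6
  unfold EE at h7
  rw [lt_mem_TL (by omega), C.mem_iff hh h1 h2 h3 h4] at h7
  exact h5 h7

include E

/-- **An open diagonal tile at a vertex which is not a mark is irrelevant.** -/
lemma Cn.junk (h1 : i + 1 ≠ S.m2) (h2 : i + 1 ≠ S.m3) (h3 : i + 1 ≠ S.N) (ho : κz S h p v Y) {c : ℤ × ℤ}
    (hc : c = eW (lt (X, Y)) ∨ c = eE (lt (X, Y)) ∨ c = eS (lt (X, Y)) ∨ c = eN (lt (X, Y))) :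
    ¬ (GW S h p ω).Reachable (eW (lt p)) c := by
  have hb := C.hb
  have ha := C.ha
  have par := C.par hh
  have hu := (C.col_eq E hh h1 h2 h3).1 ho
  have wd : lt (X, Y) ∉ ω ∪ Wp S h p := by
    rw [mem_union, not_or]
    exact ⟨C.no hh hω (by omega) (by omega) (by omega) (by omega) (by unfold In; omega), C.wpd E hh⟩
  have wH : lt (X - a, Y) ∈ ω ∪ Wp S h p := mem_union_right _ ((C.wpH E hh).2 hu)
  obtain ⟨J, j1, j2, j3⟩ := Pool.Agent.H41.W.junk (Λ := (Lam3 S h : Set (ℤ × ℤ)))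
    (D := Del S.P.Q (2 * h) p) (w := ω ∪ Wp S h p) (X := X) (Y := Y) ha hb
    (C.nD E hh (by omega) (by omega))
    (by unfold Al; simp only [wd, false_iff]; rw [par])
    (C.nD E hh (by omega) (by omega))
    (by
      unfold Al
      simp only [wH, true_iff]
      have : (X - a + Y) % 2 = 0 ↔ ¬ (X + Y) % 2 = 0 := by omega
      rw [this, par])
    (by
      by_cases hD : lt (X, Y - b) ∈ Del S.P.Q (2 * h) p
      · right
        obtain ⟨k1, k2, k3⟩ := C.delV E hh hD
        refine ⟨hD, fun hD' => ?_, ?_⟩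
        · rw [E.del] at hD'; omega
        · have w2 : lt (X, Y - b - b) ∉ ω ∪ Wp S h p := by
            rw [mem_union, not_or]
            refine ⟨C.no hh hω (by omega) (by omega) (by omega) (by omega) (by unfold In; omega), ?_⟩
            rw [C.wpV E hh (Or.inr rfl), C.col_V' E hh hD]
            exact not_not.2 ho
          unfold Al
          simp only [w2, false_iff]
          have : (X + (Y - b - b)) % 2 = 0 ↔ (X + Y) % 2 = 0 := by omega
          rw [this, par]
      · left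
        refine ⟨hD, ?_⟩
        have wV : lt (X, Y - b) ∈ ω ∪ Wp S h p := by
          apply mem_union_right
          rw [C.wpV E hh (Or.inl rfl), C.col_V E hh hD]
          exact ho
        unfold Al
        simp only [wV, true_iff]
        have : (X + (Y - b)) % 2 = 0 ↔ ¬ (X + Y) % 2 = 0 := by omega
        rw [this, par])
    (C.not_lam hh (by omega) (by omega) (by omega) (by omega) (by omega))
    (C.not_lam hh (by omega) (by omega) (by omega) (by omega) (by omega))
    (C.not_lam hh (by omega) (by omega) (by omega) (by omega) (by omega))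
    (C.not_lam hh (by omega) (by omega) (by omega) (by omega) (by omega))
    (C.not_lam hh (by omega) (by omega) (by omega) (by omega) (by omega))
  intro hr
  have key : ∀ c d, (GW S h p ω).Reachable c d → c ∈ J → d ∈ J := by
    rintro c d ⟨q⟩
    induction q with
    | nil => exact id
    | cons hadj _ ih => exact fun hc => ih (j1 _ _ hadj hc)
  have hz := key _ _ hr.symm (j2 c hc)
  have hodd : ((eW (lt p)).1 + (eW (lt p)).2) % 2 = 1 := lt_odd p
  rcases j3 _ hz hodd with k | k | k | k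
  · refine E.z_ne ha ?_ ?_ k <;> rw [C.mem_iff hh (by omega) (by omega) (by omega) (by omega)] <;>
      unfold In <;> omega
  · refine E.z_ne ha ?_ ?_ k <;> rw [C.mem_iff hh (by omega) (by omega) (by omega) (by omega)] <;>
      unfold In <;> omega
  · refine E.z_ne ha ?_ ?_ k <;> rw [C.mem_iff hh (by omega) (by omega) (by omega) (by omega)] <;>
      unfold In <;> omega
  · refine E.z_ne ha ?_ ?_ k <;> rw [C.mem_iff hh (by omega) (by omega) (by omega) (by omega)] <;>
      unfold In <;> omega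

end

/-! ### The strand of the end -/

/-- **Everything the end reaches in the glued world it reaches in the coherent world.** -/
theorem gw_vc (E : XD S h p te xe) (hh : 2 ≤ h) (hω : ω ⊆ EE S h) {c : ℤ × ℤ}
    (hr : (GW S h p ω).Reachable (eW (lt p)) c) :
    (SG (LamC S.P.Q (2 * h) : Set (ℤ × ℤ)) (Del S.P.Q (2 * h) p)
      (ω ∪ WC S.P (2 * h) (κz S h p))).Reachable (eW (lt p)) c := by
  rw [SimpleGraph.reachable_iff_reflTransGen] at hr
  induction hr with
  | refl => exact SimpleGraph.Reachable.refl _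
  | @tail c d h1 h2 ih =>
    rw [← SimpleGraph.reachable_iff_reflTransGen] at h1
    refine ih.trans (SimpleGraph.Adj.reachable ?_)
    obtain ⟨e, he, hT⟩ := h2
    refine ⟨e, mem_coe.2 (lam3_sub hh (mem_coe.1 he)), ?_⟩
    by_cases hD : e ∈ Del S.P.Q (2 * h) p
    · exact (TJ_congr Iff.rfl (fun h3 => absurd hD h3)).1 hT
    refine (TJ_congr Iff.rfl (fun _ => ?_)).1 hT
    rw [mem_union, mem_union]
    rcases mem_Lam3.1 (mem_coe.1 he) with h3 | ⟨i, hi, h3⟩ | ⟨i, hi, h3, h4⟩
    · -- random tile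
      have h4 : e ∉ Wp S h p := by
        intro h5
        unfold EE at h3
        rw [mem_TL (by omega)] at h3
        have ee : e = lt ((tt e).1, (tt e).2) := (lt_tt h3.1).symm
        rw [ee, wp_iff E (by omega)] at h5
        exact h5.1 h3.2
      have h5 : e ∉ WC S.P (2 * h) (κz S h p) := by
        intro h5
        unfold EE at h3
        rw [mem_TL (by omega)] at h3
        have ee : e = lt ((tt e).1, (tt e).2) := (lt_tt h3.1).symm
        rw [ee, wc_iff (by omega)] at h5
        exact h5.2.1 h3.2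
      simp only [h4, h5]
    · -- wall layer
      have ho : (e.1 + e.2) % 2 = 1 := ((mem_LY (by omega)).1 h3).1
      have ee : e = lt ((tt e).1, (tt e).2) := (lt_tt ho).symm
      rw [ee] at h3 hD ⊢
      obtain ⟨h4, h5⟩ := ly_nb (by omega) hi h3
      rw [agree E (by omega) h4 hD h5]
    · -- diagonal tile
      obtain ⟨a, b, A, B, X, Y, v, u, C⟩ := exists_cn h hi h3.1
      rw [C.dgq] at h4
      subst h4
      have h5 : lt (X, Y) ∉ Wp S h p := C.wpd E hh
      have h6 : ¬ κz S h p v Y := by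
        intro h6
        refine C.junk E hh hω h3.2.1 h3.2.2.1 h3.2.2.2 h6 ?_ h1
        exact side_cases _ hT.label
      have h7 : lt (X, Y) ∉ WC S.P (2 * h) (κz S h p) := fun h7 => h6 ((C.wcd hh).1 h7)
      simp only [h5, h7]

/-! ### The far ends -/

lemma Cn.oc (C : Cn S h i a b A B X Y v u) :
    (a = b → oc (wv h (S.P.side (i + 1)) 0) (S.k i + 1) = iV b X Y ∧
      oc (wv h (S.P.side (i + 1)) 0) (S.k i + 2) = iH a X Y) ∧
    (a ≠ b → oc (wv h (S.P.side (i + 1)) 0) (S.k i + 1) = iH a X Y ∧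
      oc (wv h (S.P.side (i + 1)) 0) (S.k i + 2) = iV b X Y) := by
  have h1 := C.dgq
  unfold dg ql at h1
  have hk := C.kb
  have ho := C.ord
  unfold iV iH
  rw [← h1]
  generalize wv h (S.P.side (i + 1)) 0 = V
  obtain ⟨V1, V2⟩ := V
  have hd := dir_cases (S.k i)
  rcases C.ha with rfl | rfl <;> rcases C.hb with rfl | rfl
  · have hm : S.k i % 4 = 1 := by
      have := hk.1 rfl
      omega
    refine ⟨fun _ => ?_, fun h2 => absurd rfl h2⟩
    rcases hd with ⟨m, e⟩ | ⟨m, e⟩ | ⟨m, e⟩ | ⟨m, e⟩ <;> first | (exfalso; omega) | skip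
    rw [e]
    unfold Pool.Agent.H5.Q1.oc eS eW
    constructor <;> refine Prod.ext ?_ ?_ <;> simp <;> omega
  · have hm : S.k i % 4 = 0 := by
      have h3 : ¬ ((-1 : ℤ) = 1) := by decide
      have := fun h4 => h3 (hk.2 h4)
      omega
    refine ⟨fun h2 => absurd h2 (by decide), fun _ => ?_⟩
    rcases hd with ⟨m, e⟩ | ⟨m, e⟩ | ⟨m, e⟩ | ⟨m, e⟩ <;> first | (exfalso; omega) | skip
    rw [e]
    unfold Pool.Agent.H5.Q1.oc eN eW
    constructor <;> refine Prod.ext ?_ ?_ <;> simp <;> omega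
  · have hm : S.k i % 4 = 2 := by
      have := hk.1 rfl
      omega
    refine ⟨fun h2 => absurd h2 (by decide), fun _ => ?_⟩
    rcases hd with ⟨m, e⟩ | ⟨m, e⟩ | ⟨m, e⟩ | ⟨m, e⟩ <;> first | (exfalso; omega) | skip
    rw [e]
    unfold Pool.Agent.H5.Q1.oc eS eE
    constructor <;> refine Prod.ext ?_ ?_ <;> simp <;> omega
  · have hm : S.k i % 4 = 3 := by
      have h3 : ¬ ((-1 : ℤ) = 1) := by decide
      have := fun h4 => h3 (hk.2 h4)
      omega
    refine ⟨fun _ => ?_, fun h2 => absurd rfl h2⟩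
    rcases hd with ⟨m, e⟩ | ⟨m, e⟩ | ⟨m, e⟩ | ⟨m, e⟩ <;> first | (exfalso; omega) | skip
    rw [e]
    unfold Pool.Agent.H5.Q1.oc eN eE
    constructor <;> refine Prod.ext ?_ ?_ <;> simp <;> omega

section

variable (E : XD S h p te xe) (hh : 2 ≤ h)
include E hh

/-- **The far end of the glued world in terms of the colours of the corner.** -/
lemma yy_eq {j : Fin 3} (C : Cn S h (mkI S j) a b A B X Y v u) :
    (κz S h p v Y → yy S h p j = iH a X Y) ∧ (¬ κz S h p v Y → yy S h p j = iV b X Y) := by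
  classical
  have hc := mkI_cvx S j
  have ho := C.oc
  have hord := C.ord
  have hlt := C.lti
  have hv := C.te_v E hh
  have hu := C.te_u E
  have hab : a = b → a = 1 → b = 1 := fun h1 h2 => by rw [← h1]; exact h2
  have hb := C.hb
  have ha := C.ha
  have h02 := S.h02
  have h23 := S.h23
  have h34 := S.h34
  have hmN := S.P.hmN
  have eN : S.N = S.P.N := rfl
  have hte := E.ltN
  have hflag : ∀ m, (∃ t, Ex S h p t ∧ t < m) ↔ te < m := fun m => by
    constructor
    · rintro ⟨t, h1, h2⟩; rw [(E.ex t).1 h1] at h2; exact h2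
    · exact fun h1 => ⟨te, (E.ex te).2 rfl, h1⟩
  have hk : S.k (mkI S j + 1) = S.k (mkI S j) + 1 := by
    unfold Shape.k; rw [hc]
  unfold nx' at hord
  rw [E.kz]
  have hj : j = 0 ∨ j = 1 ∨ j = 2 := by fin_cases j <;> simp
  rcases hj with rfl | rfl | rfl
  · have e : mkI S 0 + 1 = S.N := by unfold mkI; simp only [if_true]; omega
    rw [e] at ho hk hord
    have e2 : yy S h p 0 = oc (wv h (S.P.side S.N) 0) (S.k (mkI S 0) + 2) := by
      unfold yy
      rw [if_pos rfl, wv_side_N]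
      unfold r1 v1
      apply oc_congr
      have := S.kN
      omega
    rw [e2]
    rw [if_neg (by omega)] at hord
    by_cases hab : a = b
    · obtain ⟨o1, o2⟩ := ho.1 hab
      refine ⟨fun _ => o2, fun h1 => ?_⟩
      exfalso
      by_cases h4 : te = v
      · obtain ⟨k1, -, k3, -⟩ := hv h4
        have := k3 (by omega)
        omega
      · omega
    · obtain ⟨o1, o2⟩ := ho.2 hab
      refine ⟨fun h1 => ?_, fun _ => o2⟩
      exfalso
      by_cases h4 : te = v
      · obtain ⟨k1, -, -, k4⟩ := hv h4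
        have := k4 (by omega)
        omega
      · omega
  · have e : mkI S 1 + 1 = S.m2 := by
      unfold mkI; simp only [show ¬ ((1 : Fin 3) = 0) by decide, if_false, if_true]; omega
    rw [e] at ho hk hord
    have e2 : yy S h p 1 = oc (wv h (S.P.side S.m2) 0)
        (S.k (mkI S 1) + 1 + if te < S.m2 then 1 else 0) := by
      unfold yy
      rw [if_neg (by decide), if_pos rfl, hk]
      simp only [hflag]
    rw [e2]
    rw [if_pos (by omega)] at hord
    by_cases hab : a = b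
    · obtain ⟨o1, o2⟩ := ho.1 hab
      by_cases hf : te < S.m2
      · rw [if_pos hf, show S.k (mkI S 1) + 1 + 1 = S.k (mkI S 1) + 2 by ring]
        refine ⟨fun _ => o2, fun h1 => ?_⟩
        exfalso
        by_cases h4 : te = v
        · obtain ⟨k1, -, k3, -⟩ := hv h4
          have := k3 (by omega)
          omega
        · omega
      · rw [if_neg hf, add_zero]
        refine ⟨fun h1 => ?_, fun _ => o1⟩
        exfalso
        omega
    · obtain ⟨o1, o2⟩ := ho.2 hab
      by_cases hf : te < S.m2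
      · rw [if_pos hf, show S.k (mkI S 1) + 1 + 1 = S.k (mkI S 1) + 2 by ring]
        refine ⟨fun h1 => ?_, fun _ => o2⟩
        exfalso
        omega
      · rw [if_neg hf, add_zero]
        refine ⟨fun _ => o1, fun h1 => ?_⟩
        exfalso
        by_cases h4 : te = v
        · obtain ⟨k1, -, -, k4⟩ := hv h4
          have := k4 (by omega)
          omega
        · omega
  · have e : mkI S 2 + 1 = S.m3 := by
      unfold mkI
      simp only [show ¬ ((2 : Fin 3) = 0) by decide, show ¬ ((2 : Fin 3) = 1) by decide, if_false]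
      omega
    rw [e] at ho hk hord
    have e2 : yy S h p 2 = oc (wv h (S.P.side S.m3) 0)
        (S.k (mkI S 2) + 1 + if te < S.m3 then 0 else 1) := by
      unfold yy
      rw [if_neg (by decide), if_neg (by decide), hk]
      simp only [hflag]
    rw [e2]
    rw [if_pos (by omega)] at hord
    by_cases hab : a = b
    · obtain ⟨o1, o2⟩ := ho.1 hab
      by_cases hf : te < S.m3
      · rw [if_pos hf, add_zero]
        refine ⟨fun h1 => ?_, fun _ => o1⟩
        exfalso
        by_cases h4 : te = v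
        · obtain ⟨k1, -, k3, -⟩ := hv h4
          have := k3 (by omega)
          omega
        · omega
      · rw [if_neg hf, show S.k (mkI S 2) + 1 + 1 = S.k (mkI S 2) + 2 by ring]
        refine ⟨fun _ => o2, fun h1 => ?_⟩
        exfalso
        omega
    · obtain ⟨o1, o2⟩ := ho.2 hab
      by_cases hf : te < S.m3
      · rw [if_pos hf, add_zero]
        refine ⟨fun _ => o1, fun h1 => ?_⟩
        exfalso
        omega
      · rw [if_neg hf, show S.k (mkI S 2) + 1 + 1 = S.k (mkI S 2) + 2 by ring]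
        refine ⟨fun h1 => ?_, fun _ => o2⟩
        exfalso
        by_cases h4 : te = v
        · obtain ⟨k1, -, -, k4⟩ := hv h4
          have := k4 (by omega)
          omega
        · omega

end

/-- the alive loose side in terms of the colours of the corner -/
lemma Cn.xa (C : Cn S h i a b A B X Y v u) (hh : 2 ≤ h) {κ : ℕ → ℤ → Prop} :
    (κ v Y → XA S h κ i = oV b X Y) ∧ (¬ κ v Y → XA S h κ i = oV b (X - a) Y) := by
  have hb := C.hb
  have ha := C.ha
  have par := C.par hh
  have ho := C.ord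
  have hk := C.kb
  have h1 : (S.k i % 2 = 1 ↔ tyA S h κ i) ↔ κ v Y := by
    unfold tyA
    rw [C.dgq, C.wcd hh]
    have e1 : (lt (X, Y)).1 % 2 = 1 ↔ a ≠ b := by
      rw [Ne, ← par]; unfold lt; simp only; omega
    have e2 : S.k i % 2 = 1 ↔ a = b := by
      constructor
      · intro h3; rcases ho with h4 | h4
        · exact h4.1
        · omega
      · intro h3; rcases ho with h4 | h4
        · exact h4.2.2.2
        · exact absurd h3 h4.1
    rw [e1, e2]
    tauto
  unfold XA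
  constructor
  · intro h2
    rw [if_pos (h1.2 h2)]
    unfold X1 oV
    rw [C.dgq]
    simp only [hk]
  · intro h2
    rw [if_neg (fun h3 => h2 (h1.1 h3))]
    unfold X2 oV
    rw [C.dgq]
    rcases ha with rfl | rfl <;> rcases hb with rfl | rfl
    · have hm : S.k i % 4 = 1 := by
        have := hk.1 rfl
        omega
      rw [if_pos hm, if_pos rfl, we_lt']
    · have hm : S.k i % 4 = 0 := by
        have h3 : ¬ ((-1 : ℤ) = 1) := by decide
        have := fun h4 => h3 (hk.2 h4)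
        omega
      rw [if_neg (by omega), if_neg (by omega), if_neg (by omega), if_neg (by decide), we_lt']
    · have hm : S.k i % 4 = 2 := by
        have := hk.1 rfl
        omega
      rw [if_neg (by omega), if_pos hm, if_pos rfl, ea_lt', sub_neg_eq_add]
    · have hm : S.k i % 4 = 3 := by
        have h3 : ¬ ((-1 : ℤ) = 1) := by decide
        have := fun h4 => h3 (hk.2 h4)
        omega
      rw [if_neg (by omega), if_neg (by omega), if_pos hm, if_neg (by decide), ea_lt', sub_neg_eq_add]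

/-- **The last edges at a mark.** -/
theorem Cn.fin (C : Cn S h i a b A B X Y v u) (E : XD S h p te xe) (hh : 2 ≤ h) (hω : ω ⊆ EE S h)
    (hm : i + 1 = S.m2 ∨ i + 1 = S.m3 ∨ i + 1 = S.N) :
    (κz S h p v Y → (SG (LamC S.P.Q (2 * h) : Set (ℤ × ℤ)) (Del S.P.Q (2 * h) p)
      (ω ∪ WC S.P (2 * h) (κz S h p))).Reachable (iH a X Y) (XA S h (κz S h p) i)) ∧
    (¬ κz S h p v Y → (SG (LamC S.P.Q (2 * h) : Set (ℤ × ℤ)) (Del S.P.Q (2 * h) p)
      (ω ∪ WC S.P (2 * h) (κz S h p))).Reachable (iV b X Y) (XA S h (κz S h p) i)) := by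
  have hb := C.hb
  have ha := C.ha
  have par := C.par hh
  have dD := C.nD E hh (x := X) (by omega) (by omega)
  have dL : lt (X, Y) ∈ (LamC S.P.Q (2 * h) : Set (ℤ × ℤ)) := by
    rw [mem_coe, Pool.Agent.H2.W.Run.mem_LamC (by omega), tt_lt]
    exact ⟨lt_odd _, C.tq hh⟩
  have dω : lt (X, Y) ∉ ω := C.no hh hω (by omega) (by omega) (by omega) (by omega) (by unfold In; omega)
  constructor
  · intro h1
    rw [(C.xa hh).1 h1]
    have w1 : lt (X, Y) ∈ ω ∪ WC S.P (2 * h) (κz S h p) := mem_union_right _ ((C.wcd hh).2 h1)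
    obtain ⟨t1, -⟩ := tjO (w := ω ∪ WC S.P (2 * h) (κz S h p)) ha hb dD (by
      unfold Al; simp only [w1, true_iff]; rw [par]; tauto)
    exact SimpleGraph.Adj.reachable ⟨_, dL, t1⟩
  · intro h1
    rw [(C.xa hh).2 h1]
    have hu : κz S h p u Y := by
      by_contra h2
      exact h1 ((C.col_ne E hh hm).2 h2)
    have w1 : lt (X, Y) ∉ ω ∪ WC S.P (2 * h) (κz S h p) := by
      rw [mem_union, not_or]
      exact ⟨dω, fun h2 => h1 ((C.wcd hh).1 h2)⟩
    obtain ⟨t1, -⟩ := tjI (w := ω ∪ WC S.P (2 * h) (κz S h p)) ha hb dD (by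
      unfold Al; simp only [w1, false_iff]; rw [par])
    have hD := C.nD E hh (x := X - a) (by omega) (by omega)
    have m0 : ct (2 * h) (X - a, Y) ∉ S.P.Q := by
      rw [C.mem_iff hh (by omega) (by omega) (by omega) (by omega)]; unfold In; omega
    have nb : ct (2 * h) (X - a, Y + 1) ∈ S.P.Q ∨ ct (2 * h) (X - a - 1, Y) ∈ S.P.Q ∨
        ct (2 * h) (X - a, Y - 1) ∈ S.P.Q ∨ ct (2 * h) (X - a + 1, Y) ∈ S.P.Q := by
      rcases hb with hb' | hb'
      · right; right; left
        rw [C.mem_iff hh (by omega) (by omega) (by omega) (by omega)]; unfold In; omega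
      · left
        rw [C.mem_iff hh (by omega) (by omega) (by omega) (by omega)]; unfold In; omega
    have w2 : lt (X - a, Y) ∈ ω ∪ WC S.P (2 * h) (κz S h p) := by
      apply mem_union_right
      rw [← agree E (by omega) m0 hD nb]
      exact (C.wpH E hh).2 hu
    obtain ⟨-, t2⟩ := tjI (w := ω ∪ WC S.P (2 * h) (κz S h p)) ha hb hD (by
      unfold Al
      simp only [w2, true_iff]
      have : (X - a + Y) % 2 = 0 ↔ ¬ (X + Y) % 2 = 0 := by omega
      rw [this, par])
    rw [oH_sub ha] at t2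
    have HL : lt (X - a, Y) ∈ (LamC S.P.Q (2 * h) : Set (ℤ × ℤ)) := by
      rw [mem_coe, Pool.Agent.H2.W.Run.mem_LamC (by omega), tt_lt]
      refine ⟨lt_odd _, ?_⟩
      rcases nb with k | k | k | k
      · exact ⟨(X - a, Y + 1), by simp, by simp, k⟩
      · exact ⟨(X - a - 1, Y), by simp, by simp, k⟩
      · exact ⟨(X - a, Y - 1), by simp, by simp, k⟩
      · exact ⟨(X - a + 1, Y), by simp, by simp, k⟩
    have a1 : (SG (LamC S.P.Q (2 * h) : Set (ℤ × ℤ)) (Del S.P.Q (2 * h) p)
      (ω ∪ WC S.P (2 * h) (κz S h p))).Adj (iV b X Y) (iH a X Y) := ⟨_, dL, t1.symm⟩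
    have a2 : (SG (LamC S.P.Q (2 * h) : Set (ℤ × ℤ)) (Del S.P.Q (2 * h) p)
      (ω ∪ WC S.P (2 * h) (κz S h p))).Adj (iH a X Y) (oV b (X - a) Y) := ⟨_, HL, t2⟩
    exact a1.reachable.trans a2.reachable

/-- **LEMMA GC.** The far end of the strand in the coherent world. -/
theorem gc (hh : 2 ≤ h) (hx : ∃ t, Ex S h p t) (hω : ω ⊆ EE S h) {j : Fin 3}
    (hr : (GW S h p ω).Reachable (eW (lt p)) (yy S h p j)) :
    (SG (LamC S.P.Q (2 * h) : Set (ℤ × ℤ)) (Del S.P.Q (2 * h) p)
      (ω ∪ WC S.P (2 * h) (κz S h p))).Reachable (eW (lt p)) (XA S h (κz S h p) (mkI S j)) := by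
  obtain ⟨te, xe, E⟩ := exists_xd (by omega) hx
  have hm : mkI S j + 1 = S.m2 ∨ mkI S j + 1 = S.m3 ∨ mkI S j + 1 = S.N := by
    have h02 := S.h02
    have h23 := S.h23
    have h34 := S.h34
    have hmN := S.P.hmN
    have eN : S.N = S.P.N := rfl
    unfold mkI
    split_ifs <;> omega
  have hi : mkI S j < S.N := by
    have h23 := S.h23
    have h34 := S.h34
    have hmN := S.P.hmN
    have eN : S.N = S.P.N := rfl
    omega
  obtain ⟨a, b, A, B, X, Y, v, u, C⟩ := exists_cn h hi (mkI_cvx S j)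
  obtain ⟨y1, y2⟩ := yy_eq E hh C
  obtain ⟨f1, f2⟩ := C.fin E hh hω hm
  have h1 := gw_vc E hh hω hr
  by_cases hk : κz S h p v Y
  · rw [y1 hk] at h1
    exact h1.trans (f1 hk)
  · rw [y2 hk] at h1
    exact h1.trans (f2 hk)

end Pool.Agent.H41.W
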