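import Mathlib
import Pool.Agent.H41.W.GCa

set_option autoImplicit false
open Finset

/-! # The coherent world `VC` and the glued world `GW` have the same far ends

`gc_iff` : the end `eW (lt p)` is joined to the mark `j` in the coherent world iff it is in the glued world.
`ex_of_mem` : a tile of the polygon has an exit. -/

namespace Pool.Agent.H41.W

open Pool.Agent.H75.Perc hiding WL CT hh PB EE
open Pool.Agent.H75.TwoArm Pool.Agent.H75.Four Pool.Agent.Q1
open Pool.Agent.Q1.M4 (Cell PType IsSide nextSide tail head Good)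
open Pool.Agent.H33.Q1 Pool.Agent.H21.FM Pool.Agent.H99.W
open Pool.Agent.H13.W Pool.Agent.H74.W
open Pool.Agent.H68.W (sx sx_spec sx_eq sx_lt sx_next ly_iff mem_Wp Cf isSide0 isSide1 isSide2 isSide3
  isSide_mod dsucc dpred dv dq ex_iff near_Lam3)
open Pool.Agent.H37.W (dg dg_eq dg_inj cvx_cells)
open Pool.Agent.H19.W (Tq LamC sd si WC κz X1 X2 XA tyA mkI ea we)
open Pool.Agent.H2.W.Run (dg_pos cvx_two mkI_cvx ea_lt' we_lt')
open Pool.Agent.H21.W (Al)

variable {S : Shape} {h i : ℕ} {a b A B X Y x y xe : ℤ} {v u te : ℕ} {p : ℤ × ℤ}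
  {ω : Finset (ℤ × ℤ)}

/-! ### The exit exists -/

theorem ex_of_mem (hh : 1 ≤ h) (hp : ct (2 * h) p ∈ S.P.Q) : ∃ t, Ex S h p t := by
  classical
  have hn : (2 : ℤ) ≤ 2 * (h : ℤ) := by omega
  obtain ⟨M, hM⟩ := (S.P.Q.image Prod.fst).exists_le
  have hM' : ∀ c ∈ S.P.Q, c.1 ≤ M := fun c hc => hM _ (mem_image_of_mem _ hc)
  have h1 : p.1 / (2 * (h : ℤ)) ≤ M := hM' _ hp
  have h2 := dv (show 0 < 2 * (h : ℤ) by omega) p.1
  have h3 : 2 * (h : ℤ) * (p.1 / (2 * h)) ≤ 2 * h * M := Int.mul_le_mul_of_nonneg_left h1 (by omega)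
  have hex : ∃ k : ℕ, ct (2 * h) (p.1 + k, p.2) ∉ S.P.Q := by
    refine ⟨(2 * (h : ℤ) * M + 2 * h - p.1).toNat, fun h4 => ?_⟩
    have h5 : p.1 + ((2 * (h : ℤ) * M + 2 * h - p.1).toNat : ℤ) = 2 * h * M + 2 * h := by omega
    rw [h5] at h4
    have h6 := hM' _ h4
    unfold ct at h6
    simp only at h6
    rw [dq (X := M + 1) (by omega) (by linarith) (by linarith)] at h6
    omega
  obtain ⟨k, hk, hmin⟩ : ∃ k : ℕ, ct (2 * h) (p.1 + k, p.2) ∉ S.P.Q ∧
      ∀ m < k, ct (2 * h) (p.1 + (m : ℤ), p.2) ∈ S.P.Q :=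
    ⟨Nat.find hex, Nat.find_spec hex, fun m hm => by
      have := Nat.find_min hex hm
      exact not_not.1 this⟩
  have hk0 : k ≠ 0 := by
    rintro rfl
    apply hk
    simpa using hp
  have hl : ct (2 * h) (p.1 + k - 1, p.2) ∈ S.P.Q := by
    have := hmin (k - 1) (by omega)
    have e : p.1 + ((k - 1 : ℕ) : ℤ) = p.1 + k - 1 := by omega
    rwa [e] at this
  have hw : (p.1 + (k : ℤ) - 1) / (2 * (h : ℤ)) = (p.1 + k) / (2 * h) - 1 ∧
      p.1 + k = 2 * h * ((p.1 + k) / (2 * h)) := by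
    rcases dpred hn (p.1 + k) with c | c
    · exfalso
      apply hk
      have hl' : ((p.1 + (k : ℤ) - 1) / (2 * (h : ℤ)), p.2 / (2 * h)) ∈ S.P.Q := hl
      rw [c.1] at hl'
      exact hl'
    · exact c
  refine ⟨_, (ex_iff (S := S) (x0 := p.1) (v := p.2) (W := (p.1 + k) / (2 * h)) hh ?_ ?_ ?_ hk).2 rfl⟩
  · rw [← hw.2]; omega
  · intro x h4 h5
    rw [← hw.2] at h5
    have := hmin (x - p.1).toNat (by omega)
    have e : p.1 + ((x - p.1).toNat : ℤ) = x := by omega
    rw [e] at this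
    exact this
  · have hl' : ((p.1 + (k : ℤ) - 1) / (2 * (h : ℤ)), p.2 / (2 * h)) ∈ S.P.Q := hl
    rw [hw.1] at hl'
    exact hl'

/-! ### Tiles which touch the polygon only diagonally -/

lemma cvx_idx {c : Cell} {k : ℤ} (hs : IsSide S.P.Q (c, k)) (h1 : c + dir k + dir (k - 1) ∉ S.P.Q)
    (h2 : c + dir k ∉ S.P.Q) : sx S.P c k < S.N ∧
    S.P.side (sx S.P c k + 1) = ((S.P.side (sx S.P c k)).1, (S.P.side (sx S.P c k)).2 + 1) ∧
      (S.P.side (sx S.P c k)).1 = c ∧ (S.k (sx S.P c k) - k) % 4 = 0 := by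
  have hn : nextSide S.P.Q (c, k) = (c, k + 1) := by
    unfold nextSide
    simp only [h1, h2, if_false]
  obtain ⟨e, -⟩ := sx_next hs hn
  obtain ⟨a1, a2, a3⟩ := sx_spec hs
  refine ⟨a1, ?_, a2, a3⟩
  rw [e, a2]
  refine Prod.ext rfl ?_
  simp only
  ring

lemma diag_of (hh : 1 ≤ h) (h0 : ct (2 * h) (x, y) ∉ S.P.Q) (n1 : ct (2 * h) (x, y + 1) ∉ S.P.Q)
    (n2 : ct (2 * h) (x - 1, y) ∉ S.P.Q) (n3 : ct (2 * h) (x, y - 1) ∉ S.P.Q)
    (n4 : ct (2 * h) (x + 1, y) ∉ S.P.Q) (ht : Tq S.P.Q (2 * h) (x, y)) :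
    ∃ i < S.N, S.P.side (i + 1) = ((S.P.side i).1, (S.P.side i).2 + 1) ∧ dg S h i = lt (x, y) := by
  have hn : (2 : ℤ) ≤ 2 * (h : ℤ) := by omega
  have m0 : (x / (2 * (h : ℤ)), y / (2 * h)) ∉ S.P.Q := h0
  have m1 : (x / (2 * (h : ℤ)), (y + 1) / (2 * h)) ∉ S.P.Q := n1
  have m2 : ((x - 1) / (2 * (h : ℤ)), y / (2 * h)) ∉ S.P.Q := n2
  have m3 : (x / (2 * (h : ℤ)), (y - 1) / (2 * h)) ∉ S.P.Q := n3
  have m4 : ((x + 1) / (2 * (h : ℤ)), y / (2 * h)) ∉ S.P.Q := n4
  obtain ⟨⟨q1, q2⟩, k1, k2, k3⟩ := ht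
  simp only at k1 k2
  rw [abs_le] at k1 k2
  have hq1 : q1 = x - 1 ∨ q1 = x ∨ q1 = x + 1 := by omega
  have hq2 : q2 = y - 1 ∨ q2 = y ∨ q2 = y + 1 := by omega
  rcases hq1 with rfl | rfl | rfl <;> rcases hq2 with rfl | rfl | rfl
  · -- north east corner
    have k3' : ((x - 1) / (2 * (h : ℤ)), (y - 1) / (2 * h)) ∈ S.P.Q := k3
    have c1 : (x - 1) / (2 * (h : ℤ)) = x / (2 * h) - 1 ∧ x = 2 * h * (x / (2 * h)) := by
      rcases dpred hn x with c | c
      · exact absurd (by rw [c.1] at k3'; exact k3') m3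
      · exact c
    have c2 : (y - 1) / (2 * (h : ℤ)) = y / (2 * h) - 1 ∧ y = 2 * h * (y / (2 * h)) := by
      rcases dpred hn y with c | c
      · exact absurd (by rw [c.1] at k3'; exact k3') m2
      · exact c
    rw [c1.1, c2.1] at k3'
    rw [c1.1] at m2
    rw [c2.1] at m3
    obtain ⟨a1, a2, a3, a4⟩ := cvx_idx (S := S) (c := (x / (2 * (h : ℤ)) - 1, y / (2 * h) - 1)) (k := 1)
      (isSide1.2 ⟨k3', by simpa using m3⟩) (by simpa [dir] using m0) (by simpa [dir] using m2)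
    refine ⟨_, a1, a2, ?_⟩
    rw [(dg_pos S h _).2.1 (by omega), a3]
    congr 1
    refine Prod.ext ?_ ?_ <;> simp only
    · rw [mul_sub]; linarith [c1.2]
    · rw [mul_sub]; linarith [c2.2]
  · exact absurd k3 n2
  · -- south east corner
    have k3' : ((x - 1) / (2 * (h : ℤ)), (y + 1) / (2 * h)) ∈ S.P.Q := k3
    have c1 : (x - 1) / (2 * (h : ℤ)) = x / (2 * h) - 1 ∧ x = 2 * h * (x / (2 * h)) := by
      rcases dpred hn x with c | c
      · exact absurd (by rw [c.1] at k3'; exact k3') m1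
      · exact c
    have c2 : (y + 1) / (2 * (h : ℤ)) = y / (2 * h) + 1 ∧ y + 1 = 2 * h * (y / (2 * h)) + 2 * h := by
      rcases dsucc hn y with c | c
      · exact absurd (by rw [c.1] at k3'; exact k3') m2
      · exact c
    rw [c1.1, c2.1] at k3'
    rw [c1.1] at m2
    rw [c2.1] at m1
    obtain ⟨a1, a2, a3, a4⟩ := cvx_idx (S := S) (c := (x / (2 * (h : ℤ)) - 1, y / (2 * h) + 1)) (k := 0)
      (isSide0.2 ⟨k3', by simpa using m2⟩) (by simpa [dir] using m0) (by simpa [dir] using m1)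
    refine ⟨_, a1, a2, ?_⟩
    rw [(dg_pos S h _).1 (by omega), a3]
    congr 1
    refine Prod.ext ?_ ?_ <;> simp only
    · rw [mul_sub]; linarith [c1.2]
    · rw [mul_add]; linarith [c2.2]
  · exact absurd k3 n3
  · exact absurd k3 h0
  · exact absurd k3 n1
  · -- north west corner
    have k3' : ((x + 1) / (2 * (h : ℤ)), (y - 1) / (2 * h)) ∈ S.P.Q := k3
    have c1 : (x + 1) / (2 * (h : ℤ)) = x / (2 * h) + 1 ∧ x + 1 = 2 * h * (x / (2 * h)) + 2 * h := by
      rcases dsucc hn x with c | c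
      · exact absurd (by rw [c.1] at k3'; exact k3') m3
      · exact c
    have c2 : (y - 1) / (2 * (h : ℤ)) = y / (2 * h) - 1 ∧ y = 2 * h * (y / (2 * h)) := by
      rcases dpred hn y with c | c
      · exact absurd (by rw [c.1] at k3'; exact k3') m4
      · exact c
    rw [c1.1, c2.1] at k3'
    rw [c1.1] at m4
    rw [c2.1] at m3
    obtain ⟨a1, a2, a3, a4⟩ := cvx_idx (S := S) (c := (x / (2 * (h : ℤ)) + 1, y / (2 * h) - 1)) (k := 2)
      (isSide2.2 ⟨k3', by simpa using m4⟩) (by simpa [dir] using m0) (by simpa [dir] using m3)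
    refine ⟨_, a1, a2, ?_⟩
    rw [(dg_pos S h _).2.2.1 (by omega), a3]
    congr 1
    refine Prod.ext ?_ ?_ <;> simp only
    · rw [mul_add]; linarith [c1.2]
    · rw [mul_sub]; linarith [c2.2]
  · exact absurd k3 n4
  · -- south west corner
    have k3' : ((x + 1) / (2 * (h : ℤ)), (y + 1) / (2 * h)) ∈ S.P.Q := k3
    have c1 : (x + 1) / (2 * (h : ℤ)) = x / (2 * h) + 1 ∧ x + 1 = 2 * h * (x / (2 * h)) + 2 * h := by
      rcases dsucc hn x with c | c
      · exact absurd (by rw [c.1] at k3'; exact k3') m1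
      · exact c
    have c2 : (y + 1) / (2 * (h : ℤ)) = y / (2 * h) + 1 ∧ y + 1 = 2 * h * (y / (2 * h)) + 2 * h := by
      rcases dsucc hn y with c | c
      · exact absurd (by rw [c.1] at k3'; exact k3') m4
      · exact c
    rw [c1.1, c2.1] at k3'
    rw [c1.1] at m4
    rw [c2.1] at m1
    obtain ⟨a1, a2, a3, a4⟩ := cvx_idx (S := S) (c := (x / (2 * (h : ℤ)) + 1, y / (2 * h) + 1)) (k := 3)
      (isSide3.2 ⟨k3', by simpa using m1⟩) (by simpa [dir] using m0) (by simpa [dir] using m4)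
    refine ⟨_, a1, a2, ?_⟩
    rw [(dg_pos S h _).2.2.2 (by omega), a3]
    congr 1
    refine Prod.ext ?_ ?_ <;> simp only
    · rw [mul_add]; linarith [c1.2]
    · rw [mul_add]; linarith [c2.2]

/-- **The tiles of the coherent world** are those of the glued world and the diagonal tiles at the marks. -/
lemma lamC_cases (hh : 1 ≤ h) {e : ℤ × ℤ} (he : e ∈ LamC S.P.Q (2 * h)) :
    e ∈ Lam3 S h ∨ ∃ j : Fin 3, e = dg S h (mkI S j) := by
  rw [Pool.Agent.H2.W.Run.mem_LamC (by omega)] at he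
  have ee : e = lt ((tt e).1, (tt e).2) := (lt_tt he.1).symm
  by_cases h0 : ct (2 * h) ((tt e).1, (tt e).2) ∈ S.P.Q
  · left
    refine mem_Lam3.2 (Or.inl ?_)
    unfold EE
    rw [ee, lt_mem_TL (by omega)]
    exact h0
  by_cases h1 : ct (2 * h) ((tt e).1, (tt e).2 + 1) ∈ S.P.Q ∨ ct (2 * h) ((tt e).1 - 1, (tt e).2) ∈ S.P.Q ∨
      ct (2 * h) ((tt e).1, (tt e).2 - 1) ∈ S.P.Q ∨ ct (2 * h) ((tt e).1 + 1, (tt e).2) ∈ S.P.Q
  · left
    rw [ee]
    exact near_Lam3 hh h1
  push Not at h1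
  obtain ⟨i, hi, h2, h3⟩ := diag_of hh h0 h1.1 h1.2.1 h1.2.2.1 h1.2.2.2 he.2
  rw [← ee] at h3
  have h02 := S.h02
  have h23 := S.h23
  have h34 := S.h34
  have hmN := S.P.hmN
  have eN : S.N = S.P.N := rfl
  by_cases k1 : i + 1 = S.m2
  · right
    refine ⟨1, ?_⟩
    rw [← h3]
    congr 1
    unfold mkI
    simp only [show ¬ ((1 : Fin 3) = 0) by decide, if_false, if_true]; omega
  by_cases k2 : i + 1 = S.m3
  · right
    refine ⟨2, ?_⟩
    rw [← h3]
    congr 1
    unfold mkI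
    simp only [show ¬ ((2 : Fin 3) = 0) by decide, show ¬ ((2 : Fin 3) = 1) by decide, if_false]; omega
  by_cases k3 : i + 1 = S.N
  · right
    refine ⟨0, ?_⟩
    rw [← h3]
    congr 1
    unfold mkI
    simp only [if_true]; omega
  left
  exact mem_Lam3.2 (Or.inr (Or.inr ⟨i, hi, ⟨h2, k1, k2, k3⟩, h3⟩))

/-- the diagonal tile has no side on the polygon -/
lemma Cn.nonb (C : Cn S h i a b A B X Y v u) (hh : 2 ≤ h) : ct (2 * h) (X, Y) ∉ S.P.Q ∧
    ct (2 * h) (X, Y + 1) ∉ S.P.Q ∧ ct (2 * h) (X - 1, Y) ∉ S.P.Q ∧ ct (2 * h) (X, Y - 1) ∉ S.P.Q ∧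
    ct (2 * h) (X + 1, Y) ∉ S.P.Q := by
  refine ⟨?_, ?_, ?_, ?_, ?_⟩ <;> rw [C.mem_iff hh (by omega) (by omega) (by omega) (by omega)] <;>
    unfold In <;> omega

lemma Cn.mark_not (C : Cn S h i a b A B X Y v u) (hh : 2 ≤ h)
    (hm : i + 1 = S.m2 ∨ i + 1 = S.m3 ∨ i + 1 = S.N) : lt (X, Y) ∉ (Lam3 S h : Set (ℤ × ℤ)) := by
  intro h1
  obtain ⟨n0, n1, n2, n3, n4⟩ := C.nonb hh
  rcases mem_Lam3.1 (mem_coe.1 h1) with h1 | ⟨i', hi, h1⟩ | ⟨i', hi, h1, h2⟩
  · unfold EE at h1
    rw [lt_mem_TL (by omega)] at h1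
    exact n0 h1
  · obtain ⟨-, h2⟩ := ly_nb (by omega) hi h1
    tauto
  · rw [← C.dgq] at h2
    have := dg_inj (by omega) hi C.lti h2
    subst this
    obtain ⟨-, h3, h4, h5⟩ := h1
    omega

lemma not_reach {G : SimpleGraph (ℤ × ℤ)} {J : Set (ℤ × ℤ)} (hJ : ∀ c d, G.Adj c d → c ∈ J → d ∈ J)
    {z c : ℤ × ℤ} (hz : z ∉ J) (hr : G.Reachable z c) : c ∉ J := by
  intro hc
  have key : ∀ c d, G.Reachable c d → c ∈ J → d ∈ J := by
    rintro c d ⟨q⟩
    induction q with
    | nil => exact id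
    | cons hadj _ ih => exact fun hc => ih (hJ _ _ hadj hc)
  exact hz (key _ _ hr.symm hc)

lemma mkI_mark (S : Shape) (j : Fin 3) : (mkI S j + 1 = S.m2 ∨ mkI S j + 1 = S.m3 ∨
    mkI S j + 1 = S.N) ∧ mkI S j < S.N := by
  have h02 := S.h02
  have h23 := S.h23
  have h34 := S.h34
  have hmN := S.P.hmN
  have eN : S.N = S.P.N := rfl
  unfold mkI
  split_ifs <;> omega

/-- **The strand of the end meets only the far end at a mark.** -/
theorem markside {j : Fin 3} (C : Cn S h (mkI S j) a b A B X Y v u) (E : XD S h p te xe) (hh : 2 ≤ h)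
    (hω : ω ⊆ EE S h) {c : ℤ × ℤ}
    (hc : c = eW (lt (X, Y)) ∨ c = eE (lt (X, Y)) ∨ c = eS (lt (X, Y)) ∨ c = eN (lt (X, Y)))
    (hr : (GW S h p ω).Reachable (eW (lt p)) c) : c = yy S h p j := by
  have hb := C.hb
  have ha := C.ha
  have par := C.par hh
  obtain ⟨hm, -⟩ := mkI_mark S j
  obtain ⟨y1, y2⟩ := yy_eq E hh C
  have dL := C.mark_not hh hm
  have zp : ((eW (lt p)).1 + (eW (lt p)).2) % 2 = 1 := lt_odd p
  have zV : ∀ x y, eW (lt p) ≠ iV b x y := fun x y h1 => by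
    rw [h1, iV_even] at zp; omega
  have zH : ∀ x y, X - 2 ≤ x → x ≤ X + 2 → Y - 2 ≤ y → y ≤ Y + 2 → ¬ (In a X x ∧ In b Y y) →
      ¬ (In a X (x - a) ∧ In b Y y) → eW (lt p) ≠ iH a x y := fun x y h1 h2 h3 h4 h5 h6 => by
    refine E.z_ne ha ?_ ?_
    · rw [C.mem_iff hh (by omega) (by omega) (by omega) (by omega)]; exact h5
    · rw [C.mem_iff hh (by omega) (by omega) (by omega) (by omega)]; exact h6
  rcases sides4 ha hb hc with rfl | rfl | rfl | rfl
  · -- inner vertical side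
    by_cases hk : κz S h p v Y
    · exact (y1 hk).symm
    exfalso
    have hu : κz S h p u Y := by
      by_contra h2
      exact hk ((C.col_ne E hh hm).2 h2)
    have wH : lt (X - a, Y) ∈ ω ∪ Wp S h p := mem_union_right _ ((C.wpH E hh).2 hu)
    obtain ⟨-, t⟩ := tjI (w := ω ∪ Wp S h p) ha hb (C.nD E hh (x := X - a) (by omega) (by omega)) (by
      unfold Al
      simp only [wH, true_iff]
      have : (X - a + Y) % 2 = 0 ↔ ¬ (X + Y) % 2 = 0 := by omega
      rw [this, par])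
    rw [oH_sub ha, oV_eq hb] at t
    refine not_reach (J := {c | c = iH a X Y ∨ c = iV b (X - a) (Y + b)}) ?_ ?_ hr (Or.inl rfl)
    · rintro c d hadj (rfl | rfl)
      · rcases adjH ha hadj with ⟨hΛ, -⟩ | ⟨-, hT⟩
        · exact absurd hΛ dL
        · right; exact hT.unique t
      · rcases adjV hb hadj with ⟨hΛ, -⟩ | ⟨-, hT⟩
        · exact absurd hΛ (C.not_lam hh (by omega) (by omega) (by omega) (by omega) (by omega))
        · rw [add_sub_cancel_right] at hT
          left; exact hT.unique t.symm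
    · rintro (h1 | h1)
      · exact zH _ _ (by omega) (by omega) (by omega) (by omega) (by unfold In; omega)
          (by unfold In; omega) h1
      · exact zV _ _ h1
  · -- outer vertical side
    exfalso
    rw [oH_eq ha] at hr
    refine not_reach (J := {c | c = iH a (X + a) Y}) ?_ ?_ hr rfl
    · rintro c d hadj rfl
      rcases adjH ha hadj with ⟨hΛ, -⟩ | ⟨hΛ, -⟩
      · exact absurd hΛ (C.not_lam hh (by omega) (by omega) (by omega) (by omega) (by omega))
      · rw [add_sub_cancel_right] at hΛ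
        exact absurd hΛ dL
    · exact zH _ _ (by omega) (by omega) (by omega) (by omega) (by unfold In; omega)
        (by unfold In; omega)
  · -- inner horizontal side
    by_cases hk : κz S h p v Y
    swap
    · exact (y2 hk).symm
    exfalso
    by_cases hD : lt (X, Y - b) ∈ Del S.P.Q (2 * h) p
    · obtain ⟨k1, k2, k3⟩ := C.delV E hh hD
      have t5 := tjD (w := ω ∪ Wp S h p) hb hD
      rw [oV_sub hb] at t5
      have hD2 : lt (X, Y - b - b) ∉ Del S.P.Q (2 * h) p := fun hD' => by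
        rw [E.del] at hD'; omega
      have w2 : lt (X, Y - b - b) ∉ ω ∪ Wp S h p := by
        rw [mem_union, not_or]
        refine ⟨C.no hh hω (by omega) (by omega) (by omega) (by omega) (by unfold In; omega), ?_⟩
        rw [C.wpV E hh (Or.inr rfl), C.col_V' E hh hD]
        exact not_not.2 hk
      obtain ⟨-, t6⟩ := tjI (w := ω ∪ Wp S h p) ha hb hD2 (by
        unfold Al
        simp only [w2, false_iff]
        have : (X + (Y - b - b)) % 2 = 0 ↔ (X + Y) % 2 = 0 := by omega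
        rw [this, par])
      rw [oH_eq ha, oV_sub hb] at t6
      refine not_reach (J := {c | c = iV b X Y ∨ c = iV b X (Y - b) ∨ c = iH a (X + a) (Y - b - b)})
        ?_ ?_ hr (Or.inl rfl)
      · rintro c d hadj (rfl | rfl | rfl)
        · rcases adjV hb hadj with ⟨hΛ, -⟩ | ⟨-, hT⟩
          · exact absurd hΛ dL
          · right; left; exact hT.unique t5.symm
        · rcases adjV hb hadj with ⟨-, hT⟩ | ⟨-, hT⟩
          · left; exact hT.unique t5
          · right; right; exact hT.unique t6.symm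
        · rcases adjH ha hadj with ⟨hΛ, -⟩ | ⟨-, hT⟩
          · exact absurd hΛ (C.not_lam hh (by omega) (by omega) (by omega) (by omega) (by omega))
          · rw [add_sub_cancel_right] at hT
            right; left; exact hT.unique t6
      · rintro (h1 | h1 | h1)
        · exact zV _ _ h1
        · exact zV _ _ h1
        · exact zH _ _ (by omega) (by omega) (by omega) (by omega) (by unfold In; omega)
            (by unfold In; omega) h1
    · have wV : lt (X, Y - b) ∈ ω ∪ Wp S h p := by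
        apply mem_union_right
        rw [C.wpV E hh (Or.inl rfl), C.col_V E hh hD]
        exact hk
      obtain ⟨-, t5⟩ := tjI (w := ω ∪ Wp S h p) ha hb hD (by
        unfold Al
        simp only [wV, true_iff]
        have : (X + (Y - b)) % 2 = 0 ↔ ¬ (X + Y) % 2 = 0 := by omega
        rw [this, par])
      rw [oH_eq ha, oV_sub hb] at t5
      refine not_reach (J := {c | c = iV b X Y ∨ c = iH a (X + a) (Y - b)}) ?_ ?_ hr (Or.inl rfl)
      · rintro c d hadj (rfl | rfl)
        · rcases adjV hb hadj with ⟨hΛ, -⟩ | ⟨-, hT⟩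
          · exact absurd hΛ dL
          · right; exact hT.unique t5.symm
        · rcases adjH ha hadj with ⟨hΛ, -⟩ | ⟨-, hT⟩
          · exact absurd hΛ (C.not_lam hh (by omega) (by omega) (by omega) (by omega) (by omega))
          · rw [add_sub_cancel_right] at hT
            left; exact hT.unique t5
      · rintro (h1 | h1)
        · exact zV _ _ h1
        · exact zH _ _ (by omega) (by omega) (by omega) (by omega) (by unfold In; omega)
            (by unfold In; omega) h1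
  · -- outer horizontal side
    exfalso
    rw [oV_eq hb] at hr
    refine not_reach (J := {c | c = iV b X (Y + b)}) ?_ ?_ hr rfl
    · rintro c d hadj rfl
      rcases adjV hb hadj with ⟨hΛ, -⟩ | ⟨hΛ, -⟩
      · exact absurd hΛ (C.not_lam hh (by omega) (by omega) (by omega) (by omega) (by omega))
      · rw [add_sub_cancel_right] at hΛ
        exact absurd hΛ dL
    · exact zV _ _

/-- **What the end reaches in the coherent world.** -/
theorem vc_gw (E : XD S h p te xe) (hh : 2 ≤ h) (hω : ω ⊆ EE S h) {c : ℤ × ℤ}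
    (hr : (SG (LamC S.P.Q (2 * h) : Set (ℤ × ℤ)) (Del S.P.Q (2 * h) p)
      (ω ∪ WC S.P (2 * h) (κz S h p))).Reachable (eW (lt p)) c) :
    (GW S h p ω).Reachable (eW (lt p)) c ∨ ∃ j, (GW S h p ω).Reachable (eW (lt p)) (yy S h p j) := by
  rw [SimpleGraph.reachable_iff_reflTransGen] at hr
  induction hr with
  | refl => exact Or.inl (SimpleGraph.Reachable.refl _)
  | @tail c d h1 h2 ih =>
    rcases ih with h1 | h1
    swap
    · exact Or.inr h1
    obtain ⟨e, he, hT⟩ := h2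
    rcases lamC_cases (by omega) (mem_coe.1 he) with hL | ⟨j, hL⟩
    swap
    · right
      obtain ⟨a, b, A, B, X, Y, v, u, C⟩ := exists_cn h (mkI_mark S j).2 (mkI_cvx S j)
      rw [C.dgq] at hL
      subst hL
      have := markside C E hh hω (side_cases _ hT.label) h1
      exact ⟨j, this ▸ h1⟩
    left
    refine h1.trans (SimpleGraph.Adj.reachable ?_)
    refine ⟨e, mem_coe.2 hL, ?_⟩
    by_cases hD : e ∈ Del S.P.Q (2 * h) p
    · exact (TJ_congr Iff.rfl (fun h3 => absurd hD h3)).1 hT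
    refine (TJ_congr Iff.rfl (fun _ => ?_)).1 hT
    rw [mem_union, mem_union]
    rcases mem_Lam3.1 hL with h3 | ⟨i, hi, h3⟩ | ⟨i, hi, h3, h4⟩
    · -- random tile
      have h4 : e ∉ Wp S h p := by
        intro h5
        unfold EE at h3
        rw [mem_TL (by omega)] at h3
        have ee : e = lt ((tt e).1, (tt e).2) := (lt_tt h3.1).symm
        rw [ee, wp_iff E (by omega)] at h5
        exact h5.1 h3.2
      have h5 : e ∉ WC S.P (2 * h) (κz S h p) := by
        intro h5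
        unfold EE at h3
        rw [mem_TL (by omega)] at h3
        have ee : e = lt ((tt e).1, (tt e).2) := (lt_tt h3.1).symm
        rw [ee, wc_iff (by omega)] at h5
        exact h5.2.1 h3.2
      simp only [h4, h5]
    · -- wall layer
      have ho : (e.1 + e.2) % 2 = 1 := ((mem_LY (by omega)).1 h3).1
      have ee : e = lt ((tt e).1, (tt e).2) := (lt_tt ho).symm
      rw [ee] at h3 hD ⊢
      obtain ⟨h4, h5⟩ := ly_nb (by omega) hi h3
      rw [agree E (by omega) h4 hD h5]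
    · -- diagonal tile
      obtain ⟨a, b, A, B, X, Y, v, u, C⟩ := exists_cn h hi h3.1
      rw [C.dgq] at h4
      subst h4
      have h5 : lt (X, Y) ∉ Wp S h p := C.wpd E hh
      have h6 : ¬ κz S h p v Y := by
        intro h6
        refine C.junk E hh hω h3.2.1 h3.2.2.1 h3.2.2.2 h6 ?_ h1
        exact side_cases _ hT.label
      have h7 : lt (X, Y) ∉ WC S.P (2 * h) (κz S h p) := fun h7 => h6 ((C.wcd hh).1 h7)
      simp only [h5, h7]

end Pool.Agent.H41.W
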