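import Mathlib
import Pool.Agent.H41.W.GCb
import Pool.Agent.H2.W.RSum

set_option autoImplicit false
open Finset

/-! # The observable of the glued world is that of the coherent world

`gc_iff` : the end is joined to the mark `j` in the coherent world iff it is in the glued world. `hf_hV`, `HF_hV` :
equality of the observables. -/

namespace Pool.Agent.H41.W

open Pool.Agent.H75.Perc hiding WL CT hh PB EE
open Pool.Agent.H75.TwoArm Pool.Agent.H75.Four Pool.Agent.Q1
open Pool.Agent.Q1.M4 (Cell PType IsSide nextSide tail head Good)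
open Pool.Agent.H33.Q1 Pool.Agent.H21.FM Pool.Agent.H99.W
open Pool.Agent.H13.W Pool.Agent.H74.W Pool.Agent.H58.W
open Pool.Agent.H50.W (bk rf)
open Pool.Agent.H37.W (dg dg_inj)
open Pool.Agent.H19.W (Tq LamC WC κz XA mkI)
open Pool.Agent.H2.W.Run (mkI_cvx)

variable {S : Shape} {h i : ℕ} {a b A B X Y x y xe : ℤ} {v u te : ℕ} {p : ℤ × ℤ}
  {ω : Finset (ℤ × ℤ)} {κ : ℕ → ℤ → Prop}

lemma iV_two (hb : b = 1 ∨ b = -1) : (lt (x, y) = lab (iV b x y) ∨ lt (x, y) = plab (iV b x y)) ∧
    (lt (x, y - b) = lab (iV b x y) ∨ lt (x, y - b) = plab (iV b x y)) := by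
  constructor
  · apply of_side (lt_odd _)
    unfold iV
    split_ifs
    · exact Or.inr (Or.inr (Or.inl rfl))
    · exact Or.inr (Or.inr (Or.inr rfl))
  · apply of_side (lt_odd _)
    rw [← oV_sub hb]
    unfold oV
    split_ifs
    · exact Or.inr (Or.inr (Or.inr rfl))
    · exact Or.inr (Or.inr (Or.inl rfl))

lemma end_iV {Λ D : Set (ℤ × ℤ)} {w : Finset (ℤ × ℤ)} (hb : b = 1 ∨ b = -1) (h1 : lt (x, y) ∉ Λ) :
    IsEnd (SG Λ D w) (iV b x y) := by
  apply isEnd_of_notMem
  rcases (iV_two (x := x) (y := y) hb).1 with h2 | h2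
  · left; rw [← h2]; exact h1
  · right; rw [← h2]; exact h1

/-- the alive loose side is a horizontal side between a tile of the world and an outer tile -/
lemma Cn.xa' (C : Cn S h i a b A B X Y v u) (hh : 2 ≤ h) : ∃ x', (x' = X ∨ x' = X - a) ∧
    XA S h κ i = iV b x' (Y + b) ∧ lt (x', Y) ∈ LamC S.P.Q (2 * h) ∧ lt (x', Y + b) ∉ LamC S.P.Q (2 * h) := by
  have hb := C.hb
  have ha := C.ha
  have hout : ∀ x', (x' = X ∨ x' = X - a) → lt (x', Y + b) ∉ LamC S.P.Q (2 * h) := fun x' hx h1 => by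
    rw [Pool.Agent.H2.W.Run.mem_LamC (by omega), tt_lt] at h1
    exact C.out hh (by omega) (by omega) (by omega) (by omega) (by omega) h1.2
  by_cases hk : κ v Y
  · refine ⟨X, Or.inl rfl, ?_, ?_, hout _ (Or.inl rfl)⟩
    · rw [(C.xa hh).1 hk, oV_eq hb]
    · rw [Pool.Agent.H2.W.Run.mem_LamC (by omega), tt_lt]
      exact ⟨lt_odd _, C.tq hh⟩
  · refine ⟨X - a, Or.inr rfl, ?_, ?_, hout _ (Or.inr rfl)⟩
    · rw [(C.xa hh).2 hk, oV_eq hb]
    · rw [Pool.Agent.H2.W.Run.mem_LamC (by omega), tt_lt]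
      refine ⟨lt_odd _, (X - a, Y - b), ?_, ?_, ?_⟩
      · simp
      · simp only; rw [abs_le]; omega
      · rw [C.mem_iff hh (by omega) (by omega) (by omega) (by omega)]
        unfold In; omega

/-- different marks have different loose sides -/
theorem XA_inj (hh : 2 ≤ h) {κ' : ℕ → ℤ → Prop} {j j' : Fin 3}
    (he : XA S h κ (mkI S j) = XA S h κ' (mkI S j')) : j = j' := by
  obtain ⟨a, b, A, B, X, Y, v, u, C⟩ := exists_cn h (mkI_mark S j).2 (mkI_cvx S j)
  obtain ⟨a', b', A', B', X', Y', v', u', C'⟩ := exists_cn h (mkI_mark S j').2 (mkI_cvx S j')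
  obtain ⟨x1, h1, h2, h3, h4⟩ := C.xa' (κ := κ) hh
  obtain ⟨x2, h1', h2', h3', h4'⟩ := C'.xa' (κ := κ') hh
  rw [h2, h2'] at he
  have ha := C.ha
  have hb := C.hb
  have ha' := C'.ha
  have hb' := C'.hb
  obtain ⟨t1, t2⟩ := iV_two (x := x1) (y := Y + b) hb
  obtain ⟨t3, t4⟩ := iV_two (x := x2) (y := Y' + b') hb'
  rw [add_sub_cancel_right] at t2 t4
  rw [← he] at t3 t4
  have hne : lt (x1, Y) ≠ lt (x1, Y + b) := by
    intro h5
    have := congrArg Prod.snd (lt_inj h5)
    simp only at this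
    omega
  have key : lt (x2, Y') = lt (x1, Y) := by
    rcases two t2 t1 hne t4 with h5 | h5
    · exact h5
    · exact absurd (h5 ▸ h3') h4
  have e1 := congrArg Prod.fst (lt_inj key)
  have e2 := congrArg Prod.snd (lt_inj key)
  simp only at e1 e2
  obtain ⟨n0, n1, n2, n3, n4⟩ := C.nonb hh
  obtain ⟨n0', n1', n2', n3', n4'⟩ := C'.nonb hh
  have hinj : mkI S j = mkI S j' → j = j' := by
    have h02 := S.h02
    have h23 := S.h23
    have h34 := S.h34
    have hmN := S.P.hmN
    have eN : S.N = S.P.N := rfl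
    intro h5
    unfold mkI at h5
    have c1 : j = 0 ∨ j = 1 ∨ j = 2 := by fin_cases j <;> simp
    have c2 : j' = 0 ∨ j' = 1 ∨ j' = 2 := by fin_cases j' <;> simp
    rcases c1 with rfl | rfl | rfl <;> rcases c2 with rfl | rfl | rfl <;>
      first
      | rfl
      | (exfalso
         simp only [show ¬ ((1 : Fin 3) = 0) by decide, show ¬ ((2 : Fin 3) = 0) by decide,
           show ¬ ((2 : Fin 3) = 1) by decide, if_true, if_false] at h5
         omega)
  have hX : X = X' → j = j' := fun h5 => by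
    apply hinj
    refine dg_inj (by omega) (mkI_mark S j).2 (mkI_mark S j').2 (h := h) ?_
    rw [C.dgq, C'.dgq, h5, e2]
  have hH : ct (2 * h) (X - a, Y + 1) ∈ S.P.Q ∨ ct (2 * h) (X - a, Y - 1) ∈ S.P.Q := by
    rcases hb with hb | hb
    · right
      rw [C.mem_iff hh (by omega) (by omega) (by omega) (by omega)]; unfold In; omega
    · left
      rw [C.mem_iff hh (by omega) (by omega) (by omega) (by omega)]; unfold In; omega
  have hH' : ct (2 * h) (X' - a', Y' + 1) ∈ S.P.Q ∨ ct (2 * h) (X' - a', Y' - 1) ∈ S.P.Q := by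
    rcases hb' with hb | hb
    · right
      rw [C'.mem_iff hh (by omega) (by omega) (by omega) (by omega)]; unfold In; omega
    · left
      rw [C'.mem_iff hh (by omega) (by omega) (by omega) (by omega)]; unfold In; omega
  rcases h1 with h1 | h1 <;> rcases h1' with h1' | h1'
  · exact hX (by omega)
  · exfalso
    rw [← h1', e1, e2, h1] at hH'
    rcases hH' with h5 | h5
    · exact n1 h5
    · exact n3 h5
  · exfalso
    rw [← h1, ← e1, ← e2, h1'] at hH
    rcases hH with h5 | h5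
    · exact n1' h5
    · exact n3' h5
  · by_cases h5 : X = X'
    · exact hX h5
    exfalso
    have h6 : X' = X - a - a := by omega
    have h7 : ct (2 * h) (X - a - a, Y + 1) ∈ S.P.Q ∨ ct (2 * h) (X - a - a, Y - 1) ∈ S.P.Q := by
      rcases hb with hb | hb
      · right
        rw [C.mem_iff hh (by omega) (by omega) (by omega) (by omega)]; unfold In; omega
      · left
        rw [C.mem_iff hh (by omega) (by omega) (by omega) (by omega)]; unfold In; omega
    rw [← h6, ← e2] at h7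
    rcases h7 with h8 | h8
    · exact n1' h8
    · exact n3' h8

/-- **Uniqueness of the far end in a coherent world.** -/
theorem xa_uniq (hh : 2 ≤ h) {D : Set (ℤ × ℤ)} {w : Finset (ℤ × ℤ)} (hp : lt p ∈ D) {j j' : Fin 3}
    (h1 : (SG (LamC S.P.Q (2 * h) : Set (ℤ × ℤ)) D w).Reachable (eW (lt p)) (XA S h κ (mkI S j)))
    (h2 : (SG (LamC S.P.Q (2 * h) : Set (ℤ × ℤ)) D w).Reachable (eW (lt p)) (XA S h κ (mkI S j'))) :
    j = j' := by
  obtain ⟨a, b, A, B, X, Y, v, u, C⟩ := exists_cn h (mkI_mark S j).2 (mkI_cvx S j)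
  obtain ⟨a', b', A', B', X', Y', v', u', C'⟩ := exists_cn h (mkI_mark S j').2 (mkI_cvx S j')
  obtain ⟨x1, -, k2, -, k4⟩ := C.xa' (κ := κ) hh
  obtain ⟨x2, -, k2', -, k4'⟩ := C'.xa' (κ := κ) hh
  have e0 : IsEnd (SG (LamC S.P.Q (2 * h) : Set (ℤ × ℤ)) D w) (eW (lt p)) := isEnd_eW hp (lt_odd p)
  have e1 : IsEnd (SG (LamC S.P.Q (2 * h) : Set (ℤ × ℤ)) D w) (XA S h κ (mkI S j)) := by
    rw [k2]; exact end_iV C.hb (fun h3 => k4 (mem_coe.1 h3))
  have e2 : IsEnd (SG (LamC S.P.Q (2 * h) : Set (ℤ × ℤ)) D w) (XA S h κ (mkI S j')) := by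
    rw [k2']; exact end_iV C'.hb (fun h3 => k4' (mem_coe.1 h3))
  have zp : ((eW (lt p)).1 + (eW (lt p)).2) % 2 = 1 := lt_odd p
  have n1 : eW (lt p) ≠ XA S h κ (mkI S j) := by
    intro h3; rw [h3, k2, iV_even] at zp; omega
  have n2 : XA S h κ (mkI S j') ≠ eW (lt p) := by
    intro h3; rw [← h3, k2', iV_even] at zp; omega
  rcases ends_two SG_deg2 e0 e1 e2 h1 h2 n1 with h3 | h3
  · exact absurd h3 n2
  · exact (XA_inj hh h3).symm

lemma del_self (S : Shape) (h : ℕ) (p : ℤ × ℤ) : lt p ∈ Del S.P.Q (2 * h) p := by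
  refine ⟨lt_odd p, by rw [tt_lt], by rw [tt_lt], fun x h1 h2 => ?_⟩
  rw [tt_lt] at h2
  omega

/-- **The far end is the same in both worlds.** -/
theorem gc_iff (hh : 2 ≤ h) (hx : ∃ t, Ex S h p t) (hω : ω ⊆ EE S h) {j : Fin 3} :
    (GW S h p ω).Reachable (eW (lt p)) (yy S h p j) ↔
    (SG (LamC S.P.Q (2 * h) : Set (ℤ × ℤ)) (Del S.P.Q (2 * h) p)
      (ω ∪ WC S.P (2 * h) (κz S h p))).Reachable (eW (lt p)) (XA S h (κz S h p) (mkI S j)) := by
  refine ⟨gc hh hx hω, fun h1 => ?_⟩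
  obtain ⟨te, xe, E⟩ := exists_xd (by omega) hx
  rcases vc_gw E hh hω h1 with h2 | ⟨j', h2⟩
  · obtain ⟨a, b, A, B, X, Y, v, u, C⟩ := exists_cn h (mkI_mark S j).2 (mkI_cvx S j)
    have hb := C.hb
    have ha := C.ha
    have hsV : oV b X Y = eW (lt (X, Y)) ∨ oV b X Y = eE (lt (X, Y)) ∨ oV b X Y = eS (lt (X, Y)) ∨
        oV b X Y = eN (lt (X, Y)) := by
      unfold oV
      split_ifs <;> simp
    have hsH : iH a X Y = eW (lt (X, Y)) ∨ iH a X Y = eE (lt (X, Y)) ∨ iH a X Y = eS (lt (X, Y)) ∨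
        iH a X Y = eN (lt (X, Y)) := by
      unfold iH
      split_ifs <;> simp
    by_cases hk : κz S h p v Y
    · rw [(C.xa hh).1 hk] at h2
      exact markside C E hh hω hsV h2 ▸ h2
    · rw [(C.xa hh).2 hk] at h2
      have par := C.par hh
      have hu : κz S h p u Y := by
        by_contra h3
        exact hk ((C.col_ne E hh (mkI_mark S j).1).2 h3)
      have wH : lt (X - a, Y) ∈ ω ∪ Wp S h p := mem_union_right _ ((C.wpH E hh).2 hu)
      obtain ⟨-, t⟩ := tjI (w := ω ∪ Wp S h p) ha hb (C.nD E hh (x := X - a) (by omega) (by omega)) (by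
        unfold Pool.Agent.H21.W.Al
        simp only [wH, true_iff]
        have : (X - a + Y) % 2 = 0 ↔ ¬ (X + Y) % 2 = 0 := by omega
        rw [this, par])
      rw [oH_sub ha] at t
      have hL : lt (X - a, Y) ∈ (Lam3 S h : Set (ℤ × ℤ)) := by
        rw [mem_coe]
        refine Pool.Agent.H68.W.near_Lam3 (by omega) ?_
        rcases hb with hb | hb
        · right; right; left
          have := (C.mem_iff hh (x := X - a) (y := Y - 1) (by omega) (by omega) (by omega) (by omega)).2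
            (by unfold In; omega)
          exact this
        · left
          have := (C.mem_iff hh (x := X - a) (y := Y + 1) (by omega) (by omega) (by omega) (by omega)).2
            (by unfold In; omega)
          exact this
      have a1 : (GW S h p ω).Adj (oV b (X - a) Y) (iH a X Y) := ⟨_, hL, t.symm⟩
      have h3 := h2.trans a1.reachable
      exact markside C E hh hω hsH h3 ▸ h3
  · have h3 := gc hh hx hω h2
    have h4 := xa_uniq hh (del_self S h p) h1 h3
    subst h4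
    exact h2

section

variable {β : Type*} [DecidableEq β]

/-- **The observable of a shape in the coherent world.** -/
theorem hf_hV (hh : 2 ≤ h) (hx : ∃ t, Ex S h p t) (pl : Cell → Option β) :
    hf S h pl p = Pool.Agent.H2.W.Run.hV S.P (2 * (h : ℤ)) (κz S h p) (Del S.P.Q (2 * (h : ℤ)) p) pl (eW (lt p))
      (fun j => XA S h (κz S h p) (mkI S j)) := by
  unfold hf Pool.Agent.H2.W.Run.hV pj
  refine sum_congr rfl fun j _ => ?_
  congr 2
  exact PB_congr fun ω hω => gc_iff hh hx hω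

end

/-- **The observable of the glued world in the coherent world.** -/
theorem HF_hV {b : ℤ} {k : ℕ × ℕ} (hM : 0 < k.1 * k.2) (hh : 2 ≤ h)
    (hx : ∃ t, Ex (rf S (k.1 * k.2) hM) h p t) :
    HF S b k h p = Pool.Agent.H2.W.Run.hV (rf S (k.1 * k.2) hM).P (2 * (h : ℤ))
      (κz (rf S (k.1 * k.2) hM) h p) (Del (rf S (k.1 * k.2) hM).P.Q (2 * (h : ℤ)) p)
      (plV (chG S.P.Q) b k.1 k.2) (eW (lt p))
      (fun j => XA (rf S (k.1 * k.2) hM) h (κz (rf S (k.1 * k.2) hM) h p) (mkI (rf S (k.1 * k.2) hM) j)) := by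
  unfold HF
  rw [dif_pos hM]
  exact hf_hV hh hx _

end Pool.Agent.H41.W
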