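import Mathlib
import Pool.Agent.H41.W.Loc
import Pool.Agent.H50.W.RefShape

set_option autoImplicit false
open Finset

/-!
# Good polyominoes of tiles are discs

`TI Q` : the labels of the tiles of `Q`. For a domain type `P` at the level of tiles (`P.N = 2 n`, the
walk starts at an even tile corner), `TI P.Q` is a disc with boundary vertices `vt (P.vert (2 s))` and
boundary faces `fcT (P.vert (2 s - 1))`. `disc_TL` : the same for the tiles of a polygon at scale `2 h`.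
-/

namespace Pool.Agent.H41.W

open Pool.Agent.H75.Perc hiding WL CT hh
open Pool.Agent.H75.TwoArm Pool.Agent.H75.Four Pool.Agent.H75.Four.PivAux
open Pool.Agent.H33.Q1 (lt tt ct TL lt_odd tt_lt lt_tt lt_inj mem_TL tv tf)
open Pool.Agent.Q1.M4 (Cell Good IsSide nextSide tail head PType Adj4 Conn4 Eqv)

/-- labels of a set of tiles -/
noncomputable def TI (Q : Finset Cell) : Finset (ℤ × ℤ) := Q.image lt

lemma mem_TI {Q : Finset Cell} {e : ℤ × ℤ} : e ∈ TI Q ↔ (e.1 + e.2) % 2 = 1 ∧ tt e ∈ Q := by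
  unfold TI
  rw [mem_image]
  constructor
  · rintro ⟨p, hp, rfl⟩
    exact ⟨lt_odd p, by rw [tt_lt]; exact hp⟩
  · rintro ⟨h1, h2⟩
    exact ⟨tt e, h2, lt_tt h1⟩

lemma lt_mem_TI {Q : Finset Cell} {p : ℤ × ℤ} : lt p ∈ TI Q ↔ p ∈ Q := by
  rw [mem_TI, tt_lt]
  exact ⟨fun h => h.2, fun h => ⟨lt_odd p, h⟩⟩

/-- the vertex at an even tile corner -/
def vt (p : ℤ × ℤ) : ℤ × ℤ := ((p.1 - p.2) / 2, (p.1 + p.2) / 2)

/-- the face at an odd tile corner -/
def fcT (p : ℤ × ℤ) : ℤ × ℤ := ((p.1 - p.2 + 1) / 2, (p.1 + p.2 + 1) / 2)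

lemma tv_vt {p : ℤ × ℤ} (h : (p.1 + p.2) % 2 = 0) : tv (vt p) = p := by
  unfold tv vt
  refine Prod.ext ?_ ?_ <;> simp only <;> omega

lemma vt_tv (w : ℤ × ℤ) : vt (tv w) = w := by
  unfold tv vt
  refine Prod.ext ?_ ?_ <;> simp only <;> omega

lemma tv_even (w : ℤ × ℤ) : ((tv w).1 + (tv w).2) % 2 = 0 := by
  unfold tv
  simp only
  omega

lemma vt_inj {p q : ℤ × ℤ} (hp : (p.1 + p.2) % 2 = 0) (hq : (q.1 + q.2) % 2 = 0)
    (h : vt p = vt q) : p = q := by
  rw [← tv_vt hp, h, tv_vt hq]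

/-- the four labels at an even corner -/
lemma dg_vt (n : ℤ × ℤ → ZMod 2) {a b : ℤ} (h : (a + b) % 2 = 0) :
    dg n (vt (a, b)) = n (lt (a, b - 1)) + n (lt (a - 1, b)) + n (lt (a, b)) +
      n (lt (a - 1, b - 1)) := by
  unfold dg vt lt
  simp only
  congr 1
  · congr 1
    · congr 1
      · congr 1; refine Prod.ext ?_ ?_ <;> simp only <;> omega
      · congr 1; refine Prod.ext ?_ ?_ <;> simp only <;> omega
    · congr 1; refine Prod.ext ?_ ?_ <;> simp only <;> omega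
  · congr 1; refine Prod.ext ?_ ?_ <;> simp only <;> omega

lemma dl_even (S : ℤ × ℤ → ZMod 2) {a b : ℤ} (h : (a + b) % 2 = 0) :
    dl S (lt (a, b)) = S (fcT (a, b + 1)) + S (fcT (a + 1, b)) := by
  unfold dl lt fcT
  simp only
  rw [if_neg (by omega)]
  congr 1
  · congr 1; refine Prod.ext ?_ ?_ <;> simp only <;> omega
  · congr 1; refine Prod.ext ?_ ?_ <;> simp only <;> omega

lemma dl_odd (S : ℤ × ℤ → ZMod 2) {a b : ℤ} (h : (a + b) % 2 = 1) :
    dl S (lt (a, b)) = S (fcT (a, b)) + S (fcT (a + 1, b + 1)) := by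
  unfold dl lt fcT
  simp only
  rw [if_pos (by omega)]
  congr 1
  congr 1; refine Prod.ext ?_ ?_ <;> simp only <;> omega

/-- the cells around the head of a side -/
lemma head_cells {Q : Finset Cell} {s : Cell × ℤ} (hs : IsSide Q s) {a b : ℤ}
    (h : head s = (a, b)) :
    (tail s = (a - 1, b) ∧ (a - 1, b) ∈ Q ∧ (a - 1, b - 1) ∉ Q) ∨
    (tail s = (a, b - 1) ∧ (a - 1, b - 1) ∈ Q ∧ (a, b - 1) ∉ Q) ∨
    (tail s = (a + 1, b) ∧ (a, b - 1) ∈ Q ∧ (a, b) ∉ Q) ∨
    (tail s = (a, b + 1) ∧ (a, b) ∈ Q ∧ (a - 1, b) ∉ Q) := by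
  obtain ⟨⟨c, d⟩, hcd⟩ : ∃ p : ℤ × ℤ, tail s = p := ⟨_, rfl⟩
  have hc := Pool.Agent.Q1.M4.side_cells hs hcd
  have hh : tail s + dir s.2 = (a, b) := h
  rw [hcd] at hh
  rw [hcd]
  rcases hc with ⟨k, -, p1, p2⟩ | ⟨k, -, p1, p2⟩ | ⟨k, -, p1, p2⟩ | ⟨k, -, p1, p2⟩ <;>
  rcases dir_cases s.2 with ⟨k', e⟩ | ⟨k', e⟩ | ⟨k', e⟩ | ⟨k', e⟩ <;>
  first
  | (exfalso; omega)
  | (rw [e] at hh
     simp only [Prod.mk_add_mk, Prod.mk.injEq] at hh
     obtain ⟨rfl, rfl⟩ := hh)
  · left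
    refine ⟨?_, ?_, ?_⟩
    · refine Prod.ext ?_ ?_ <;> simp
    · simpa using p1
    · simpa using p2
  · right; left
    refine ⟨?_, ?_, ?_⟩
    · refine Prod.ext ?_ ?_ <;> simp
    · simpa using p1
    · simpa using p2
  · right; right; left
    refine ⟨?_, ?_, ?_⟩
    · refine Prod.ext ?_ ?_ <;> simp
    · have e1 : ((c + -1, d + 0 - 1) : Cell) = (c - 1, d - 1) := by
        refine Prod.ext ?_ ?_ <;> simp only <;> ring
      rw [e1]; exact p1
    · have e1 : ((c + -1, d + 0) : Cell) = (c - 1, d) := by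
        refine Prod.ext ?_ ?_ <;> simp only <;> ring
      rw [e1]; exact p2
  · right; right; right
    refine ⟨?_, ?_, ?_⟩
    · refine Prod.ext ?_ ?_ <;> simp
    · have e1 : ((c + 0, d + -1) : Cell) = (c, d - 1) := by
        refine Prod.ext ?_ ?_ <;> simp only <;> ring
      rw [e1]; exact p1
    · have e1 : ((c + 0 - 1, d + -1) : Cell) = (c - 1, d - 1) := by
        refine Prod.ext ?_ ?_ <;> simp only <;> ring
      rw [e1]; exact p2

/-- **the sector outside at a boundary vertex** -/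
lemma out_sector {Q : Finset Cell} (hQ : Good Q) {s s' : Cell × ℤ} (hs : IsSide Q s)
    (hs' : IsSide Q s') (h : head s = tail s') {a b : ℤ} (hp : tail s' = (a, b))
    (hab : (a + b) % 2 = 0) (S : ℤ × ℤ → ZMod 2) :
    dg (fun l => if l ∈ TI Q then 0 else dl S l) (vt (a, b)) =
      S (fcT (tail s)) + S (fcT (head s')) := by
  have c1 := head_cells hs (h.trans hp)
  have c2 := Pool.Agent.Q1.M4.side_cells hs' hp
  have d1 := hQ.diag1 (a - 1, b - 1)
  have d2 := hQ.diag2 (a - 1, b - 1)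
  simp only [Prod.mk_add_mk, sub_add_cancel, add_zero] at d1 d2
  have e0 := dl_even S hab
  have e1 := dl_odd S (a := a) (b := b - 1) (by omega)
  have e2 := dl_even S (a := a - 1) (b := b - 1) (by omega)
  have e3 := dl_odd S (a := a - 1) (b := b) (by omega)
  simp only [sub_add_cancel] at e0 e1 e2 e3
  rw [dg_vt _ hab]
  simp only [lt_mem_TI, e0, e1, e2, e3]
  have hh : head s' = (a, b) + dir s'.2 := by unfold head; rw [hp]
  have fin1 : ∀ x y z w : ZMod 2, x + y + (z + w) + (x + z) + (y + w) = 0 := by decide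
  rcases c1 with ⟨t1, p1, q1⟩ | ⟨t1, p1, q1⟩ | ⟨t1, p1, q1⟩ | ⟨t1, p1, q1⟩ <;>
  rcases c2 with ⟨k2, -, p2, q2⟩ | ⟨k2, -, p2, q2⟩ | ⟨k2, -, p2, q2⟩ | ⟨k2, -, p2, q2⟩ <;>
  first
  | (exfalso; tauto)
  | (rcases dir_cases s'.2 with ⟨k', e⟩ | ⟨k', e⟩ | ⟨k', e⟩ | ⟨k', e⟩ <;>
     first
     | (exfalso; omega)
     | (rw [e] at hh
        rw [t1, hh]
        simp only [Prod.mk_add_mk, add_zero]
        have hin0 : (a, b) ∈ Q ∨ (a, b) ∉ Q := em _
        have hin1 : (a, b - 1) ∈ Q ∨ (a, b - 1) ∉ Q := em _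
        have hin2 : (a - 1, b - 1) ∈ Q ∨ (a - 1, b - 1) ∉ Q := em _
        have hin3 : (a - 1, b) ∈ Q ∨ (a - 1, b) ∉ Q := em _
        rcases hin0 with i0 | i0 <;> rcases hin1 with i1 | i1 <;> rcases hin2 with i2 | i2 <;>
        rcases hin3 with i3 | i3 <;>
        first
        | (exfalso; tauto)
        | (have en : b + -1 = b - 1 := rfl
           have em' : a + -1 = a - 1 := rfl
           simp only [i0, i1, i2, i3, if_true, if_false, zero_add, add_zero, en, em'] <;>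
           (generalize S (fcT (a, b + 1)) = x
            generalize S (fcT (a + 1, b)) = y
            generalize S (fcT (a, b - 1)) = z
            generalize S (fcT (a - 1, b)) = w
            revert x y z w
            decide))))

/-- the labels of the tiles near `Q` and outside `Q` -/
noncomputable def RO (Q : Finset Cell) : Finset (ℤ × ℤ) :=
  (Q.biUnion fun c => (Icc (c.1 - 1) (c.1 + 1)) ×ˢ (Icc (c.2 - 1) (c.2 + 1))).image lt \ TI Q

lemma lt_mem_RO {Q : Finset Cell} {p c : ℤ × ℤ} (hc : c ∈ Q) (hp : p ∉ Q)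
    (h1 : c.1 - 1 ≤ p.1 ∧ p.1 ≤ c.1 + 1) (h2 : c.2 - 1 ≤ p.2 ∧ p.2 ≤ c.2 + 1) : lt p ∈ RO Q := by
  unfold RO
  rw [mem_sdiff, lt_mem_TI]
  refine ⟨mem_image_of_mem _ (mem_biUnion.2 ⟨c, hc, ?_⟩), hp⟩
  rw [mem_product, mem_Icc, mem_Icc]
  exact ⟨h1, h2⟩

/-- a tile joins its two vertices -/
lemma co_tile_odd {R : Finset (ℤ × ℤ)} {a b : ℤ} (h : (a + b) % 2 = 1) (hR : lt (a, b) ∈ R) :
    Co R (vt (a + 1, b)) (vt (a, b + 1)) := by
  refine Relation.ReflTransGen.single ⟨?_, ?_⟩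
  · unfold vt IsUnit4
    simp only [Prod.mk_sub_mk, Prod.mk.injEq]
    omega
  · convert hR using 1
    unfold vt lt
    refine Prod.ext ?_ ?_ <;> simp only [Prod.mk_add_mk] <;> omega

lemma co_tile_even {R : Finset (ℤ × ℤ)} {a b : ℤ} (h : (a + b) % 2 = 0) (hR : lt (a, b) ∈ R) :
    Co R (vt (a, b)) (vt (a + 1, b + 1)) := by
  refine Relation.ReflTransGen.single ⟨?_, ?_⟩
  · unfold vt IsUnit4
    simp only [Prod.mk_sub_mk, Prod.mk.injEq]
    omega
  · convert hR using 1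
    unfold vt lt
    refine Prod.ext ?_ ?_ <;> simp only [Prod.mk_add_mk] <;> omega

/-- consecutive boundary vertices are joined outside -/
lemma co_outer {Q : Finset Cell} (hQ : Good Q) {s s' : Cell × ℤ} (hs : IsSide Q s)
    (hs' : IsSide Q s') (h : head s = tail s') {a b : ℤ} (hp : tail s' = (a, b))
    (hab : (a + b) % 2 = 1) : Co (RO Q) (vt (tail s)) (vt (head s')) := by
  have c1 := head_cells hs (h.trans hp)
  have c2 := Pool.Agent.Q1.M4.side_cells hs' hp
  have d1 := hQ.diag1 (a - 1, b - 1)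
  have d2 := hQ.diag2 (a - 1, b - 1)
  simp only [Prod.mk_add_mk, sub_add_cancel, add_zero] at d1 d2
  -- a cell of `Q` next to the corner
  obtain ⟨c, hc, hc1, hc2⟩ : ∃ c ∈ Q, (a - 1 ≤ c.1 ∧ c.1 ≤ a) ∧ (b - 1 ≤ c.2 ∧ c.2 ≤ b) := by
    rcases c1 with ⟨-, p1, -⟩ | ⟨-, p1, -⟩ | ⟨-, p1, -⟩ | ⟨-, p1, -⟩ <;>
    exact ⟨_, p1, by simp only; omega, by simp only; omega⟩
  have n0 : (a, b) ∉ Q → Co (RO Q) (vt (a + 1, b)) (vt (a, b + 1)) := fun h =>
    co_tile_odd hab (lt_mem_RO hc h (by simp only; omega) (by simp only; omega))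
  have n1 : (a, b - 1) ∉ Q → Co (RO Q) (vt (a, b - 1)) (vt (a + 1, b)) := fun h => by
    have := co_tile_even (a := a) (b := b - 1) (by omega) (lt_mem_RO hc h (by simp only; omega)
      (by simp only; omega))
    rwa [sub_add_cancel] at this
  have n2 : (a - 1, b - 1) ∉ Q → Co (RO Q) (vt (a, b - 1)) (vt (a - 1, b)) := fun h => by
    have := co_tile_odd (a := a - 1) (b := b - 1) (by omega) (lt_mem_RO hc h (by simp only; omega)
      (by simp only; omega))
    rwa [sub_add_cancel, sub_add_cancel] at this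
  have n3 : (a - 1, b) ∉ Q → Co (RO Q) (vt (a - 1, b)) (vt (a, b + 1)) := fun h => by
    have := co_tile_even (a := a - 1) (b := b) (by omega) (lt_mem_RO hc h (by simp only; omega)
      (by simp only; omega))
    rwa [sub_add_cancel] at this
  have hh : head s' = (a, b) + dir s'.2 := by unfold head; rw [hp]
  have en : b + -1 = b - 1 := rfl
  have em' : a + -1 = a - 1 := rfl
  rcases c1 with ⟨t1, p1, q1⟩ | ⟨t1, p1, q1⟩ | ⟨t1, p1, q1⟩ | ⟨t1, p1, q1⟩ <;>
  rcases c2 with ⟨k2, -, p2, q2⟩ | ⟨k2, -, p2, q2⟩ | ⟨k2, -, p2, q2⟩ | ⟨k2, -, p2, q2⟩ <;>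
  first
  | (exfalso; tauto)
  | (rcases dir_cases s'.2 with ⟨k', e⟩ | ⟨k', e⟩ | ⟨k', e⟩ | ⟨k', e⟩ <;>
     first
     | (exfalso; omega)
     | (rw [e] at hh
        rw [t1, hh]
        simp only [Prod.mk_add_mk, add_zero, en, em']
        by_cases i0 : (a, b) ∈ Q <;> by_cases i1 : (a, b - 1) ∈ Q <;>
        by_cases i2 : (a - 1, b - 1) ∈ Q <;> by_cases i3 : (a - 1, b) ∈ Q <;>
        first
        | (exfalso; tauto)
        | exact n0 i0
        | exact n1 i1
        | exact n2 i2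
        | exact n3 i3
        | exact (n0 i0).symm
        | exact (n1 i1).symm
        | exact (n2 i2).symm
        | exact (n3 i3).symm
        | exact (n2 i2).symm.trans (n1 i1)
        | exact (n1 i1).trans (n0 i0)
        | exact (n0 i0).trans (n3 i3).symm
        | exact (n3 i3).symm.trans (n2 i2).symm
        | exact ((n2 i2).symm.trans (n1 i1)).trans (n0 i0)
        | exact ((n1 i1).trans (n0 i0)).trans (n3 i3).symm
        | exact ((n0 i0).trans (n3 i3).symm).trans (n2 i2).symm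
        | exact ((n3 i3).symm.trans (n2 i2).symm).trans (n1 i1)))

/-! ### The instance -/

section inst

variable (P : PType)

/-- the boundary corner number `q` -/
noncomputable def bq (q : ℤ) : ℤ × ℤ := P.vert (q % P.N).toNat

variable {P}

lemma N_pos : 0 < P.N := by have := P.hm0; have := P.hmN; omega

lemma vert_add_N (m : ℕ) : P.vert (m + P.N) = P.vert m := by
  unfold PType.vert
  rw [P.side_add_N]
  unfold tail
  simp only
  have : ((P.side m).2 + 4) % 4 = (P.side m).2 % 4 := by omega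
  rw [this]

lemma vert_add_mul (m k : ℕ) : P.vert (m + k * P.N) = P.vert m := by
  induction k with
  | zero => simp
  | succ k ih => rw [add_mul, one_mul, ← add_assoc, vert_add_N, ih]

lemma vert_mod (m : ℕ) : P.vert (m % P.N) = P.vert m := by
  conv_rhs => rw [← Nat.mod_add_div m P.N, mul_comm]
  rw [vert_add_mul]

lemma bq_nat {q : ℤ} {m : ℕ} (h : (P.N : ℤ) ∣ (m : ℤ) - q) : bq P q = P.vert m := by
  unfold bq
  have h1 : q % P.N = (m : ℤ) % P.N := (Int.emod_emod_of_dvd _ (dvd_refl _)).symm.trans (by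
    rw [Int.emod_emod_of_dvd _ (dvd_refl _)]
    exact Int.ModEq.symm (Int.modEq_iff_dvd.2 (by
      have := dvd_neg.2 h; rwa [neg_sub] at this)))
  rw [h1, show ((m : ℤ) % P.N).toNat = m % P.N by
    rw [← Int.natCast_mod, Int.toNat_natCast], vert_mod]

lemma exists_rep (P : PType) (q : ℤ) : ∃ m : ℕ, (P.N : ℤ) ∣ ((m + 1 : ℕ) : ℤ) - q := by
  have hN : (0 : ℤ) < P.N := by exact_mod_cast N_pos (P := P)
  refine ⟨((q - 1) % P.N).toNat, ?_⟩
  have h1 := Int.emod_nonneg (q - 1) hN.ne'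
  push_cast
  rw [Int.toNat_of_nonneg h1]
  have := Int.emod_add_mul_ediv (q - 1) P.N
  exact ⟨-((q - 1) / P.N), by linarith⟩

lemma vert_par (m : ℕ) : ((P.vert m).1 + (P.vert m).2 - (P.vert 0).1 - (P.vert 0).2 - m) % 2 = 0 := by
  induction m with
  | zero => simp
  | succ m ih =>
    rw [P.vert_succ]
    rcases dir_cases (P.side m).2 with ⟨-, e⟩ | ⟨-, e⟩ | ⟨-, e⟩ | ⟨-, e⟩ <;>
    · rw [e]
      simp only [Prod.fst_add, Prod.snd_add]
      push_cast
      omega

lemma head_side (P : PType) (m : ℕ) : head (P.side m) = P.vert (m + 1) := by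
  rw [P.vert_succ]
  rfl

/-- every corner with a tile inside and a tile outside is a boundary corner -/
lemma exists_side {Q : Finset Cell} {a b : ℤ}
    (h1 : (a, b) ∈ Q ∨ (a, b - 1) ∈ Q ∨ (a - 1, b - 1) ∈ Q ∨ (a - 1, b) ∈ Q)
    (h2 : (a, b) ∉ Q ∨ (a, b - 1) ∉ Q ∨ (a - 1, b - 1) ∉ Q ∨ (a - 1, b) ∉ Q) :
    ∃ t, IsSide Q t ∧ tail t = (a, b) := by
  by_cases i0 : (a, b) ∈ Q ∧ (a, b - 1) ∉ Q
  · refine ⟨((a, b), 0), ⟨i0.1, ?_⟩, ?_⟩
    · have : dir (0 - 1) = (0, -1) := by decide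
      simp only [this, Prod.mk_add_mk, add_zero]
      exact i0.2
    · unfold tail; simp
  by_cases i1 : (a - 1, b) ∈ Q ∧ (a, b) ∉ Q
  · refine ⟨((a - 1, b), 1), ⟨i1.1, ?_⟩, ?_⟩
    · have : dir (1 - 1) = (1, 0) := by decide
      simp only [this, Prod.mk_add_mk, add_zero, sub_add_cancel]
      exact i1.2
    · unfold tail; simp
  by_cases i2 : (a - 1, b - 1) ∈ Q ∧ (a - 1, b) ∉ Q
  · refine ⟨((a - 1, b - 1), 2), ⟨i2.1, ?_⟩, ?_⟩
    · have : dir (2 - 1) = (0, 1) := by decide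
      simp only [this, Prod.mk_add_mk, add_zero, sub_add_cancel]
      exact i2.2
    · unfold tail; simp
  by_cases i3 : (a, b - 1) ∈ Q ∧ (a - 1, b - 1) ∉ Q
  · refine ⟨((a, b - 1), 3), ⟨i3.1, ?_⟩, ?_⟩
    · have : dir (3 - 1) = (-1, 0) := by decide
      simp only [this, Prod.mk_add_mk, add_zero]
      exact i3.2
    · unfold tail; simp
  exfalso
  tauto

/-- **A good polyomino of tiles is a disc.** -/
theorem disc_tile (P : PType) {n : ℤ} (hN : (P.N : ℤ) = 2 * n)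
    (h0 : ((P.vert 0).1 + (P.vert 0).2) % 2 = 0) :
    Disc (TI P.Q) n (fun s => vt (bq P (2 * s))) (fun s => fcT (bq P (2 * s - 1))) := by
  have hNp : (0 : ℤ) < P.N := by exact_mod_cast N_pos (P := P)
  have hper : ∀ q, bq P (q + P.N) = bq P q := by
    intro q
    unfold bq
    rw [Int.add_emod_right]
  refine ⟨by omega, fun l hl => (mem_TI.1 hl).1, ?_, ?_, ?_, ?_, ?_, ?_⟩
  · intro s
    rw [show 2 * (s + n) = 2 * s + P.N by rw [hN]; ring, hper]
  · intro s
    rw [show 2 * (s + n) - 1 = 2 * s - 1 + P.N by rw [hN]; ring, hper]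
  · intro s t hst
    obtain ⟨m, hm⟩ := exists_rep P (2 * s)
    obtain ⟨m', hm'⟩ := exists_rep P (2 * t)
    rw [bq_nat hm, bq_nat hm'] at hst
    have p1 := vert_par (P := P) (m + 1)
    have p2 := vert_par (P := P) (m' + 1)
    have ev : ((m + 1 : ℕ) : ℤ) % 2 = 0 := by
      obtain ⟨c, hc⟩ := hm; rw [hN] at hc
      have : ((m + 1 : ℕ) : ℤ) = 2 * (n * c + s) := by linarith
      omega
    have ev' : ((m' + 1 : ℕ) : ℤ) % 2 = 0 := by
      obtain ⟨c, hc⟩ := hm'; rw [hN] at hc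
      have : ((m' + 1 : ℕ) : ℤ) = 2 * (n * c + t) := by linarith
      omega
    have e := vt_inj (by omega) (by omega) hst
    have e2 := Pool.Agent.Q1.M4.tail_inj P.good (P.isSide_side (m + 1)) (P.isSide_side (m' + 1)) e
    have hNp' : 0 < P.N := N_pos
    have q1 : Eqv (P.side ((m + 1) % P.N)) (P.side (m + 1)) := by
      refine Pool.Agent.Q1.M4.tail_inj P.good (P.isSide_side _) (P.isSide_side _) ?_
      exact vert_mod _
    have q2 : Eqv (P.side ((m' + 1) % P.N)) (P.side (m' + 1)) := by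
      refine Pool.Agent.Q1.M4.tail_inj P.good (P.isSide_side _) (P.isSide_side _) ?_
      exact vert_mod _
    have q3 := (q1.trans e2).trans q2.symm
    have q4 := P.inj _ (Nat.mod_lt _ hNp') _ (Nat.mod_lt _ hNp') q3.1 q3.2
    have q5 : (P.N : ℤ) ∣ ((m + 1 : ℕ) : ℤ) - ((m' + 1 : ℕ) : ℤ) := by
      have := (Nat.modEq_iff_dvd (n := P.N) (a := m' + 1) (b := m + 1)).1 q4.symm
      exact this
    have q6 : (P.N : ℤ) ∣ 2 * s - 2 * t := by
      have h1 := dvd_sub (dvd_sub q5 hm) (dvd_neg.2 hm')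
      have h2 : ((m + 1 : ℕ) : ℤ) - ((m' + 1 : ℕ) : ℤ) - (((m + 1 : ℕ) : ℤ) - 2 * s) -
        -(((m' + 1 : ℕ) : ℤ) - 2 * t) = 2 * s - 2 * t := by ring
      rwa [h2] at h1
    rw [hN] at q6
    obtain ⟨c, hc⟩ := q6
    exact ⟨c, by nlinarith⟩
  · intro S s
    obtain ⟨m, hm⟩ := exists_rep P (2 * s)
    have e1 : bq P (2 * s) = P.vert (m + 1) := bq_nat hm
    have e2 : bq P (2 * s - 1) = P.vert m := bq_nat (by
      have : ((m : ℕ) : ℤ) - (2 * s - 1) = ((m + 1 : ℕ) : ℤ) - 2 * s := by push_cast; ring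
      rw [this]; exact hm)
    have e3 : bq P (2 * (s + 1) - 1) = P.vert (m + 2) := bq_nat (by
      have : ((m + 2 : ℕ) : ℤ) - (2 * (s + 1) - 1) = ((m + 1 : ℕ) : ℤ) - 2 * s := by
        push_cast; ring
      rw [this]; exact hm)
    have ev : ((m + 1 : ℕ) : ℤ) % 2 = 0 := by
      obtain ⟨c, hc⟩ := hm; rw [hN] at hc
      have : ((m + 1 : ℕ) : ℤ) = 2 * (n * c + s) := by linarith
      omega
    have p1 := vert_par (P := P) (m + 1)
    rw [e1, e2, e3]
    obtain ⟨⟨a, b⟩, hab⟩ : ∃ p : ℤ × ℤ, P.vert (m + 1) = p := ⟨_, rfl⟩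
    rw [hab] at p1 ⊢
    simp only at p1
    have := out_sector P.good (P.isSide_side m) (P.isSide_side (m + 1))
      (head_side P m) (a := a) (b := b) hab (by omega) S
    rw [head_side] at this
    exact this
  · intro w hT hNi
    obtain ⟨⟨a, b⟩, hab⟩ : ∃ p : ℤ × ℤ, tv w = p := ⟨_, rfl⟩
    have hev := tv_even w
    rw [hab] at hev
    simp only at hev
    have hw : w = vt (a, b) := by rw [← hab, vt_tv]
    have hlab : ∀ q, IsUnit4 (q - w) → w + q = lt (a, b) ∨ w + q = lt (a, b - 1) ∨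
        w + q = lt (a - 1, b - 1) ∨ w + q = lt (a - 1, b) := by
      intro q hq
      have hu := unit_cases hq
      obtain ⟨x, y⟩ := w
      obtain ⟨x', y'⟩ := q
      simp only [vt, Prod.mk.injEq] at hw
      simp only at hu
      unfold lt
      simp only [Prod.mk_add_mk, Prod.mk.injEq]
      omega
    have h1 : (a, b) ∈ P.Q ∨ (a, b - 1) ∈ P.Q ∨ (a - 1, b - 1) ∈ P.Q ∨ (a - 1, b) ∈ P.Q := by
      obtain ⟨q, hq, hm⟩ := hT
      rcases hlab q hq with h | h | h | h <;> rw [h, lt_mem_TI] at hm <;> tauto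
    have h2 : (a, b) ∉ P.Q ∨ (a, b - 1) ∉ P.Q ∨ (a - 1, b - 1) ∉ P.Q ∨ (a - 1, b) ∉ P.Q := by
      obtain ⟨q, hq, hm⟩ := hNi
      rcases hlab q hq with h | h | h | h <;> rw [h, lt_mem_TI] at hm <;> tauto
    obtain ⟨t, ht, htt⟩ := exists_side h1 h2
    obtain ⟨k, hk, e1, e2⟩ := P.all t ht
    have e3 : P.vert k = (a, b) := by
      rw [← htt]
      unfold PType.vert tail
      have e4 : (P.side k).1 = t.1 := e1
      have e5 : ((P.side k).2 - t.2) % 4 = 0 := e2
      have e6 : (P.side k).2 % 4 = t.2 % 4 := by omega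
      rw [e4, e6]
    have p1 := vert_par (P := P) k
    rw [e3] at p1
    simp only at p1
    refine ⟨(k : ℤ) / 2, ?_⟩
    have e7 : 2 * ((k : ℤ) / 2) = k := by omega
    rw [e7, bq_nat (m := k) (by simp), e3, hw]
  · refine ⟨RO P.Q, ?_, ?_⟩
    · unfold RO
      exact sdiff_disjoint
    · have key : ∀ k : ℕ, Co (RO P.Q) (vt (P.vert 0)) (vt (P.vert (2 * k))) := by
        intro k
        induction k with
        | zero => exact Co.refl _ _
        | succ k ih =>
          refine ih.trans ?_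
          have p1 := vert_par (P := P) (2 * k + 1)
          obtain ⟨⟨a, b⟩, hab⟩ : ∃ p : ℤ × ℤ, P.vert (2 * k + 1) = p := ⟨_, rfl⟩
          rw [hab] at p1
          simp only at p1
          push_cast at p1
          have := co_outer P.good (P.isSide_side (2 * k)) (P.isSide_side (2 * k + 1))
            (head_side P (2 * k)) (a := a) (b := b) hab (by omega)
          rw [head_side] at this
          exact this
      have key2 : ∀ s : ℤ, Co (RO P.Q) (vt (P.vert 0)) (vt (bq P (2 * s))) := by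
        intro s
        obtain ⟨m, hm⟩ := exists_rep P (2 * s)
        have ev : ((m + 1 : ℕ) : ℤ) % 2 = 0 := by
          obtain ⟨c, hc⟩ := hm; rw [hN] at hc
          have : ((m + 1 : ℕ) : ℤ) = 2 * (n * c + s) := by linarith
          omega
        obtain ⟨k, hk⟩ : ∃ k, m + 1 = 2 * k := ⟨(m + 1) / 2, by omega⟩
        rw [bq_nat hm, hk]
        exact key k
      intro s t
      exact (key2 s).symm.trans (key2 t)

end inst

end Pool.Agent.H41.W
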