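import Mathlib
import Pool.Agent.H41.W.LandBox
import Pool.Agent.H24.W.Land

set_option autoImplicit false
open Finset

/-! # The landing lemma in the form used by the recursion E6 -/

namespace Pool.Agent.H41.W

open Pool.Agent.H6.W Pool.Agent.H24.W Pool.Agent.H58.W

theorem landingS : LandingS := by
  intro b δ σ L g h ω hb hσ hg hdg hdL hL hh hω hA
  have hL' : δ ≤ 1 / (4 * L) := by
    refine hdL.trans ?_
    push_cast
    have hL0 : (0 : ℝ) < L := by exact_mod_cast (show 0 < L by omega)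
    refine one_div_le_one_div_of_le (by positivity) (by linarith)
  rcases landing_box hb hσ hg (by omega) hdg hL' hh hω hA with
    ⟨w, t1, t2, t3, t4, a1, a2, a3, a4, h1⟩ | h1 | h1 | h1
  · exact Or.inl ⟨w, t1, t2, t3, t4, ⟨a1, a2, a3, a4⟩, h1⟩
  · exact Or.inr (Or.inl h1)
  · exact Or.inr (Or.inr (Or.inl h1))
  · exact Or.inr (Or.inr (Or.inr h1))

/-- **E6**: `JB` and `RS` give the local bound. -/
theorem e6' (c : ℝ) (hc : 0 < c) (hJB : JB c) (C0 : ℕ) (C c' : ℝ) (hc' : 0 < c')
    (hRS : RS C0 C c') : LocB := e6 (landing_of_strong landingS) c hc hJB C0 C c' hc' hRS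

end Pool.Agent.H41.W
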